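import Pool.Agent.BookPL.Defs
import Pool.Agent.PT.Term

/-!
# Quasi-polynomial bounds
-/

set_option autoImplicit false

namespace Pool.Agent.BookPL

open Pool.Agent.PT

/-- Quasi-polynomially bounded functions. -/
def QB (B : ℕ → ℕ) : Prop := ∃ c, ∀ n, B n ≤ 2 ^ ((Nat.log 2 n + 2) ^ c)

theorem QB.of_le {B B' : ℕ → ℕ} (h : QB B) (hB : ∀ n, B' n ≤ B n) : QB B' := by
  obtain ⟨c, hc⟩ := h
  exact ⟨c, fun n => (hB n).trans (hc n)⟩

private theorem qb_mono (n : ℕ) {c c' : ℕ} (h : c ≤ c') :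
    (Nat.log 2 n + 2) ^ c ≤ (Nat.log 2 n + 2) ^ c' :=
  Nat.pow_le_pow_right (by omega) h

private theorem qb_le (n k : ℕ) : k ≤ (Nat.log 2 n + 2) ^ k :=
  (Nat.lt_pow_self (by omega)).le

private theorem qb_two (n c : ℕ) : 2 * (Nat.log 2 n + 2) ^ c ≤ (Nat.log 2 n + 2) ^ (c + 1) := by
  rw [pow_succ, mul_comm]
  exact Nat.mul_le_mul_left _ (by omega)

private theorem qb_add (n c c' : ℕ) :
    (Nat.log 2 n + 2) ^ c + (Nat.log 2 n + 2) ^ c' ≤ (Nat.log 2 n + 2) ^ (c + c' + 1) := by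
  have h1 := qb_mono n (Nat.le_add_right c c')
  have h2 := qb_mono n (Nat.le_add_left c' c)
  have h3 := qb_two n (c + c')
  omega

theorem QB.log_pow (c : ℕ) : QB (fun n => (Nat.log 2 n + 2) ^ c) := by
  exact ⟨c, fun n => Nat.lt_two_pow_self.le⟩

theorem QB.two_pow (c : ℕ) : QB (fun n => 2 ^ ((Nat.log 2 n + 2) ^ c)) := ⟨c, fun _ => le_rfl⟩

theorem QB.const (k : ℕ) : QB (fun _ => k) := by
  exact ⟨k, fun n => (qb_le n k).trans Nat.lt_two_pow_self.le⟩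

theorem QB.id : QB (fun n => n) := by
  refine ⟨1, fun n => ?_⟩
  rw [pow_one]
  exact (Nat.lt_pow_succ_log_self (by norm_num) n).le.trans
    (Nat.pow_le_pow_right (by norm_num) (by omega))

theorem QB.add {B B' : ℕ → ℕ} (h : QB B) (h' : QB B') : QB (fun n => B n + B' n) := by
  obtain ⟨c, hc⟩ := h
  obtain ⟨c', hc'⟩ := h'
  refine ⟨c + c' + 1, fun n => ?_⟩
  have h1 : 2 ^ ((Nat.log 2 n + 2) ^ c) + 2 ^ ((Nat.log 2 n + 2) ^ c') ≤
      2 ^ ((Nat.log 2 n + 2) ^ c + (Nat.log 2 n + 2) ^ c') := by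
    have h2 : 2 ≤ 2 ^ ((Nat.log 2 n + 2) ^ c) := by
      calc 2 = 2 ^ 1 := by norm_num
        _ ≤ _ := Nat.pow_le_pow_right (by norm_num) (Nat.one_le_pow _ _ (by omega))
    have h3 : 2 ≤ 2 ^ ((Nat.log 2 n + 2) ^ c') := by
      calc 2 = 2 ^ 1 := by norm_num
        _ ≤ _ := Nat.pow_le_pow_right (by norm_num) (Nat.one_le_pow _ _ (by omega))
    rw [pow_add]
    nlinarith
  exact (Nat.add_le_add (hc n) (hc' n)).trans (h1.trans
    (Nat.pow_le_pow_right (by norm_num) (qb_add n c c')))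

theorem QB.mul {B B' : ℕ → ℕ} (h : QB B) (h' : QB B') : QB (fun n => B n * B' n) := by
  obtain ⟨c, hc⟩ := h
  obtain ⟨c', hc'⟩ := h'
  refine ⟨c + c' + 1, fun n => (Nat.mul_le_mul (hc n) (hc' n)).trans ?_⟩
  rw [← pow_add]
  exact Nat.pow_le_pow_right (by norm_num) (qb_add n c c')

theorem QB.pow {B : ℕ → ℕ} (h : QB B) (k : ℕ) : QB (fun n => B n ^ k) := by
  obtain ⟨c, hc⟩ := h
  refine ⟨c + k, fun n => (Nat.pow_le_pow_left (hc n) k).trans ?_⟩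
  rw [← pow_mul]
  refine Nat.pow_le_pow_right (by norm_num) ?_
  rw [pow_add]
  exact Nat.mul_le_mul_left _ (qb_le n k)

/-- Polynomials of quasi-polynomially bounded functions. -/
theorem QB.comp_pb {B T : ℕ → ℕ} (h : QB B) (hT : PB T) : QB (fun n => T (B n)) := by
  obtain ⟨-, c, hc⟩ := hT
  exact ((h.add (QB.const 2)).pow c).of_le fun n => hc (B n)

private theorem qb_log {B : ℕ → ℕ} (h : QB B) (k : ℕ) :
    ∃ c, ∀ n, Nat.log 2 (B n) + k ≤ (Nat.log 2 n + 2) ^ c := by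
  obtain ⟨c, hc⟩ := h
  refine ⟨c + k + 1, fun n => ?_⟩
  have h1 : Nat.log 2 (B n) ≤ (Nat.log 2 n + 2) ^ c := by
    calc Nat.log 2 (B n) ≤ Nat.log 2 (2 ^ ((Nat.log 2 n + 2) ^ c)) := Nat.log_mono_right (hc n)
      _ = _ := Nat.log_pow (by norm_num) _
  exact (Nat.add_le_add h1 (qb_le n k)).trans (qb_add n c k)

/-- `2 ^ (log^c)` of a quasi-polynomially bounded function. -/
theorem QB.two_pow_log {B : ℕ → ℕ} (h : QB B) (c : ℕ) :
    QB (fun n => 2 ^ ((Nat.log 2 (B n) + 2) ^ c)) := by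
  obtain ⟨c', hc'⟩ := qb_log h 2
  refine ⟨c' * c, fun n => Nat.pow_le_pow_right (by norm_num) ?_⟩
  rw [pow_mul]
  exact Nat.pow_le_pow_left (hc' n) c

/-- The logarithm of a quasi-polynomially bounded function. -/
theorem QB.log {B : ℕ → ℕ} (h : QB B) (k : ℕ) :
    ∃ c, ∀ n, Nat.log 2 (B n) + k ≤ (Nat.log 2 n + 2) ^ c := by
  exact qb_log h k

end Pool.Agent.BookPL
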