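import Pool.Agent.BookPL.SimDefs
import Pool.Agent.Book19.Letter

/-!
# The vector of functions is given by terms
-/

set_option autoImplicit false

namespace Pool.Agent.BookPL

open Pool.Agent.PT Pool.Agent.Book19

private theorem simUF_input {A B : Type} [Fintype A] (Z : List B → List A)
    (hZ : ∀ a, UP (fun u e => (Z u)[e 0]? = some a)) (m : Mark A)
    {f : List B → (ℕ → ℕ) → ℕ} (hf : UF f) :
    UP (fun u e => inputAt (Z u) (f u e) = m) := by
  have hs : ∀ a, UP (fun u e => (Z u)[f u e - 1]? = some a) := fun a =>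
    UP.comp₁ (P := fun u n => (Z u)[n]? = some a) (hZ a) (hf.sub (UF.const 1))
  cases m with
  | left =>
    refine (UP.eq hf (UF.const 0)).congr fun u e => ?_
    generalize f u e = n
    cases n with
    | zero => simp [inputAt]
    | succ p =>
      simp only [inputAt]
      cases (Z u)[p]? <;> simp
  | sym a =>
    refine ((UP.le (UF.const 1) hf).and (hs a)).congr fun u e => ?_
    generalize f u e = n
    cases n with
    | zero => simp [inputAt]
    | succ p =>
      simp only [inputAt, Nat.add_sub_cancel]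
      cases (Z u)[p]? <;> simp
  | right =>
    refine ((UP.le (UF.const 1) hf).and (UP.fall fun a => (hs a).not)).congr fun u e => ?_
    generalize f u e = n
    cases n with
    | zero => simp [inputAt]
    | succ p =>
      simp only [inputAt, Nat.add_sub_cancel]
      cases (Z u)[p]? <;> simp

private theorem simUF_match {A B : Type} (M : OTM A) [Fintype A] (Z : List B → List A)
    (hZ : ∀ a, UP (fun u e => (Z u)[e 0]? = some a)) (i : Inp M) :
    UP (fun u e => Match M (Z u) e i) := by
  refine (((UP.eq (UF.var 2) (UF.const (qc M i.1))).and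
    ((simUF_input Z hZ i.2.1 (UF.var 3)).and
      (UP.fall (P := fun (r : Fin M.k) _ (e : ℕ → ℕ) =>
        e (6 + 3 * r) % wb M = wc M (i.2.2 r)) fun r =>
        UP.eq ((UF.var _).mod (UF.const _)) (UF.const _))))).congr fun u e => Iff.rfl

private theorem simUF_apply {B : Type} (d : Dir) {f : List B → (ℕ → ℕ) → ℕ} (hf : UF f) :
    UF (fun u e => Dir.apply d (f u e)) := by
  cases d with
  | left => exact (hf.sub (UF.const 1)).congr fun _ _ => rfl
  | stay => exact hf.congr fun _ _ => rfl
  | right => exact (hf.add (UF.const 1)).congr fun _ _ => rfl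

private theorem simUF_npos {A B : Type} (m : Mark A) (d : Dir) {f : List B → (ℕ → ℕ) → ℕ}
    (hf : UF f) : UF (fun u e => npos m d (f u e)) := by
  cases d with
  | left => exact (hf.sub (UF.const 1)).congr fun _ _ => rfl
  | stay => exact hf.congr fun _ _ => rfl
  | right =>
    cases m with
    | left => exact (hf.add (UF.const 1)).congr fun _ _ => rfl
    | right => exact hf.congr fun _ _ => rfl
    | sym a => exact (hf.add (UF.const 1)).congr fun _ _ => rfl

private theorem simUF_wr {B : Type} (w s : ℕ) {f : List B → (ℕ → ℕ) → ℕ} (hf : UF f) :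
    UF (fun u e => wr w (f u e) s) :=
  (((UF.const w).mul (hf.div (UF.const w))).add (UF.const s)).congr fun _ _ => rfl

private theorem simUF_nL {B : Type} (w s : ℕ) (d : Dir) {h L R : List B → (ℕ → ℕ) → ℕ}
    (hL : UF L) : UF (fun u e => nL w d (h u e) (L u e) (R u e) s) := by
  cases d with
  | left => exact (hL.div (UF.const w)).congr fun _ _ => rfl
  | stay => exact hL.congr fun _ _ => rfl
  | right => exact ((UF.const s).add ((UF.const w).mul hL)).congr fun _ _ => rfl

private theorem simUF_nR {B : Type} (w s : ℕ) (d : Dir) {h L R : List B → (ℕ → ℕ) → ℕ}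
    (hh : UF h) (hL : UF L) (hR : UF R) :
    UF (fun u e => nR w d (h u e) (L u e) (R u e) s) := by
  cases d with
  | left =>
    exact (UF.ite (inst := fun _ _ => _) (UP.eq hh (UF.const 0)) (simUF_wr w s hR)
      ((hL.mod (UF.const w)).add ((UF.const w).mul (simUF_wr w s hR)))).congr fun _ _ => rfl
  | stay => exact (simUF_wr w s hR).congr fun _ _ => rfl
  | right => exact (hR.div (UF.const w)).congr fun _ _ => rfl

private theorem simUF_newE {A B : Type} (M : OTM A) (i : Inp M) (j : ℕ) :
    UF (Γ := B) (fun _ e => newE M i j e) := by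
  unfold newE
  cases h : M.out i.1 with
  | some b =>
    by_cases h0 : j = 0
    · exact (UF.const 0).congr fun _ _ => by simp [h0]
    by_cases h1 : j = 1
    · exact (UF.const (if b then 1 else 0)).congr fun _ _ => by simp [h1]
    exact (UF.var j).congr fun _ _ => by simp [h0, h1]
  | none =>
    by_cases h0 : j = 0
    · exact (UF.const 1).congr fun _ _ => by simp [h0]
    by_cases h1 : j = 1
    · exact (UF.const 0).congr fun _ _ => by simp [h1]
    by_cases h2 : j = 2
    · exact (UF.const (qc M (M.δ i.1 i.2.1 i.2.2).1)).congr fun _ _ => by simp [h2]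
    by_cases h3 : j = 3
    · exact (simUF_npos i.2.1 (M.δ i.1 i.2.1 i.2.2).2.1 (UF.var 3)).congr fun _ _ => by simp [h3]
    by_cases h4 : (j - 4) / 3 < M.k
    · by_cases h5 : (j - 4) % 3 = 0
      · exact (simUF_apply ((M.δ i.1 i.2.1 i.2.2).2.2 ⟨(j - 4) / 3, h4⟩).2
          (UF.var (4 + 3 * ((j - 4) / 3)))).congr fun _ _ => by
            simp only [if_neg h0, if_neg h1, if_neg h2, if_neg h3, dif_pos h4, if_pos h5]
      by_cases h6 : (j - 4) % 3 = 1
      · exact (simUF_nL (wb M) (wc M ((M.δ i.1 i.2.1 i.2.2).2.2 ⟨(j - 4) / 3, h4⟩).1)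
          ((M.δ i.1 i.2.1 i.2.2).2.2 ⟨(j - 4) / 3, h4⟩).2
          (h := fun _ e => e (4 + 3 * ((j - 4) / 3)))
          (R := fun _ e => e (4 + 3 * ((j - 4) / 3) + 2))
          (UF.var (4 + 3 * ((j - 4) / 3) + 1))).congr fun _ _ => by
            simp only [if_neg h0, if_neg h1, if_neg h2, if_neg h3, dif_pos h4, if_neg h5,
              if_pos h6]
      · exact (simUF_nR (wb M) (wc M ((M.δ i.1 i.2.1 i.2.2).2.2 ⟨(j - 4) / 3, h4⟩).1)
          ((M.δ i.1 i.2.1 i.2.2).2.2 ⟨(j - 4) / 3, h4⟩).2
          (UF.var (4 + 3 * ((j - 4) / 3)))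
          (UF.var (4 + 3 * ((j - 4) / 3) + 1))
          (UF.var (4 + 3 * ((j - 4) / 3) + 2))).congr fun _ _ => by
            simp only [if_neg h0, if_neg h1, if_neg h2, if_neg h3, dif_pos h4, if_neg h5,
              if_neg h6]
    · exact (UF.const 0).congr fun _ _ => by
        simp only [if_neg h0, if_neg h1, if_neg h2, if_neg h3, dif_neg h4]

theorem uf_simF {A B : Type} (M : OTM A) [Fintype A] (Z : List B → List A)
    (hZ : ∀ a, UP (fun u e => (Z u)[e 0]? = some a)) (j : ℕ) : UF (simF M Z j) := by
  letI := M.finQ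
  letI := M.finW
  unfold simF
  exact UF.fsum Finset.univ (F := fun (i : Inp M) u e =>
    @ite ℕ (Match M (Z u) e i) (Classical.propDecidable _) (newE M i j e) 0) fun i _ =>
    UF.iteC (simUF_match M Z hZ i) (simUF_newE M i j) (UF.const 0)

end Pool.Agent.BookPL
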