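import Pool.Agent.BookPL.SimTime
import Pool.Agent.BookPL.SimUF
import Pool.Agent.BookPL.QB

/-!
# POLYLOGSPACE is closed under complements and under quasi-polynomial reductions
-/

set_option autoImplicit false

namespace Pool.Agent.BookPL

open Pool.Agent.PT Pool.Agent.Book19

/-- The machine with the opposite answers. -/
def OTM.neg {A : Type} (M : OTM A) : OTM A :=
  { M with out := fun q => (M.out q).map not }

theorem OTM.neg_conf {A : Type} (M : OTM A) (x : List A) (t : ℕ) :
    M.neg.conf x t = M.conf x t := rfl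

theorem InPL.compl {A : Type} {L : Set (List A)} (h : InPL A L) : InPL A {x | x ∉ L} := by
  obtain ⟨M, c, hM⟩ := h
  refine ⟨M.neg, c, fun x => ?_⟩
  obtain ⟨t, b, ⟨h1, h2⟩, h3, h4⟩ := hM x
  refine ⟨t, !b, ⟨?_, fun s hs => ?_⟩, h3, ?_⟩
  · change (M.out (M.conf x t).q).map not = some (!b)
    rw [h1]
    rfl
  · change (M.out (M.conf x s).q).map not = none
    rw [h2 s hs]
    rfl
  · rw [Set.mem_ofPred_eq, h4]
    cases b <;> simp

theorem InPL.comap {A B : Type} [Fintype A] [Fintype B] {L : Set (List A)} (hL : InPL A L)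
    (Z : List B → List A) (bd : ℕ → ℕ) (hbd : QB bd) (hlen : ∀ u, (Z u).length ≤ bd u.length)
    (hZ : ∀ a, UP (fun u e => (Z u)[e 0]? = some a)) : InPL B {u | Z u ∈ L} := by
  obtain ⟨M, c, hM⟩ := hL
  set Sb : ℕ → ℕ := fun n => (Nat.log 2 (bd n) + 2) ^ c with hSb
  set K : ℕ → ℕ := fun n => bnd M (bd n) (Sb n) with hK
  have hqS : QB (fun n => 2 ^ Sb n) := hbd.two_pow_log c
  obtain ⟨k, hk⟩ : ∃ k, wb M ≤ 2 ^ k := ⟨wb M, Nat.lt_two_pow_self.le⟩
  have hqK : QB K := by
    have h1 : QB (fun n => (letI := M.finQ; Fintype.card M.Q) + bd n + 2 ^ Sb n +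
        (2 ^ Sb n) ^ k + 3) :=
      ((((QB.const _).add hbd).add hqS).add (hqS.pow k)).add (QB.const 3)
    refine h1.of_le fun n => ?_
    simp only [hK, bnd]
    have e1 : Sb n ≤ 2 ^ Sb n := Nat.lt_two_pow_self.le
    have e2 : wb M ^ Sb n ≤ (2 ^ Sb n) ^ k := by
      calc wb M ^ Sb n ≤ (2 ^ k) ^ Sb n := Nat.pow_le_pow_left hk _
        _ = (2 ^ Sb n) ^ k := by rw [← pow_mul, ← pow_mul, Nat.mul_comm]
    omega
  refine inPL_of_while (nE M) (by unfold nE; omega) (simF M Z) (uf_simF M Z hZ) _
    (fun n => K n ^ nE M + K n + 1) (((hqK.pow _).add hqK).add (QB.const 1)) fun u => ?_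
  set z := Z u with hz
  obtain ⟨t, b, hg, hs, hb⟩ := hM z
  set S := (Nat.log 2 z.length + 2) ^ c with hS
  have hSle : S ≤ Sb u.length := by
    simp only [hS, hSb]
    exact Nat.pow_le_pow_left (Nat.add_le_add_right (Nat.log_mono_right (hlen u)) 2) _
  have hwb : 0 < wb M := by unfold wb; omega
  have hbK : bnd M z.length S ≤ K u.length := by
    simp only [hK, bnd]
    have e1 : z.length ≤ bd u.length := hlen u
    have e2 : wb M ^ S ≤ wb M ^ Sb u.length := Nat.pow_le_pow_right hwb hSle
    omega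
  have hpos : ∀ s, (M.conf z s).pos ≤ z.length + 1 := conf_pos_le M z
  have hit : ∀ i ≤ t, (vstep (nE M) (simF M Z) u)^[i] e₀ = encE M S (M.conf z i) := by
    intro i
    induction i with
    | zero => intro _; exact (encE_init M S).symm
    | succ i ih =>
      intro hi
      rw [Function.iterate_succ_apply', ih (by omega)]
      have e1 : M.conf z (i + 1) = M.step z (M.conf z i) := by
        unfold OTM.conf
        rw [Function.iterate_succ_apply']
      rw [e1]
      refine vstep_enc M Z u S _ (hs i (by omega)) ?_ (hpos i) (hg.2 i (by omega))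
      rw [← hz, ← e1]
      exact hs (i + 1) hi
  have hlt : ∀ i ≤ t, ∀ j, encE M S (M.conf z i) j < K u.length := fun i hi j =>
    (encE_lt M z S _ (hs i hi) (hpos i) j).trans_le hbK
  have ht : t < K u.length ^ nE M :=
    (time_le M z t S b hg hs).trans_le (Nat.pow_le_pow_left hbK _)
  obtain ⟨o1, o2, o3⟩ := vstep_out M Z u S (M.conf z t) (hs t le_rfl) (hpos t) b hg.1
  have hlast : (vstep (nE M) (simF M Z) u)^[t + 1] e₀ =
      vstep (nE M) (simF M Z) u (encE M S (M.conf z t)) := by
    rw [Function.iterate_succ_apply', hit t le_rfl]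
  refine ⟨t + 1, ?_, fun i hi => ?_, ?_, fun i hi j => ?_, ?_⟩
  · change t + 1 ≤ K u.length ^ nE M + K u.length + 1
    omega
  · rw [hit i (by omega)]
    simp [encE]
  · rw [hlast, o1]
  · rcases Nat.lt_or_ge i (t + 1) with h | h
    · rw [hit i (by omega)]
      have := hlt i (by omega) j
      change _ ≤ K u.length ^ nE M + K u.length + 1
      omega
    · obtain rfl : i = t + 1 := by omega
      rw [hlast]
      have h1 := o3 j
      have h2 := hlt t le_rfl j
      change _ ≤ K u.length ^ nE M + K u.length + 1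
      omega
  · rw [hlast, o2]
    change z ∈ L ↔ _
    rw [hb]
    cases b <;> simp

end Pool.Agent.BookPL
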