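import Pool.Agent.PT.UF

/-!
# Binary logarithm and binary digits in the term calculus
-/

set_option autoImplicit false

namespace Pool.Agent.BookPL

open Pool.Agent.PT

variable {Γ : Type}

private theorem log2_pow_iff (q : ℕ) : (∃ j, q = 2 ^ j) ↔
    (1 ≤ q ∧ ∀ d, d < q + 1 → (q % d = 0 → (d = 1 ∨ d % 2 = 0))) := by
  constructor
  · rintro ⟨j, rfl⟩
    refine ⟨Nat.one_le_two_pow, fun d _ hd => ?_⟩
    obtain ⟨i, -, rfl⟩ := (Nat.dvd_prime_pow Nat.prime_two).1 (Nat.dvd_of_mod_eq_zero hd)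
    rcases Nat.eq_zero_or_pos i with h | h
    · left
      rw [h, pow_zero]
    · right
      exact Nat.mod_eq_zero_of_dvd (dvd_pow_self 2 h.ne')
  · rintro ⟨h1, h2⟩
    refine ⟨_, Nat.eq_prime_pow_of_unique_prime_dvd (by omega) fun {d} hd hdq => ?_⟩
    rcases h2 d (Nat.lt_succ_of_le (Nat.le_of_dvd h1 hdq)) (Nat.mod_eq_zero_of_dvd hdq) with h | h
    · exact absurd h hd.one_lt.ne'
    · exact ((Nat.prime_dvd_prime_iff_eq Nat.prime_two hd).1 (Nat.dvd_of_mod_eq_zero h)).symm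

private theorem log2_pow {f : List Γ → (ℕ → ℕ) → ℕ} (hf : UF f) :
    UP (fun x e => ∃ j, f x e = 2 ^ j) := by
  have h : UP (Γ := Γ) (fun _ e => ∃ j, e 0 = 2 ^ j) := by
    refine UP.congr (P := fun (_ : List Γ) (e : ℕ → ℕ) =>
      1 ≤ e 0 ∧ ∀ d, d < e 0 + 1 → (e 0 % d = 0 → (d = 1 ∨ d % 2 = 0))) ?_
      fun x e => (log2_pow_iff _).symm
    refine (UP.le (UF.const 1) (UF.var 0)).and ?_
    refine UP.ball (P := fun _ e d => (e 0 % d = 0 → (d = 1 ∨ d % 2 = 0)))
      ((UF.var 0).add (UF.const 1)) ?_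
    exact (UP.eq ((UF.var 1).mod (UF.var 0)) (UF.const 0)).imp
      ((UP.eq (UF.var 0) (UF.const 1)).or (UP.eq ((UF.var 0).mod (UF.const 2)) (UF.const 0)))
  exact UP.comp₁ (P := fun _ a => ∃ j, a = 2 ^ j) h hf

open Classical in
private theorem log2_count (m : ℕ) :
    (∑ i ∈ Finset.range (m + 1), if ∃ j, i = 2 ^ j then 1 else 0) - 1 = Nat.log 2 m := by
  rw [Finset.sum_boole]
  simp only [Nat.cast_id]
  rcases Nat.eq_zero_or_pos m with h | h
  · subst h
    have h1 : (Finset.range (0 + 1)).filter (fun i => ∃ j, i = 2 ^ j) = ∅ := by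
      rw [Finset.filter_eq_empty_iff]
      intro i hi
      rw [Finset.mem_range] at hi
      rintro ⟨j, hj⟩
      have := Nat.one_le_two_pow (n := j)
      omega
    rw [h1]
    simp
  · have h1 : (Finset.range (m + 1)).filter (fun i => ∃ j, i = 2 ^ j) =
        (Finset.range (Nat.log 2 m + 1)).image (fun j => 2 ^ j) := by
      ext i
      simp only [Finset.mem_filter, Finset.mem_range, Finset.mem_image]
      constructor
      · rintro ⟨hi, j, rfl⟩
        exact ⟨j, Nat.lt_succ_of_le ((Nat.le_log_iff_pow_le (by omega) (by omega)).2 (by omega)), rfl⟩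
      · rintro ⟨j, hj, rfl⟩
        exact ⟨Nat.lt_succ_of_le ((Nat.le_log_iff_pow_le (by omega) (by omega)).1 (by omega)), j, rfl⟩
    rw [h1, Finset.card_image_of_injective _ (Nat.pow_right_injective le_rfl), Finset.card_range]
    rfl

theorem UF.log2 {f : List Γ → (ℕ → ℕ) → ℕ} (hf : UF f) : UF (fun x e => Nat.log 2 (f x e)) := by
  classical
  refine UF.congr ((UF.sum (f := fun _ _ i => if ∃ j, i = 2 ^ j then 1 else 0)
    (hf.add (UF.const 1)) (UF.congr (log2_pow (UF.var 0)) fun x e => ?_)).sub (UF.const 1))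
    fun x e => ?_
  · simp
  · exact log2_count _

theorem UP.testBit {f g : List Γ → (ℕ → ℕ) → ℕ} (hf : UF f) (hg : UF g) :
    UP (fun x e => (f x e).testBit (g x e) = true) := by
  classical
  refine UP.congr (P := fun x e => ∃ q, q < f x e + 1 ∧ ((∃ j, q = 2 ^ j) ∧
    (Nat.log 2 q = g x e ∧ (f x e / q) % 2 = 1))) ?_ fun x e => ?_
  · refine UP.bex (P := fun x e q => ((∃ j, q = 2 ^ j) ∧
      (Nat.log 2 q = g x e ∧ (f x e / q) % 2 = 1))) (hf.add (UF.const 1)) ?_
    exact (log2_pow (UF.var 0)).and ((UP.eq (UF.log2 (UF.var 0)) (UF.ren (fun i => i + 1) hg)).and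
      (UP.eq (((UF.ren (fun i => i + 1) hf).div (UF.var 0)).mod (UF.const 2)) (UF.const 1)))
  · rw [Nat.testBit_eq_decide_div_mod_eq, decide_eq_true_iff]
    constructor
    · rintro ⟨q, -, ⟨j, rfl⟩, h1, h2⟩
      rw [Nat.log_pow (by omega)] at h1
      rw [← h1]
      exact h2
    · intro h
      refine ⟨2 ^ g x e, ?_, ⟨_, rfl⟩, Nat.log_pow (by omega) _, h⟩
      by_contra hcon
      push Not at hcon
      rw [Nat.div_eq_of_lt (by omega)] at h
      simp at h

end Pool.Agent.BookPL
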