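import Pool.Agent.PT.Term

/-!
# Compilation of terms to stack programs, second version

As `Pool.Agent.PT.Tm.comp`, but registers 0 and 1 are only used to walk along the input word;
register 2 is a unary scratch register, and the variables are in registers from 3 on.
-/

set_option autoImplicit false

namespace Pool.Agent.BookPL

open Pool.Agent.PT
open Function (update)

variable {Γ A : Type}


/-- Compilation. The input word is in register 0, register 1 is a scratch register, registers from
`o` on are empty, the value is produced in register `o`; variable `i` is in register `ρ i`. -/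
noncomputable def zcomp (g : Γ → A) (u : A) : Tm Γ → (ρ : ℕ → ℕ) → (o : ℕ) → Prog A
  | .var i, ρ, o => cp (ρ i) o 2
  | .const c, _, o => pushN o u c
  | .len, _, o => Prog.seq (Prog.loop 0 (fun a => Prog.seq (Prog.push 1 a) (Prog.push o u))) (mv 1 0)
  | .sym a t, ρ, o => Prog.seq (zcomp g u t ρ (o + 1)) (symP g u a o)
  | .add s t, ρ, o => Prog.seq (zcomp g u s ρ o) (Prog.seq (zcomp g u t ρ (o + 1)) (mv (o + 1) o))
  | .sub s t, ρ, o => Prog.seq (zcomp g u s ρ o) (Prog.seq (zcomp g u t ρ (o + 1))
      (Prog.loop (o + 1) (fun _ => Prog.pop o Prog.skip (fun _ => Prog.skip))))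
  | .sum b t, ρ, o => Prog.seq (zcomp g u b ρ (o + 1))
      (Prog.loop (o + 1) (fun _ => Prog.seq (zcomp g u t (fun i => Nat.casesOn i (o + 1) ρ) (o + 2))
        (mv (o + 2) o)))
  | .lett s t, ρ, o => Prog.seq (zcomp g u s ρ (o + 1))
      (Prog.seq (zcomp g u t (fun i => Nat.casesOn i (o + 1) ρ) (o + 2))
        (Prog.seq (mv (o + 2) o) (clear (o + 1))))
  | .ren σ t, ρ, o => zcomp g u t (fun i => ρ (σ i)) o

/-- The stores on which compiled terms are run: the input and the variables. -/
structure ZVars (g : Γ → A) (u : A) (x : List Γ) (e : ℕ → ℕ) (ρ : ℕ → ℕ) (o : ℕ) (s : Store A) :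
    Prop where
  input : s 0 = x.map g
  scratch : s 1 = []
  scr : s 2 = []
  three_le : ∀ i, 3 ≤ ρ i
  lt : ∀ i, ρ i < o
  vars : ∀ i, s (ρ i) = un u (e i)

/-- The stores on which compiled terms are run. -/
structure ZGood (g : Γ → A) (u : A) (x : List Γ) (e : ℕ → ℕ) (ρ : ℕ → ℕ) (o : ℕ) (s : Store A) :
    Prop extends ZVars g u x e ρ o s where
  temps : ∀ j, o ≤ j → s j = []

theorem ZVars.mono {g : Γ → A} {u : A} {x : List Γ} {e : ℕ → ℕ} {ρ : ℕ → ℕ} {o o' : ℕ}
    {s : Store A} (h : ZVars g u x e ρ o s) (ho : o ≤ o') : ZVars g u x e ρ o' s :=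
  ⟨h.input, h.scratch, h.scr, h.three_le, fun i => (h.lt i).trans_le ho, h.vars⟩

theorem ZVars.three_lt {g : Γ → A} {u : A} {x : List Γ} {e : ℕ → ℕ} {ρ : ℕ → ℕ} {o : ℕ}
    {s : Store A} (h : ZVars g u x e ρ o s) : 3 < o := (h.three_le 0).trans_lt (h.lt 0)

/-- Changing a register which is no variable. -/
theorem ZVars.update {g : Γ → A} {u : A} {x : List Γ} {e : ℕ → ℕ} {ρ : ℕ → ℕ} {o r : ℕ}
    {s : Store A} (h : ZVars g u x e ρ o s) (hr : o ≤ r) (l : List A) :
    ZVars g u x e ρ o (update s r l) := by
  have h2 := h.three_lt
  refine ⟨?_, ?_, ?_, h.three_le, h.lt, fun i => ?_⟩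
  · rw [Function.update_of_ne (by omega)]; exact h.input
  · rw [Function.update_of_ne (by omega)]; exact h.scratch
  · rw [Function.update_of_ne (by omega)]; exact h.scr
  · have := h.lt i
    rw [Function.update_of_ne (by omega)]; exact h.vars i

/-- Adding a variable. -/
theorem ZVars.cons {g : Γ → A} {u : A} {x : List Γ} {e : ℕ → ℕ} {ρ : ℕ → ℕ} {o r : ℕ}
    {s : Store A} (h : ZVars g u x e ρ o s) (hr : 3 ≤ r) (hr' : r < o) {k : ℕ}
    (hk : s r = un u k) : ZVars g u x (cons k e) (fun i => Nat.casesOn i r ρ) o s := by
  refine ⟨h.input, h.scratch, h.scr, fun i => ?_, fun i => ?_, fun i => ?_⟩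
  · cases i
    · exact hr
    · exact h.three_le _
  · cases i
    · exact hr'
    · exact h.lt _
  · cases i
    · exact hk
    · exact h.vars _


/-- The value of a term under a bound on its variables. -/
structure ZSpec (g : Γ → A) (u : A) (t : Tm Γ) (T : ℕ → ℕ) : Prop where
  pb : PB T
  val : ∀ (N : ℕ) (x : List Γ) (e : ℕ → ℕ), x.length ≤ N → (∀ i, e i ≤ N) → t.eval x e ≤ T N
  run : ∀ (N : ℕ) (x : List Γ) (e : ℕ → ℕ) (ρ : ℕ → ℕ) (o : ℕ) (s : Store A), x.length ≤ N →
    (∀ i, e i ≤ N) → ZGood g u x e ρ o s →
    Runs (zcomp g u t ρ o) s (update s o (un u (t.eval x e))) (T N)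

theorem cons_le {k : ℕ} {e : ℕ → ℕ} {N : ℕ} (hk : k ≤ N) (he : ∀ i, e i ≤ N) :
    ∀ i, cons k e i ≤ N
  | 0 => hk
  | i + 1 => he i

/-- The loop of a sum. -/
theorem runs_zsum (g : Γ → A) (u : A) (t : Tm Γ) (T : ℕ → ℕ) (ht : ZSpec g u t T) (N : ℕ)
    (x : List Γ) (e : ℕ → ℕ) (ρ : ℕ → ℕ) (o : ℕ) (hx : x.length ≤ N)
    (he : ∀ i, e i ≤ N) : ∀ (b m : ℕ) (s : Store A), b ≤ N → ZVars g u x e ρ o s →
      (∀ j, o + 2 ≤ j → s j = []) → s (o + 1) = un u b → s o = un u m →
      Runs (Prog.loop (o + 1) (fun _ => Prog.seq
        (zcomp g u t (fun i => Nat.casesOn i (o + 1) ρ) (o + 2)) (mv (o + 2) o))) s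
        (update (update s (o + 1) []) o (un u (m + ∑ i ∈ Finset.range b, t.eval x (cons i e))))
        (b * (T N + (2 * T N + 1) + 1) + 1)
  | 0, m, s, _, _, _, h0, h1 => by
    refine (Runs.loopNil h0).conv ?_ (by simp)
    funext i
    by_cases e1 : i = o
    · subst e1; simp [h1]
    · by_cases e2 : i = o + 1
      · subst e2; simp [h0]
      · simp [e1, e2]
  | b + 1, m, s, hb, hv, htm, h0, h1 => by
    have ho := hv.three_lt
    set v := t.eval x (cons b e) with hv'
    set s1 := update s (o + 1) (un u b) with hs1
    have hs1v : ZVars g u x e ρ o s1 := hv.update (by omega) _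
    have hs1g : ZGood g u x (cons b e) (fun i => Nat.casesOn i (o + 1) ρ) (o + 2) s1 := by
      refine ⟨(hs1v.mono (by omega)).cons (by omega) (by omega) (by simp [hs1]), fun j hj => ?_⟩
      rw [hs1, Function.update_of_ne (by omega)]
      exact htm j hj
    have g1 := ht.run N x (cons b e) _ (o + 2) s1 hx (cons_le (by omega) he) hs1g
    set s2 := update s1 (o + 2) (un u v) with hs2
    have g2 := runs_mv (o + 2) o (by omega) (un u v) s2 (by simp [hs2])
    have hval := ht.val N x (cons b e) hx (cons_le (by omega) he)
    set s3 := update (update s2 (o + 2) []) o ((un u v).reverse ++ s2 o) with hs3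
    have hs3o : s3 o = un u (m + v) := by
      simp [hs3, hs2, hs1, h1, Nat.add_comm]
    have g3 := runs_zsum g u t T ht N x e ρ o hx he b (m + v) s3 (by omega)
      (by
        refine ZVars.update (ZVars.update (ZVars.update hs1v ?_ _) ?_ _) ?_ _ <;> omega)
      (fun j hj => by
        rw [hs3, Function.update_of_ne (by omega)]
        by_cases e1 : j = o + 2
        · subst e1; simp
        · rw [Function.update_of_ne e1, hs2, Function.update_of_ne e1, hs1,
            Function.update_of_ne (by omega)]
          exact htm j hj)
      (by simp [hs3, hs2, hs1]) hs3o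
    refine (Runs.loopCons (p := fun _ => Prog.seq
        (zcomp g u t (fun i => Nat.casesOn i (o + 1) ρ) (o + 2)) (mv (o + 2) o)) h0
        (g1.seq g2) g3).conv ?_ ?_
    · funext i
      by_cases e1 : i = o
      · subst e1
        simp only [Function.update_self]
        rw [Finset.sum_range_succ]
        congr 1
        omega
      · by_cases e2 : i = o + 1
        · subst e2; simp
        · by_cases e3 : i = o + 2
          · subst e3
            simp [hs3, htm (o + 2) le_rfl]
          · simp [e1, e2, e3, hs3, hs2, hs1]
    · simp only [un_length]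
      have : (b + 1) * (T N + (2 * T N + 1) + 1) =
          b * (T N + (2 * T N + 1) + 1) + (T N + (2 * T N + 1) + 1) := by ring
      omega

theorem exists_zspec (g : Γ → A) (hg : Function.Injective g) (u : A) : ∀ t : Tm Γ, ∃ T, ZSpec g u t T
  | .var i => by
    refine ⟨fun N => 5 * N + 2, (((PB.const 5).mul PB.id).add (PB.const 2)), ?_, ?_⟩
    · intro N x e hx he
      have := he i
      simp only [Tm.eval]
      omega
    · intro N x e ρ o s hx he hs
      have h1 := hs.lt i
      have h2 := hs.three_le i
      have := runs_cp u (ρ i) o 2 (by omega) (by omega) (by omega) (e i) 0 s (hs.vars i)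
        (hs.temps o le_rfl) hs.scr
      have h3 := he i
      refine this.conv ?_ (by omega)
      simp [Tm.eval]
  | .const c => by
    refine ⟨fun _ => c + 1, PB.const _, ?_, ?_⟩
    · intro N x e hx he
      simp [Tm.eval]
    · intro N x e ρ o s hx he hs
      refine (runs_pushN o u c 0 s (hs.temps o le_rfl)).conv ?_ le_rfl
      simp [Tm.eval]
  | .len => by
    refine ⟨fun N => 5 * N + 2, (((PB.const 5).mul PB.id).add (PB.const 2)), ?_, ?_⟩
    · intro N x e hx he
      simp only [Tm.eval]
      omega
    · intro N x e ρ o s hx he hs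
      have ho := hs.three_lt
      have g1 := runs_len g u o (by omega) (x.map g) 0 s hs.input (hs.temps o le_rfl)
      set s1 := update (update (update s 0 []) 1 ((x.map g).reverse ++ s 1)) o
        (un u (0 + (x.map g).length)) with hs1
      have e12 : o ≠ 0 := by omega
      have e13 : o ≠ 1 := by omega
      have g2 := runs_mv 1 0 (by decide) (x.map g).reverse s1 (by
        simp [hs1, hs.scratch, Ne.symm e13])
      refine (g1.seq g2).conv ?_ ?_
      · funext i
        by_cases e1 : i = 0
        · subst e1
          simp [hs1, Ne.symm e12, hs.input]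
        · by_cases e2 : i = 1
          · subst e2
            simp [hs.scratch, Ne.symm e13]
          · by_cases e3 : i = o
            · subst e3
              simp [hs1, e1, e2, Tm.eval]
            · simp [hs1, e1, e2, e3]
      · simp only [List.length_map, List.length_reverse]
        omega
  | .sym a t => by
    obtain ⟨T, hT⟩ := exists_zspec g hg u t
    refine ⟨fun N => T N + (3 * T N + 2 * N + 5), hT.pb.add
      ((((PB.const 3).mul hT.pb).add ((PB.const 2).mul PB.id)).add (PB.const 5)), ?_, ?_⟩
    · intro N x e hx he
      simp only [Tm.eval]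
      split_ifs <;> omega
    · intro N x e ρ o s hx he hs
      have ho := hs.three_lt
      have g1 := hT.run N x e ρ (o + 1) s hx he ⟨hs.toZVars.mono (by omega), fun j hj =>
        hs.temps j (by omega)⟩
      have hval := hT.val N x e hx he
      have e12 : o ≠ 0 := by omega
      have g2 := runs_symP g hg u x o (t.eval x e) (by omega) a
        (update s (o + 1) (un u (t.eval x e)))
        (by
          rw [Function.update_of_ne (by omega)]
          exact hs.input)
        (by
          rw [Function.update_of_ne (by omega)]
          exact hs.scratch)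
        (by
          rw [Function.update_of_ne (by omega)]
          exact hs.temps o le_rfl)
        (by simp)
      refine (g1.seq g2).conv ?_ (by omega)
      funext i
      by_cases e1 : i = o
      · subst e1; simp [Tm.eval]
      · by_cases e2 : i = o + 1
        · subst e2; simp [hs.temps (o + 1) (by omega)]
        · simp [e1, e2]
  | .add s t => by
    obtain ⟨S, hS⟩ := exists_zspec g hg u s
    obtain ⟨T, hT⟩ := exists_zspec g hg u t
    refine ⟨fun N => S N + (T N + (2 * T N + 1)), hS.pb.add
      (hT.pb.add (((PB.const 2).mul hT.pb).add (PB.const 1))), ?_, ?_⟩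
    · intro N x e hx he
      have := hS.val N x e hx he
      have := hT.val N x e hx he
      simp only [Tm.eval]
      omega
    · intro N x e ρ o s' hx he hs
      have ho := hs.three_lt
      have g1 := hS.run N x e ρ o s' hx he hs
      set v := s.eval x e with hv
      set w := t.eval x e with hw
      have g2 := hT.run N x e ρ (o + 1) (update s' o (un u v)) hx he
        ⟨(hs.toZVars.update le_rfl _).mono (by omega), fun j hj => by
          rw [Function.update_of_ne (by omega)]
          exact hs.temps j (by omega)⟩
      have g3 := runs_mv (o + 1) o (by omega) (un u w)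
        (update (update s' o (un u v)) (o + 1) (un u w)) (by simp)
      have hval := hT.val N x e hx he
      refine (g1.seq (g2.seq g3)).conv ?_ ?_
      · funext i
        by_cases e1 : i = o
        · subst e1; simp [Tm.eval, Nat.add_comm, hv, hw]
        · by_cases e2 : i = o + 1
          · subst e2; simp [hs.temps (o + 1) (by omega)]
          · simp [e1, e2]
      · simp only [un_length]
        omega
  | .sub s t => by
    obtain ⟨S, hS⟩ := exists_zspec g hg u s
    obtain ⟨T, hT⟩ := exists_zspec g hg u t
    refine ⟨fun N => S N + (T N + (3 * T N + 1)), hS.pb.add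
      (hT.pb.add (((PB.const 3).mul hT.pb).add (PB.const 1))), ?_, ?_⟩
    · intro N x e hx he
      have := hS.val N x e hx he
      have := hT.val N x e hx he
      simp only [Tm.eval]
      omega
    · intro N x e ρ o s' hx he hs
      have ho := hs.three_lt
      have g1 := hS.run N x e ρ o s' hx he hs
      set v := s.eval x e with hv
      set w := t.eval x e with hw
      have g2 := hT.run N x e ρ (o + 1) (update s' o (un u v)) hx he
        ⟨(hs.toZVars.update le_rfl _).mono (by omega), fun j hj => by
          rw [Function.update_of_ne (by omega)]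
          exact hs.temps j (by omega)⟩
      have g3 := runs_sub u o w v
        (update (update s' o (un u v)) (o + 1) (un u w)) (by simp) (by simp)
      have hval := hT.val N x e hx he
      refine (g1.seq (g2.seq g3)).conv ?_ ?_
      · funext i
        by_cases e1 : i = o
        · subst e1; simp [Tm.eval, hv, hw]
        · by_cases e2 : i = o + 1
          · subst e2; simp [hs.temps (o + 1) (by omega)]
          · simp [e1, e2]
      · omega
  | .sum b t => by
    obtain ⟨B, hB⟩ := exists_zspec g hg u b
    obtain ⟨T, hT⟩ := exists_zspec g hg u t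
    have hT' : PB (fun N => T (N + B N)) := hT.pb.comp (PB.id.add hB.pb)
    refine ⟨fun N => B N + (B N * (T (N + B N) + (2 * T (N + B N) + 1) + 1) + 1), hB.pb.add
      ((hB.pb.mul (((hT'.add (((PB.const 2).mul hT').add (PB.const 1)))).add (PB.const 1))).add
        (PB.const 1)), ?_, ?_⟩
    · intro N x e hx he
      have h1 := hB.val N x e hx he
      simp only [Tm.eval]
      have h2 : ∑ i ∈ Finset.range (b.eval x e), t.eval x (cons i e) ≤
          ∑ i ∈ Finset.range (b.eval x e), T (N + B N) := by
        refine Finset.sum_le_sum fun i hi => ?_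
        rw [Finset.mem_range] at hi
        exact hT.val (N + B N) x (cons i e) (by omega) (cons_le (by omega)
          (fun j => (he j).trans (by omega)))
      rw [Finset.sum_const, Finset.card_range, smul_eq_mul] at h2
      have h3 : b.eval x e * T (N + B N) ≤ B N * (T (N + B N) + (2 * T (N + B N) + 1) + 1) :=
        Nat.mul_le_mul h1 (by omega)
      omega
    · intro N x e ρ o s hx he hs
      have ho := hs.three_lt
      have hval := hB.val N x e hx he
      have g1 := hB.run N x e ρ (o + 1) s hx he ⟨hs.toZVars.mono (by omega), fun j hj =>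
        hs.temps j (by omega)⟩
      set k := b.eval x e with hk
      have g2 := runs_zsum g u t T hT (N + B N) x e ρ o (by omega) (fun i => (he i).trans (by omega))
        k 0 (update s (o + 1) (un u k)) (by omega) (hs.toZVars.update (by omega) _)
        (fun j hj => by
          rw [Function.update_of_ne (by omega)]
          exact hs.temps j (by omega)) (by simp) (by
            rw [Function.update_of_ne (by omega)]
            exact hs.temps o le_rfl)
      refine (g1.seq g2).conv ?_ ?_
      · funext i
        by_cases e1 : i = o
        · subst e1; simp [Tm.eval, hk]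
        · by_cases e2 : i = o + 1
          · subst e2; simp [hs.temps (o + 1) (by omega)]
          · simp [e1, e2]
      · have := Nat.mul_le_mul_right (T (N + B N) + (2 * T (N + B N) + 1) + 1) hval
        omega
  | .lett b t => by
    obtain ⟨B, hB⟩ := exists_zspec g hg u b
    obtain ⟨T, hT⟩ := exists_zspec g hg u t
    have hT' : PB (fun N => T (N + B N)) := hT.pb.comp (PB.id.add hB.pb)
    refine ⟨fun N => B N + (T (N + B N) + ((2 * T (N + B N) + 1) + (2 * B N + 1))), hB.pb.add
      (hT'.add ((((PB.const 2).mul hT').add (PB.const 1)).add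
        (((PB.const 2).mul hB.pb).add (PB.const 1)))), ?_, ?_⟩
    · intro N x e hx he
      have h1 := hB.val N x e hx he
      simp only [Tm.eval]
      have h2 := hT.val (N + B N) x (cons (b.eval x e) e) (by omega) (cons_le (by omega)
          (fun j => (he j).trans (by omega)))
      omega
    · intro N x e ρ o s hx he hs
      have ho := hs.three_lt
      have hval := hB.val N x e hx he
      have g1 := hB.run N x e ρ (o + 1) s hx he ⟨hs.toZVars.mono (by omega), fun j hj =>
        hs.temps j (by omega)⟩
      set k := b.eval x e with hk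
      set s1 := update s (o + 1) (un u k) with hs1
      have hs1v : ZVars g u x e ρ o s1 := hs.toZVars.update (by omega) _
      have hs1g : ZGood g u x (cons k e) (fun i => Nat.casesOn i (o + 1) ρ) (o + 2) s1 := by
        refine ⟨(hs1v.mono (by omega)).cons (by omega) (by omega) (by simp [hs1]),
          fun j hj => ?_⟩
        rw [hs1, Function.update_of_ne (by omega)]
        exact hs.temps j (by omega)
      have hck : ∀ i, cons k e i ≤ N + B N := cons_le (by omega)
          (fun j => (he j).trans (by omega))
      have hval2 := hT.val (N + B N) x (cons k e) (by omega) hck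
      have g2 := hT.run (N + B N) x (cons k e) _ (o + 2) s1 (by omega) hck hs1g
      set v := t.eval x (cons k e) with hv
      set s2 := update s1 (o + 2) (un u v) with hs2
      have g3 := runs_mv (o + 2) o (by omega) (un u v) s2 (by simp [hs2])
      set s3 := update (update s2 (o + 2) []) o ((un u v).reverse ++ s2 o) with hs3
      have g4 := runs_clear (o + 1) (un u k) s3 (by simp [hs3, hs2, hs1])
      refine (g1.seq (g2.seq (g3.seq g4))).conv ?_ ?_
      · funext i
        by_cases e1 : i = o
        · subst e1; simp [Tm.eval, hs3, hs2, hs1, hv, hk, hs.temps i le_rfl]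
        · by_cases e2 : i = o + 1
          · subst e2; simp [hs.temps (o + 1) (by omega)]
          · by_cases e3 : i = o + 2
            · subst e3; simp [hs3, hs.temps (o + 2) (by omega)]
            · simp [e1, e2, e3, hs3, hs2, hs1]
      · simp only [un_length]
        omega
  | .ren σ t => by
    obtain ⟨T, hT⟩ := exists_zspec g hg u t
    refine ⟨T, hT.pb, ?_, ?_⟩
    · intro N x e hx he
      exact hT.val N x (fun i => e (σ i)) hx (fun i => he _)
    · intro N x e ρ o s hx he hs
      exact hT.run N x (fun i => e (σ i)) (fun i => ρ (σ i)) o s hx (fun i => he _)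
        ⟨⟨hs.input, hs.scratch, hs.scr, fun i => hs.three_le _, fun i => hs.lt _, fun i => hs.vars _⟩,
          hs.temps⟩

end Pool.Agent.BookPL
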