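import Pool.Agent.BookPL.Ty
import Pool.Agent.BookPL.TermZ

/-!
# Compiled terms are well typed
-/

set_option autoImplicit false

namespace Pool.Agent.BookPL

open Pool.Agent.PT

variable {A Γ : Type}

theorem ty_mv (u : A) (r r' : ℕ) (hr : 2 ≤ r) (hr' : 2 ≤ r') : Ty u none (mv r r') none :=
  Ty.loop none r hr _ (Ty.push none r' hr')

theorem ty_clear (u : A) (r : ℕ) (hr : 2 ≤ r) : Ty u none (clear r) none :=
  Ty.loop none r hr _ (Ty.skip none)

private theorem tyComp_mv10 (u : A) : Ty u none (mv 1 0) none :=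
  Ty.loop01 1 (by omega) _ fun b => Ty.push0 b

private theorem tyComp_cp (u : A) (r r' r'' : ℕ) (hr : 2 ≤ r) (hr' : 2 ≤ r') (hr'' : 2 ≤ r'') :
    Ty u none (cp r r' r'') none :=
  Ty.seq none none none _ _
    (Ty.loop none r hr _ (Ty.seq none none none _ _ (Ty.push none r' hr') (Ty.push none r'' hr'')))
    (ty_mv u r'' r hr'' hr)

private theorem tyComp_pushN (u : A) (r : ℕ) (hr : 2 ≤ r) : ∀ n : ℕ, Ty u none (pushN r u n) none
  | 0 => Ty.skip none
  | n + 1 => Ty.seq none none none _ _ (Ty.push none r hr) (tyComp_pushN u r hr n)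

private theorem tyComp_symP (g : Γ → A) (u : A) (a : Γ) (o : ℕ) (ho : 2 ≤ o) :
    Ty u none (symP g u a o) none := by
  classical
  refine Ty.seq none none none _ _ (Ty.loop none (o + 1) (by omega) _ ?_)
    (Ty.seq none none none _ _ ?_ (tyComp_mv10 u))
  · exact Ty.pop01 0 (by omega) _ _ none (Ty.skip none) fun b => Ty.push1 b
  · refine Ty.pop01 0 (by omega) _ _ none (Ty.skip none) fun b => ?_
    split_ifs
    · exact Ty.seq (some b) none none _ _ (Ty.push0 b) (Ty.push none o ho)
    · exact Ty.push0 b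

theorem ty_zcomp (g : Γ → A) (u : A) (t : Tm Γ) (ρ : ℕ → ℕ) (o : ℕ) (ho : 2 ≤ o)
    (hρ : ∀ i, 2 ≤ ρ i) : Ty u none (zcomp g u t ρ o) none := by
  induction t generalizing ρ o with
  | var i => exact tyComp_cp u _ _ _ (hρ i) ho le_rfl
  | const c => exact tyComp_pushN u o ho c
  | len =>
    exact Ty.seq none none none _ _ (Ty.loop01 0 (by omega) _ fun b =>
      Ty.seq (some b) none none _ _ (Ty.push1 b) (Ty.push none o ho)) (tyComp_mv10 u)
  | sym a t ih =>
    exact Ty.seq none none none _ _ (ih ρ (o + 1) (by omega) hρ) (tyComp_symP g u a o ho)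
  | add s t ihs iht =>
    exact Ty.seq none none none _ _ (ihs ρ o ho hρ) (Ty.seq none none none _ _
      (iht ρ (o + 1) (by omega) hρ) (ty_mv u _ _ (by omega) ho))
  | sub s t ihs iht =>
    exact Ty.seq none none none _ _ (ihs ρ o ho hρ) (Ty.seq none none none _ _
      (iht ρ (o + 1) (by omega) hρ) (Ty.loop none (o + 1) (by omega) _
        (Ty.pop none none o ho _ _ (Ty.skip none) (Ty.skip none))))
  | sum b t ihb iht =>
    refine Ty.seq none none none _ _ (ihb ρ (o + 1) (by omega) hρ) (Ty.loop none (o + 1) (by omega)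
      _ (Ty.seq none none none _ _ (iht _ (o + 2) (by omega) fun i => ?_)
        (ty_mv u _ _ (by omega) ho)))
    cases i
    · show 2 ≤ o + 1
      omega
    · exact hρ _
  | lett s t ihs iht =>
    refine Ty.seq none none none _ _ (ihs ρ (o + 1) (by omega) hρ) (Ty.seq none none none _ _
      (iht _ (o + 2) (by omega) fun i => ?_) (Ty.seq none none none _ _
        (ty_mv u _ _ (by omega) ho) (ty_clear u _ (by omega))))
    cases i
    · show 2 ≤ o + 1
      omega
    · exact hρ _
  | ren σ t ih => exact ih (fun i => ρ (σ i)) o ho fun i => hρ _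

end Pool.Agent.BookPL
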