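import Pool.Agent.BookPL.OfProg
import Pool.Agent.BookPL.TyComp
import Pool.Agent.PT.UF

/-!
# Languages decided by iterating functions given by terms are in POLYLOGSPACE
-/

set_option autoImplicit false

namespace Pool.Agent.BookPL

open Pool.Agent.PT

/-- Simultaneous application of `m` functions to the environment. -/
def vstep {Γ : Type} (m : ℕ) (F : ℕ → List Γ → (ℕ → ℕ) → ℕ) (x : List Γ) (e : ℕ → ℕ) : ℕ → ℕ :=
  fun j => if j < m then F j x e else 0

/-- The initial environment. -/
def e₀ : ℕ → ℕ := fun j => if j = 0 then 1 else 0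

namespace WhileP

open Function (update)

variable {Γ : Type} (m : ℕ) (τ : ℕ → Tm Γ)

/-- the registers of the variables -/
def rho (i : ℕ) : ℕ := 4 + min i m

/-- evaluating the first `j` terms -/
noncomputable def evalP : ℕ → Prog (Option Γ)
  | 0 => Prog.skip
  | j + 1 => Prog.seq (evalP j) (zcomp some none (τ j) (rho m) (5 + m + j))

/-- copying back -/
def wbP : ℕ → Prog (Option Γ)
  | 0 => Prog.skip
  | j + 1 => Prog.seq (wbP j) (Prog.seq (clear (4 + j)) (mv (5 + m + j) (4 + j)))

/-- testing the entry `0` -/
def testP : Prog (Option Γ) :=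
  Prog.pop 4 Prog.skip (fun _ => Prog.seq (Prog.push 4 none) (Prog.push 3 none))

/-- the body of the loop -/
noncomputable def bodyP : Prog (Option Γ) :=
  Prog.seq (evalP m τ m) (Prog.seq (wbP m m) testP)

/-- the program -/
noncomputable def prog : Prog (Option Γ) :=
  Prog.seq (Prog.push 4 none) (Prog.seq (Prog.push 3 none) (Prog.loop 3 (fun _ => bodyP m τ)))

theorem ty_evalP : ∀ j, Ty (none : Option Γ) none (evalP m τ j) none
  | 0 => Ty.skip _
  | j + 1 => Ty.seq _ _ _ _ _ (ty_evalP j) (ty_zcomp _ _ _ _ _ (by omega) fun i => by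
      unfold rho; omega)

theorem ty_wbP : ∀ j, Ty (none : Option Γ) none (wbP m j) none
  | 0 => Ty.skip _
  | j + 1 => Ty.seq _ _ _ _ _ (ty_wbP j) (Ty.seq _ _ _ _ _ (ty_clear _ _ (by omega))
      (ty_mv _ _ _ (by omega) (by omega)))

theorem ty_prog : Ty (none : Option Γ) none (prog m τ) none := by
  refine Ty.seq _ _ _ _ _ (Ty.push _ _ (by omega)) (Ty.seq _ _ _ _ _ (Ty.push _ _ (by omega))
    (Ty.loop _ _ (by omega) _ ?_))
  refine Ty.seq _ _ _ _ _ (ty_evalP m τ m) (Ty.seq _ _ _ _ _ (ty_wbP m m) ?_)
  exact Ty.pop _ _ _ (by omega) _ _ (Ty.skip _)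
    (Ty.seq _ _ _ _ _ (Ty.push _ _ (by omega)) (Ty.push _ _ (by omega)))

/-- the stores -/
def st (x : List Γ) (e : ℕ → ℕ) (c : ℕ) : Store (Option Γ) := fun r =>
  if r = 0 then x.map some
  else if r = 3 then un none c
  else if 4 ≤ r ∧ r < 4 + m then un none (e (r - 4))
  else []

/-- the stores after evaluating some terms -/
def stE (x : List Γ) (e e' : ℕ → ℕ) (c j : ℕ) : Store (Option Γ) := fun r =>
  if 5 + m ≤ r ∧ r < 5 + m + j then un none (e' (r - (5 + m))) else st m x e c r

/-- the stores after copying back some values -/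
def stW (x : List Γ) (e e' : ℕ → ℕ) (c j : ℕ) : Store (Option Γ) := fun r =>
  if 4 ≤ r ∧ r < 4 + j then un none (e' (r - 4))
  else if 5 + m ≤ r ∧ r < 5 + m + j then [] else stE m x e e' c m r

theorem zgood (x : List Γ) (e e' : ℕ → ℕ) (c j : ℕ) (he : ∀ i, m ≤ i → e i = 0) :
    ZGood some none x e (rho m) (5 + m + j) (stE m x e e' c j) := by
  refine ⟨⟨?_, ?_, ?_, fun i => ?_, fun i => ?_, fun i => ?_⟩, fun i hi => ?_⟩
  · simp [stE, st]
  · unfold stE st
    rw [if_neg (by omega), if_neg (by omega), if_neg (by omega), if_neg (by omega)]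
  · unfold stE st
    rw [if_neg (by omega), if_neg (by omega), if_neg (by omega), if_neg (by omega)]
  · unfold rho; omega
  · unfold rho; omega
  · unfold rho stE
    rw [if_neg (by omega)]
    unfold st
    rw [if_neg (by omega), if_neg (by omega)]
    rcases lt_or_ge i m with h | h
    · rw [min_eq_left h.le, if_pos (by omega), Nat.add_sub_cancel_left]
    · rw [min_eq_right h, if_neg (by omega), he i h]
      rfl
  · unfold stE
    rw [if_neg (by omega)]
    unfold st
    rw [if_neg (by omega), if_neg (by omega), if_neg (by omega)]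

theorem runs_evalP (T : ℕ → ℕ → ℕ) (hT : ∀ j, ZSpec (some : Γ → Option Γ) none (τ j) (T j))
    (N : ℕ) (x : List Γ) (e e' : ℕ → ℕ) (c : ℕ) (hx : x.length ≤ N) (he : ∀ i, e i ≤ N)
    (he0 : ∀ i, m ≤ i → e i = 0) (he' : ∀ j < m, e' j = (τ j).eval x e) :
    ∀ j ≤ m, Runs (evalP m τ j) (st m x e c) (stE m x e e' c j)
      ((∑ i ∈ Finset.range j, T i N) + 1)
  | 0, _ => by
    refine (Runs.skip _).conv ?_ (by simp)
    funext r
    unfold stE
    rw [if_neg (by omega)]
  | j + 1, hj => by
    have h1 := runs_evalP T hT N x e e' c hx he he0 he' j (by omega)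
    have h2 := (hT j).run N x e (rho m) (5 + m + j) _ hx he (zgood m x e e' c j he0)
    refine (h1.seq h2).conv ?_ ?_
    · funext r
      by_cases hr : r = 5 + m + j
      · subst hr
        rw [Function.update_self]
        unfold stE
        rw [if_pos (by omega), Nat.add_sub_cancel_left, he' j (by omega)]
      · rw [Function.update_of_ne hr]
        unfold stE
        by_cases h3 : 5 + m ≤ r ∧ r < 5 + m + j
        · rw [if_pos h3, if_pos (by omega)]
        · rw [if_neg h3, if_neg (by omega)]
    · rw [Finset.sum_range_succ]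
      omega

theorem runs_wbP (N : ℕ) (x : List Γ) (e e' : ℕ → ℕ) (c : ℕ) (he : ∀ i, e i ≤ N)
    (he' : ∀ i < m, e' i ≤ N) :
    ∀ j ≤ m, Runs (wbP m j) (stE m x e e' c m) (stW m x e e' c j) (j * (4 * N + 2) + 1)
  | 0, _ => by
    refine (Runs.skip _).conv ?_ (by simp)
    funext r
    unfold stW
    rw [if_neg (by omega), if_neg (by omega)]
  | j + 1, hj => by
    have h1 := runs_wbP N x e e' c he he' j (by omega)
    have e1 : stW m x e e' c j (4 + j) = un none (e j) := by
      unfold stW stE st
      rw [if_neg (by omega), if_neg (by omega), if_neg (by omega), if_neg (by omega),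
        if_neg (by omega), if_pos (by omega), Nat.add_sub_cancel_left]
    have h2 := runs_clear (4 + j) (un none (e j)) (stW m x e e' c j) e1
    have e2 : update (stW m x e e' c j) (4 + j) [] (5 + m + j) = un none (e' j) := by
      rw [Function.update_of_ne (by omega)]
      unfold stW stE
      rw [if_neg (by omega), if_neg (by omega), if_pos (by omega), Nat.add_sub_cancel_left]
    have h3 := runs_mv (5 + m + j) (4 + j) (by omega) (un none (e' j))
      (update (stW m x e e' c j) (4 + j) []) e2
    refine (h1.seq (h2.seq h3)).conv ?_ ?_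
    · funext r
      by_cases hr : r = 4 + j
      · subst hr
        rw [Function.update_self, Function.update_self]
        unfold stW
        rw [if_pos (by omega), Nat.add_sub_cancel_left]
        simp
      · rw [Function.update_of_ne hr]
        by_cases hr2 : r = 5 + m + j
        · subst hr2
          rw [Function.update_self]
          unfold stW
          rw [if_neg (by omega), if_pos (by omega)]
        · rw [Function.update_of_ne hr2, Function.update_of_ne hr]
          unfold stW
          by_cases h4 : 4 ≤ r ∧ r < 4 + j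
          · rw [if_pos h4, if_pos (by omega)]
          · rw [if_neg h4, if_neg (c := 4 ≤ r ∧ r < 4 + (j + 1)) (by omega)]
            by_cases h5 : 5 + m ≤ r ∧ r < 5 + m + j
            · rw [if_pos h5, if_pos (by omega)]
            · rw [if_neg h5, if_neg (by omega)]
    · have := he j
      have := he' j (by omega)
      simp only [un_length]
      have e3 : (j + 1) * (4 * N + 2) = j * (4 * N + 2) + (4 * N + 2) := by ring
      omega

theorem stW_last (x : List Γ) (e e' : ℕ → ℕ) (c : ℕ) :
    stW m x e e' c m = st m x e' c := by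
  funext r
  unfold stW
  by_cases h1 : 4 ≤ r ∧ r < 4 + m
  · rw [if_pos h1]
    unfold st
    rw [if_neg (by omega), if_neg (by omega), if_pos h1]
  · rw [if_neg h1]
    by_cases h2 : 5 + m ≤ r ∧ r < 5 + m + m
    · rw [if_pos h2]
      unfold st
      rw [if_neg (by omega), if_neg (by omega), if_neg (by omega)]
    · rw [if_neg h2]
      unfold stE
      rw [if_neg h2]
      unfold st
      rw [if_neg h1, if_neg h1]

theorem runs_testP (hm : 2 ≤ m) (x : List Γ) (e : ℕ → ℕ) (c : ℕ) :
    Runs testP (st m x e c) (st m x e (if e 0 = 0 then c else c + 1)) 3 := by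
  have h4 : st m x e c 4 = un none (e 0) := by
    unfold st
    rw [if_neg (by omega), if_neg (by omega), if_pos (by omega)]
  by_cases h0 : e 0 = 0
  · rw [if_pos h0]
    rw [h0] at h4
    exact (Runs.popNil h4 (Runs.skip _)).mono (by omega)
  · rw [if_neg h0]
    obtain ⟨k, hk⟩ := Nat.exists_eq_succ_of_ne_zero h0
    rw [hk] at h4
    refine (Runs.popCons (p₀ := Prog.skip)
      (p₁ := fun _ => Prog.seq (Prog.push 4 none) (Prog.push 3 none)) h4
      ((Runs.push 4 none _).seq (Runs.push 3 none _))).conv ?_ (by omega)
    funext r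
    by_cases hr : r = 3
    · subst hr
      simp [st, un_succ]
    · rw [Function.update_of_ne hr]
      by_cases hr4 : r = 4
      · subst hr4
        rw [Function.update_self, Function.update_self]
        unfold st
        rw [if_neg (by omega), if_neg (by omega), if_pos (by omega), hk]
        rfl
      · rw [Function.update_of_ne hr4, Function.update_of_ne hr4]
        unfold st
        rw [if_neg hr, if_neg hr]

end WhileP

open WhileP in
/-- If the iteration of a vector of functions given by terms, started from `(1, 0, 0, ...)`, stops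
(i.e. the entry `0` becomes zero) after quasi-polynomially many steps with quasi-polynomial values,
then the language of the words `x` for which the entry `1` is then not zero is in POLYLOGSPACE. -/
theorem inPL_of_while {Γ : Type} [Fintype Γ] (m : ℕ) (hm : 2 ≤ m)
    (F : ℕ → List Γ → (ℕ → ℕ) → ℕ) (hF : ∀ j, UF (F j)) (L : Set (List Γ)) (bd : ℕ → ℕ)
    (hbd : QB bd)
    (h : ∀ x : List Γ, ∃ s ≤ bd x.length, (∀ i < s, (vstep m F x)^[i] e₀ 0 ≠ 0) ∧
      (vstep m F x)^[s] e₀ 0 = 0 ∧ (∀ i ≤ s, ∀ j, (vstep m F x)^[i] e₀ j ≤ bd x.length) ∧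
      (x ∈ L ↔ (vstep m F x)^[s] e₀ 1 ≠ 0)) : InPL Γ L := by
  choose τ hτ using hF
  choose T hT using fun j => exists_zspec (some : Γ → Option Γ) (Option.some_injective _) none (τ j)
  set TT : ℕ → ℕ := fun N => ∑ i ∈ Finset.range m, T i N with hTT
  have hPT : PB TT := by
    have key : ∀ j, PB (fun N => ∑ i ∈ Finset.range j, T i N) := by
      intro j
      induction j with
      | zero => simpa using PB.const 0
      | succ j ih =>
        have := ih.add (hT j).pb
        refine (funext fun N => ?_ : (fun N => ∑ i ∈ Finset.range (j + 1), T i N) =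
          fun N => (∑ i ∈ Finset.range j, T i N) + T j N) ▸ this
        rw [Finset.sum_range_succ]
    exact key m
  set C : ℕ → ℕ := fun N => (TT N + 1) + ((m * (4 * N + 2) + 1) + 3) with hC
  have hPC : PB C := (hPT.add (PB.const 1)).add
    ((((PB.const m).mul (((PB.const 4).mul PB.id).add (PB.const 2))).add (PB.const 1)).add
      (PB.const 3))
  have hQN : QB (fun n => n + bd n) := QB.id.add hbd
  have hQ : QB (fun n => 1 + (1 + (bd n * (C (n + bd n) + 1) + 1))) :=
    (QB.const 1).add ((QB.const 1).add ((hbd.mul ((hQN.comp_pb hPC).add (QB.const 1))).add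
      (QB.const 1)))
  refine inPL_of_prog (some : Γ → Option Γ) none (prog m τ) (ty_prog m τ) 5 (by omega) _ hQ
    fun x => ?_
  obtain ⟨s, hs, h1, h2, h3, h4⟩ := h x
  set N := x.length + bd x.length with hN
  have hz : ∀ i, i ≤ s → ∀ j, m ≤ j → (vstep m F x)^[i] e₀ j = 0 := by
    intro i _ j hj
    rcases i with _ | i
    · simp only [Function.iterate_zero, id_eq, e₀]
      rw [if_neg (by omega)]
    · rw [Function.iterate_succ_apply']
      simp only [vstep]
      rw [if_neg (by omega)]
  have hbody : ∀ i < s, Runs (bodyP m τ) (st m x ((vstep m F x)^[i] e₀) 0)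
      (st m x ((vstep m F x)^[i + 1] e₀)
        (if (vstep m F x)^[i + 1] e₀ 0 = 0 then 0 else 0 + 1)) (C N) := by
    intro i hi
    have hle : ∀ j, (vstep m F x)^[i] e₀ j ≤ N := fun j => (h3 i hi.le j).trans (by omega)
    have hle' : ∀ j < m, (vstep m F x)^[i + 1] e₀ j ≤ N := fun j _ =>
      (h3 (i + 1) hi j).trans (by omega)
    have r1 := runs_evalP m τ T hT N x ((vstep m F x)^[i] e₀) ((vstep m F x)^[i + 1] e₀) 0
      (by omega) hle (hz i hi.le) (fun j hj => by
        rw [Function.iterate_succ_apply']
        simp only [vstep]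
        rw [if_pos hj, hτ]) m le_rfl
    have r2 := runs_wbP m N x ((vstep m F x)^[i] e₀) ((vstep m F x)^[i + 1] e₀) 0 hle hle' m
      le_rfl
    rw [stW_last] at r2
    have r3 := runs_testP m hm x ((vstep m F x)^[i + 1] e₀) 0
    exact r1.seq (r2.seq r3)
  have hloop : ∀ k ≤ s, Runs (Prog.loop 3 (fun _ => bodyP m τ))
      (st m x ((vstep m F x)^[s - k] e₀) (if (vstep m F x)^[s - k] e₀ 0 = 0 then 0 else 0 + 1))
      (st m x ((vstep m F x)^[s] e₀) 0) (k * (C N + 1) + 1) := by
    intro k
    induction k with
    | zero =>
      intro _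
      rw [Nat.sub_zero, if_pos h2]
      exact (Runs.loopNil (by simp [st])).mono (by omega)
    | succ k ih =>
      intro hk
      have h5 := h1 (s - (k + 1)) (by omega)
      rw [if_neg h5]
      have h6 := hbody (s - (k + 1)) (by omega)
      have e1 : s - (k + 1) + 1 = s - k := by omega
      rw [e1] at h6
      have h7 : st m x ((vstep m F x)^[s - (k + 1)] e₀) (0 + 1) 3 = none :: [] := by
        simp [st, un_succ]
      have e2 : Function.update (st m x ((vstep m F x)^[s - (k + 1)] e₀) (0 + 1)) 3 [] =
          st m x ((vstep m F x)^[s - (k + 1)] e₀) 0 := by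
        funext r
        by_cases hr : r = 3
        · subst hr; simp [st]
        · rw [Function.update_of_ne hr]
          unfold st
          rw [if_neg hr, if_neg hr]
      rw [← e2] at h6
      refine (Runs.loopCons (p := fun _ => bodyP m τ) h7 h6 (ih (by omega))).mono ?_
      have : (k + 1) * (C N + 1) = k * (C N + 1) + (C N + 1) := by ring
      omega
  refine ⟨st m x ((vstep m F x)^[s] e₀) 0, ?_, ?_⟩
  · have h8 := hloop s le_rfl
    rw [Nat.sub_self, Function.iterate_zero, id_eq] at h8
    have e3 : (if e₀ 0 = 0 then 0 else 0 + 1) = 1 := by simp [e₀]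
    rw [e3] at h8
    have e4 : Function.update (Function.update (single 0 (x.map some)) 4
        (none :: single 0 (x.map some) 4)) 3
        (none :: Function.update (single 0 (x.map some)) 4
        (none :: single 0 (x.map some) 4) 3) = st m x e₀ 1 := by
      funext r
      by_cases hr3 : r = 3
      · subst hr3
        simp [st, single, un_succ]
      · rw [Function.update_of_ne hr3]
        by_cases hr4 : r = 4
        · subst hr4
          rw [Function.update_self]
          unfold st
          rw [if_neg (by omega), if_neg (by omega), if_pos (by omega)]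
          simp [single, e₀, un_succ]
        · rw [Function.update_of_ne hr4]
          by_cases hr0 : r = 0
          · subst hr0; simp [st, single]
          · unfold st
            rw [if_neg hr0, if_neg hr3]
            simp only [single, Function.update_of_ne hr0]
            split_ifs with h9
            · rw [e₀, if_neg (by omega)]
              rfl
            · rfl
    have h9 := (Runs.push 4 (none : Option Γ) (single 0 (x.map some))).seq
      ((Runs.push 3 (none : Option Γ) _).seq (e4 ▸ h8))
    refine h9.mono ?_
    have := Nat.mul_le_mul_right (C N + 1) hs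
    omega
  · rw [h4]
    unfold st
    rw [if_neg (by omega), if_neg (by omega), if_pos (by omega)]
    change _ ↔ un none ((vstep m F x)^[s] e₀ 1) ≠ []
    rw [← List.length_pos_iff, un_length]
    omega

end Pool.Agent.BookPL
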