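import Pool.Agent.BookPL.Defs
import Pool.Agent.Book19.Core2

/-!
# The choice of the lengths
-/

set_option autoImplicit false

namespace Pool.Agent.BookPL

open Filter Topology Pool.Agent.Book19

private theorem choose_pow_lt (k : ℕ) : ∀ᶠ n : ℕ in atTop, n ^ k < 2 ^ n := by
  have h := tendsto_pow_const_div_const_pow_of_one_lt k (r := (2 : ℝ)) (by norm_num)
  have h1 : ∀ᶠ n : ℕ in atTop, (n : ℝ) ^ k / 2 ^ n < 1 := h.eventually (gt_mem_nhds one_pos)
  filter_upwards [h1] with n hn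
  rw [div_lt_one (by positivity)] at hn
  exact_mod_cast hn

private theorem choose_key {l s : ℕ → ℕ} {c n₀ K : ℕ}
    (hK1 : ∀ N, K ≤ N → l N ^ (c + 2) ≤ N) (hK2 : ∀ N, K ≤ N → s N ^ (2 * (c + 2)) ≤ N)
    (hK3 : ∀ n, K ≤ n → n ^ (c + 2) < 2 ^ n) (hK4 : ∀ n, K ≤ n → c + 2 ≤ Nat.log 2 n)
    (hK5 : n₀ ≤ K) (hK6 : 3 ≤ K) {n N : ℕ} (hn : K ≤ n) (h1 : n ^ (c + 1) ≤ N)
    (h2 : N ≤ n ^ (c + 2)) :
    n₀ ≤ n ∧ n ^ c ≤ N ∧ n ≤ N ∧ N - n < 2 ^ n ∧
      Nat.log 2 (N - n) < (Nat.log 2 n + 2) ^ 2 ∧ l N ≤ n ∧ s N + 1 < n := by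
  have hn1 : 1 ≤ n := by omega
  have hnN : n ≤ N := (Nat.le_self_pow (by omega) n).trans h1
  have hKN : K ≤ N := hn.trans hnN
  refine ⟨hK5.trans hn, (Nat.pow_le_pow_right hn1 (by omega)).trans h1, hnN, ?_, ?_, ?_, ?_⟩
  · exact lt_of_le_of_lt ((Nat.sub_le _ _).trans h2) (hK3 n hn)
  · have h3 : Nat.log 2 (N - n) ≤ Nat.log 2 (n ^ (c + 2)) :=
      Nat.log_mono_right ((Nat.sub_le _ _).trans h2)
    have h4 : n ^ (c + 2) < 2 ^ ((Nat.log 2 n + 1) * (c + 2)) := by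
      rw [pow_mul]
      exact Nat.pow_lt_pow_left (Nat.lt_pow_succ_log_self (by norm_num) n) (by omega)
    have h5 : Nat.log 2 (n ^ (c + 2)) < (Nat.log 2 n + 1) * (c + 2) :=
      Nat.log_lt_of_lt_pow (by positivity) h4
    have h6 := hK4 n hn
    nlinarith
  · have h3 := (hK1 N hKN).trans h2
    exact (Nat.pow_le_pow_iff_left (by omega)).1 h3
  · have h3 := (hK2 N hKN).trans h2
    rw [pow_mul] at h3
    have h4 : s N ^ 2 ≤ n := (Nat.pow_le_pow_iff_left (by omega)).1 h3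
    rcases Nat.lt_or_ge (s N) 2 with h5 | h5
    · omega
    · nlinarith

theorem choose_lengths {i j : Bool} (hij : i = false ∨ j = false) {P Q : ℕ → Prop}
    (hP : Often i P) (hQ : Often j Q) {l s : ℕ → ℕ} (hl : SubPoly l) (hs : SubPoly s)
    (c n₀ : ℕ) :
    ∃ n N, P N ∧ Q n ∧ n₀ ≤ n ∧ n ^ c ≤ N ∧ n ≤ N ∧ N - n < 2 ^ n ∧
      Nat.log 2 (N - n) < (Nat.log 2 n + 2) ^ 2 ∧ l N ≤ n ∧ s N + 1 < n := by
  obtain ⟨K1, hK1⟩ := eventually_atTop.1 (hl (c + 2))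
  obtain ⟨K2, hK2⟩ := eventually_atTop.1 (hs (2 * (c + 2)))
  obtain ⟨K3, hK3⟩ := eventually_atTop.1 (choose_pow_lt (c + 2))
  set K := max (max (max K1 K2) (max K3 (2 ^ (c + 2)))) (max n₀ 3) with hK
  have f1 : K1 ≤ K := by omega
  have f2 : K2 ≤ K := by omega
  have f3 : K3 ≤ K := by omega
  have f4 : 2 ^ (c + 2) ≤ K := by omega
  have f5 : n₀ ≤ K := by omega
  have f6 : 3 ≤ K := by omega
  have hK4 : ∀ n, K ≤ n → c + 2 ≤ Nat.log 2 n := fun n hn =>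
    (Nat.le_log_iff_pow_le (by norm_num) (by omega)).2 (f4.trans hn)
  have key : ∀ n N, K ≤ n → n ^ (c + 1) ≤ N → N ≤ n ^ (c + 2) → _ := fun n N =>
    choose_key (l := l) (s := s) (c := c) (n₀ := n₀) (fun N hN => hK1 N (f1.trans hN))
      (fun N hN => hK2 N (f2.trans hN)) (fun n hn => hK3 n (f3.trans hn)) hK4 f5 f6
  have hfreq : ∀ {i : Bool} {P : ℕ → Prop}, Often i P → ∃ᶠ n in atTop, P n := by
    intro i P h
    cases i with
    | true => exact h.1 rfl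
    | false => exact (h.2 rfl).frequently
  rcases hij with hi | hj
  · obtain ⟨K', hK'⟩ := eventually_atTop.1 (hP.2 hi)
    obtain ⟨n, hn, hQn⟩ := frequently_atTop.1 (hfreq hQ) (max K K')
    have g1 : K ≤ n := by omega
    have g2 : K' ≤ n := by omega
    have hn1 : 1 ≤ n := by omega
    refine ⟨n, n ^ (c + 1), hK' _ (g2.trans (Nat.le_self_pow (by omega) n)), hQn,
      key n _ g1 le_rfl (Nat.pow_le_pow_right hn1 (by omega))⟩
  · obtain ⟨K', hK'⟩ := eventually_atTop.1 (hQ.2 hj)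
    set b := max K K' with hb
    obtain ⟨N, hN, hPN⟩ := frequently_atTop.1 (hfreq hP) (b ^ (c + 1))
    have hb1 : b ≤ N := (Nat.le_self_pow (by omega) b).trans hN
    set n := Nat.findGreatest (fun n => n ^ (c + 1) ≤ N) N with hn
    have hbn : b ≤ n := Nat.le_findGreatest hb1 hN
    have h1 : n ^ (c + 1) ≤ N :=
      Nat.findGreatest_spec (P := fun n => n ^ (c + 1) ≤ N) hb1 hN
    have hKn : K ≤ n := by omega
    have h2 : N ≤ n ^ (c + 2) := by
      have h3 : N < (n + 1) ^ (c + 1) := by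
        by_contra h4
        have h5 : (n + 1) ^ (c + 1) ≤ N := not_lt.1 h4
        have h6 : n + 1 ≤ N := (Nat.le_self_pow (by omega) _).trans h5
        have h7 : n + 1 ≤ n := Nat.le_findGreatest h6 h5
        omega
      have h4 : (n + 1) ^ (c + 1) ≤ (2 * n) ^ (c + 1) := Nat.pow_le_pow_left (by omega) _
      have h5 : (2 * n) ^ (c + 1) ≤ n ^ (c + 2) := by
        rw [mul_pow, pow_succ n (c + 1), Nat.mul_comm]
        apply Nat.mul_le_mul_left
        have : 2 ^ (c + 1) ≤ 2 ^ (c + 2) := Nat.pow_le_pow_right (by norm_num) (by omega)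
        omega
      omega
    exact ⟨n, N, hPN, hK' n (by omega), key n N hKn h1 h2⟩

end Pool.Agent.BookPL
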