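import Pool.Agent.BookPL.Letters

/-!
# Words with given tracks
-/

set_option autoImplicit false

namespace Pool.Agent.BookPL

open Pool.Agent.Book19

/-- The word of length `n` with given tracks. -/
def mkU (tb : ℕ → Fin 10 → Bool) (n D : ℕ) (F : Fin n → Bool) (v κ : List Bool) : List Sg :=
  List.ofFn fun p : Fin n => ⟨tb p, D.testBit p, F p, v[(p : ℕ)]?, κ[(p : ℕ)]?⟩

theorem length_mkU (tb : ℕ → Fin 10 → Bool) (n D : ℕ) (F : Fin n → Bool) (v κ : List Bool) :
    (mkU tb n D F v κ).length = n := by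
  simp [mkU]

theorem mkU_get (tb : ℕ → Fin 10 → Bool) (n D : ℕ) (F : Fin n → Bool) (v κ : List Bool) (p : ℕ)
    (a : Sg) (h : (mkU tb n D F v κ)[p]? = some a) :
    a.cd = tb p ∧ a.d = D.testBit p ∧ a.v = v[p]? ∧ a.κ = κ[p]? := by
  unfold mkU at h
  rw [List.getElem?_ofFn] at h
  split_ifs at h with hp
  simp only [Option.some.injEq] at h
  subst h
  exact ⟨rfl, rfl, rfl, rfl⟩

private theorem Count.mkU_inj (tb : ℕ → Fin 10 → Bool) (n D : ℕ) (v κ : List Bool) :
    Function.Injective (fun F : Fin n → Bool => mkU tb n D F v κ) := by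
  intro F F' h
  have h1 := List.ofFn_injective h
  funext p
  have h2 := congrFun h1 p
  exact congrArg Sg.f h2

private theorem Count.padTo_inj (u u' : List Sg) (N : ℕ) (hl : u.length = u'.length)
    (h : padTo u N = padTo u' N) : u = u' := by
  unfold padTo at h
  have h1 := (List.append_inj h (by simp [hl])).1
  exact List.map_injective_iff.2 (Option.some_injective _) h1

/-- If two sets of words have few elements, then some choice of the free track avoids both. -/
theorem exists_free (tb : ℕ → Fin 10 → Bool) (n D : ℕ) (v κ : List Bool) (N s : ℕ) (hs : s + 1 < n)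
    (E₁ : Set (List Sg)) (E₂ : Set (List (Option Sg))) (h₁ : E₁.encard ≤ 2 ^ (n - 1))
    (h₂ : E₂.encard ≤ 2 ^ s) :
    ∃ F : Fin n → Bool, mkU tb n D F v κ ∉ E₁ ∧ padTo (mkU tb n D F v κ) N ∉ E₂ := by
  classical
  by_contra hcon
  push Not at hcon
  set f₁ : (Fin n → Bool) → List Sg := fun F => mkU tb n D F v κ with hf₁
  set f₂ : (Fin n → Bool) → List (Option Sg) := fun F => padTo (mkU tb n D F v κ) N with hf₂
  have i₁ : Function.Injective f₁ := Count.mkU_inj tb n D v κ
  have i₂ : Function.Injective f₂ := by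
    intro F F' h
    apply i₁
    exact Count.padTo_inj _ _ N (by rw [length_mkU, length_mkU]) h
  have hcov : (Set.univ : Set (Fin n → Bool)) ⊆ f₁ ⁻¹' E₁ ∪ f₂ ⁻¹' E₂ := by
    intro F _
    by_cases h : f₁ F ∈ E₁
    · exact Or.inl h
    · exact Or.inr (hcon F h)
  have b₁ : (f₁ ⁻¹' E₁).encard ≤ E₁.encard :=
    Set.encard_le_encard_of_injOn (f := f₁) (fun F hF => hF) i₁.injOn
  have b₂ : (f₂ ⁻¹' E₂).encard ≤ E₂.encard :=
    Set.encard_le_encard_of_injOn (f := f₂) (fun F hF => hF) i₂.injOn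
  have hcard : (Set.univ : Set (Fin n → Bool)).encard = ((2 ^ n : ℕ) : ℕ∞) := by
    rw [Set.encard_univ, ENat.card_eq_coe_fintype_card]
    simp
  have h3 : ((2 ^ n : ℕ) : ℕ∞) ≤ ((2 ^ (n - 1) + 2 ^ s : ℕ) : ℕ∞) := by
    rw [← hcard]
    refine (Set.encard_le_encard hcov).trans ((Set.encard_union_le _ _).trans ?_)
    push_cast
    exact add_le_add (b₁.trans h₁) (b₂.trans h₂)
  have h4 : 2 ^ n ≤ 2 ^ (n - 1) + 2 ^ s := by exact_mod_cast h3
  have h5 : 2 ^ s < 2 ^ (n - 1) := Nat.pow_lt_pow_right (by norm_num) (by omega)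
  have h6 : 2 ^ n = 2 ^ (n - 1) + 2 ^ (n - 1) := by
    rw [← two_mul, ← pow_succ']
    congr 1
    omega
  omega

end Pool.Agent.BookPL
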