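import Pool.Agent.BookPL.Pad
import Pool.Agent.BookPL.Log2
import Pool.Agent.Book19.Letter

/-!
# The letters of the padded word are given by terms
-/

set_option autoImplicit false

namespace Pool.Agent.BookPL

open Pool.Agent.PT Pool.Agent.Book19

private theorem PadUP.stop : UP (fun u e => StopAt u (e 0)) := by
  have h1 : UP (fun (u : List Sg) e => ∀ j, j < u.length →
      (u[j]?.map Sg.d = some true ↔ (e 0).testBit j = true)) := by
    refine UP.ball (P := fun u e j => (u[j]?.map Sg.d = some true ↔ (e 0).testBit j = true))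
      UF.len ?_
    refine UP.iff ?_ (UP.testBit (UF.var 1) (UF.var 0))
    refine (UP.at' (fun g : Sg => g.d = true) (UF.var 0)).congr fun u e => ?_
    unfold At
    rw [Option.map_eq_some_iff]
  have h2 : UP (fun (u : List Sg) e =>
      (Nat.log 2 u.length + 2) ^ 2 ≤ Nat.log 2 (e 0)) := by
    have h3 : UF (fun (u : List Sg) _ => Nat.log 2 u.length + 2) :=
      (UF.log2 UF.len).add (UF.const 2)
    exact (UP.le (h3.mul h3) (UF.log2 (UF.var 0))).congr fun u e => by rw [sq]
  exact (h1.or h2).congr fun u e => Iff.rfl

theorem up_Zw (a : Option Sg × Option Bool) : UP (fun u e => (Zw u)[e 0]? = some a) := by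
  classical
  have h1 : UP (fun (u : List Sg) e => ∃ g : Sg, u[e 0]? = some g ∧ (some g, g.κ) = a) :=
    UP.fex fun g => (UP.sym g (UF.var 0)).and (UP.const _)
  have h2 : UP (fun (u : List Sg) e => ∀ i, i < e 0 - u.length + 1 → ¬ StopAt u i) :=
    UP.ball (P := fun u e i => ¬ StopAt u i)
      (((UF.var 0).sub UF.len).add (UF.const 1)) PadUP.stop.not
  have h3 : UP (fun (u : List Sg) e => u.length ≤ e 0 ∧ ((none, none) = a ∧
      ∀ i, i < e 0 - u.length + 1 → ¬ StopAt u i)) :=
    (UP.le UF.len (UF.var 0)).and ((UP.const _).and h2)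
  refine (h1.or h3).congr fun u e => ?_
  unfold Zw
  by_cases h : e 0 < u.length
  · rw [List.getElem?_append_left (by simpa using h), List.getElem?_map,
      Option.map_eq_some_iff]
    constructor
    · rintro (h4 | ⟨h4, -⟩)
      · exact h4
      · omega
    · intro h4
      exact Or.inl h4
  · have h' : u.length ≤ e 0 := not_lt.1 h
    rw [List.getElem?_append_right (by simpa using h'), List.length_map,
      List.getElem?_replicate]
    have h5 : u[e 0]? = none := List.getElem?_eq_none h'
    have h6 : e 0 - u.length < Dn u ↔ ∀ i, i < e 0 - u.length + 1 → ¬ StopAt u i := by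
      unfold Dn
      rw [Nat.lt_find_iff]
      constructor
      · intro h7 i hi
        exact h7 i (by omega)
      · intro h7 i hi
        exact h7 i (by omega)
    constructor
    · rintro (⟨g, h4, -⟩ | ⟨-, h4, h7⟩)
      · rw [h5] at h4
        exact absurd h4 (by simp)
      · rw [if_pos (h6.2 h7), h4]
    · intro h4
      split_ifs at h4 with h7
      exact Or.inr ⟨h', Option.some.inj h4, h6.1 h7⟩

end Pool.Agent.BookPL
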