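import Pool.Agent.BookPL.Univ
import Pool.Agent.BookPL.PadUP
import Pool.Agent.BookPL.Comap
import Pool.Agent.BookPL.Choose
import Pool.Agent.BookPL.Count

/-!
# The diagonal argument
-/

set_option autoImplicit false

namespace Pool.Agent.BookPL

open Filter Topology Pool.Agent.PT Pool.Agent.Book19

theorem inPL_diag {L : Set (List (Option Sg × Option Bool))} (h : InPL _ L) :
    InPL Sg {u | Zw u ∉ L} := by
  have h1 : InPL Sg {u | Zw u ∈ L} := by
    refine h.comap Zw (fun n => n + 2 ^ ((Nat.log 2 n + 2) ^ 2)) (QB.id.add (QB.two_pow 2))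
      (fun u => ?_) up_Zw
    simp only [Zw, List.length_append, List.length_map, List.length_replicate]
    have := Dn_le u
    omega
  exact h1.compl

theorem core (𝒟 : ∀ A : Type, Set (List A) → Prop) (h𝒟 : 𝒟 = InP ∨ 𝒟 = InNPc) (i j : Bool)
    (hij : i = false ∨ j = false) : ¬ (SubHeurSub i 𝒟 InPL ∧ SubHeurLin j InPL 𝒟) := by
  rintro ⟨h1, h2⟩
  obtain ⟨U, hU, huniv⟩ := exists_univ 𝒟 h𝒟
  obtain ⟨L', κ, s, hL', hκ, hs, hgood⟩ := h1 _ U hU
  obtain ⟨V, v, hV, hgood2⟩ := h2 _ _ (inPL_diag hL')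
  obtain ⟨tb, c, n₀, htb⟩ := huniv V hV
  obtain ⟨n, N, hN, hn, hn0, hnc, hnN, hD, hlog, hκN, hsN⟩ :=
    choose_lengths hij hgood hgood2 hκ hs c n₀
  obtain ⟨F, hF1, hF2⟩ := exists_free tb n (N - n) (v n) (κ N) N (s N) hsN _ _ hn hN
  set u := mkU tb n (N - n) F (v n) (κ N) with hu
  have hul : u.length = n := length_mkU _ _ _ _ _ _
  have hget := mkU_get tb n (N - n) F (v n) (κ N)
  rw [← hu] at hget
  have hDn : Dn u = N - n := by
    refine Dn_eq u _ (fun j hj => ?_) (by rw [hul]; exact hD) (by rw [hul]; exact hlog)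
    obtain ⟨a, ha⟩ : ∃ a, u[j]? = some a := ⟨_, List.getElem?_eq_getElem hj⟩
    have := (hget j a ha).2.1
    rw [ha]
    simp [this]
  have hpl : (padTo u N).length = N := by
    simp only [padTo, List.length_append, List.length_map, List.length_replicate, hul]
    omega
  have e1 : u ∈ {u | Zw u ∉ L'} ↔ wv u ∈ V := by
    have h3 : ¬ (u.length = n ∧ ¬ (u ∈ {u | Zw u ∉ L'} ↔ trk u (v n) ∈ V)) := hF1
    rw [trk_wv u (v n) fun p a ha => (hget p a ha).2.2.1] at h3
    by_contra hcon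
    exact h3 ⟨hul, hcon⟩
  have e2 : padTo u N ∈ U ↔ Zw u ∈ L' := by
    have h3 : ¬ ((padTo u N).length = N ∧ ¬ (padTo u N ∈ U ↔ trk (padTo u N) (κ N) ∈ L')) := hF2
    rw [trk_padTo u (κ N) N (fun p a ha => (hget p a ha).2.2.2) (by rw [hul]; exact hκN)
      (by rw [hul]; exact hnN) (by rw [hul]; exact hDn)] at h3
    by_contra hcon
    exact h3 ⟨hpl, hcon⟩
  have e3 : padTo u N ∈ U ↔ wv u ∈ V :=
    htb u (by rw [hul]; exact hn0) (fun p a ha => (hget p a ha).1) N (by rw [hul]; exact hnc)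
  have e4 : Zw u ∈ L' ↔ Zw u ∉ L' := (e2.symm.trans e3).trans e1.symm
  tauto

end Pool.Agent.BookPL
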