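import Pool.Agent.BookPL.Defs

/-!
# Counter machines with an input head, and the Turing machines simulating them

The head of a counter machine on the input word `x` is at a position `pos ≤ |x|`, between the
letters of the prefix of length `pos` and the rest.
-/

set_option autoImplicit false

namespace Pool.Agent.BookPL

open Pool.Agent.Book19

/-- Instructions. -/
inductive Ins (A Λ : Type) (N : ℕ)
  | goto (l : Λ)
  | inc (r : Fin N) (l : Λ)
  | dec (r : Fin N) (l₀ l₁ : Λ)
  | look (l₀ : Λ) (f : A → Λ)
  | back (l₀ : Λ) (f : A → Λ)
  | adv (l : Λ)
  | halt (b : Bool)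

/-- Configurations. -/
structure CC (Λ : Type) (N : ℕ) where
  l : Λ
  pos : ℕ
  cnt : Fin N → ℕ

/-- One step. -/
def cstep {A Λ : Type} {N : ℕ} (I : Λ → Ins A Λ N) (x : List A) (c : CC Λ N) : CC Λ N :=
  match I c.l with
  | Ins.goto l => { c with l := l }
  | Ins.inc r l => { c with l := l, cnt := Function.update c.cnt r (c.cnt r + 1) }
  | Ins.dec r l₀ l₁ =>
      if c.cnt r = 0 then { c with l := l₀ }
      else { c with l := l₁, cnt := Function.update c.cnt r (c.cnt r - 1) }
  | Ins.look l₀ f =>
      match x[c.pos]? with
      | some a => { c with l := f a }
      | none => { c with l := l₀ }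
  | Ins.back l₀ f =>
      if c.pos = 0 then { c with l := l₀ }
      else
        match x[c.pos - 1]? with
        | some a => { c with l := f a, pos := c.pos - 1 }
        | none => { c with l := l₀ }
  | Ins.adv l => { c with l := l, pos := min (c.pos + 1) x.length }
  | Ins.halt _ => c

/-- Phases of the simulation of one instruction. -/
inductive Mic
  | main
  | bk
  | incR
  | decR
  | ret
  | fix
  deriving DecidableEq, Fintype

/-- No head on a work tape moves. -/
def idle {N : ℕ} (w : Fin N → Option Bool) : Fin N → Option Bool × Dir := fun i => (w i, Dir.stay)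

/-- Only tape `r` is changed. -/
def act {N : ℕ} (w : Fin N → Option Bool) (r : Fin N) (s : Option Bool) (d : Dir) :
    Fin N → Option Bool × Dir := fun i => if i = r then (s, d) else (w i, Dir.stay)

/-- The transition function of the simulating machine. Counter `r` is kept in binary on tape `r`:
cell `0` is blank, the digits are in the cells `1, 2, ...` with the lowest digit first. Between
the simulations of instructions all heads on the work tapes are on cell `0`. In the phase `incR` a
carry is propagated, in the phase `decR` a borrow; in the phase `ret` the head returns; in the phase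
`fix` it returns after an unsuccessful borrow and restores the zeros; in the phase `bk` the head on
the input tape has moved one cell to the left. -/
def odelta {A Λ : Type} {N : ℕ} (I : Λ → Ins A Λ N) (l₀ : Λ) :
    Option (Λ × Mic) → Mark A → (Fin N → Option Bool) →
      Option (Λ × Mic) × Dir × (Fin N → Option Bool × Dir)
  | none, _, w => (some (l₀, Mic.main), Dir.right, idle w)
  | some (l, Mic.main), m, w =>
      match I l with
      | Ins.goto l' => (some (l', Mic.main), Dir.stay, idle w)
      | Ins.inc r _ => (some (l, Mic.incR), Dir.stay, act w r (w r) Dir.right)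
      | Ins.dec r _ _ => (some (l, Mic.decR), Dir.stay, act w r (w r) Dir.right)
      | Ins.look l' f =>
          match m with
          | Mark.sym a => (some (f a, Mic.main), Dir.stay, idle w)
          | _ => (some (l', Mic.main), Dir.stay, idle w)
      | Ins.back _ _ => (some (l, Mic.bk), Dir.left, idle w)
      | Ins.adv l' => (some (l', Mic.main), Dir.right, idle w)
      | Ins.halt _ => (some (l, Mic.main), Dir.stay, idle w)
  | some (l, Mic.bk), m, w =>
      match I l with
      | Ins.back l' f =>
          match m with
          | Mark.sym a => (some (f a, Mic.main), Dir.stay, idle w)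
          | _ => (some (l', Mic.main), Dir.right, idle w)
      | _ => (some (l, Mic.main), Dir.stay, idle w)
  | some (l, Mic.incR), _, w =>
      match I l with
      | Ins.inc r _ =>
          match w r with
          | some true => (some (l, Mic.incR), Dir.stay, act w r (some false) Dir.right)
          | _ => (some (l, Mic.ret), Dir.stay, act w r (some true) Dir.left)
      | _ => (some (l, Mic.main), Dir.stay, idle w)
  | some (l, Mic.decR), _, w =>
      match I l with
      | Ins.dec r _ _ =>
          match w r with
          | some false => (some (l, Mic.decR), Dir.stay, act w r (some true) Dir.right)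
          | some true => (some (l, Mic.ret), Dir.stay, act w r (some false) Dir.left)
          | none => (some (l, Mic.fix), Dir.stay, act w r none Dir.left)
      | _ => (some (l, Mic.main), Dir.stay, idle w)
  | some (l, Mic.ret), _, w =>
      match I l with
      | Ins.inc r l' =>
          match w r with
          | some b => (some (l, Mic.ret), Dir.stay, act w r (some b) Dir.left)
          | none => (some (l', Mic.main), Dir.stay, idle w)
      | Ins.dec r _ l' =>
          match w r with
          | some b => (some (l, Mic.ret), Dir.stay, act w r (some b) Dir.left)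
          | none => (some (l', Mic.main), Dir.stay, idle w)
      | _ => (some (l, Mic.main), Dir.stay, idle w)
  | some (l, Mic.fix), _, w =>
      match I l with
      | Ins.dec r l' _ =>
          match w r with
          | some _ => (some (l, Mic.fix), Dir.stay, act w r (some false) Dir.left)
          | none => (some (l', Mic.main), Dir.stay, idle w)
      | _ => (some (l, Mic.main), Dir.stay, idle w)

/-- The simulating machine. -/
def otmOf {A Λ : Type} [Fintype Λ] {N : ℕ} (I : Λ → Ins A Λ N) (l₀ : Λ) : OTM A where
  k := N
  W := Option Bool
  blank := none
  Q := Option (Λ × Mic)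
  start := none
  out := fun q =>
    match q with
    | some (l, Mic.main) =>
        match I l with
        | Ins.halt b => some b
        | _ => none
    | _ => none
  δ := odelta I l₀

/-- The contents of a tape with the digits `ds`. -/
def tp (ds : List Bool) : ℕ → Option Bool
  | 0 => none
  | i + 1 => ds[i]?

/-- The value of a list of digits. -/
def dval : List Bool → ℕ
  | [] => 0
  | b :: ds => (if b then 1 else 0) + 2 * dval ds

/-- `M` goes from `c` to `c'` on the input `x`, not stopping before, the heads on the work tapes
staying on the first `S` cells. -/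
def Reach {A : Type} (M : OTM A) (x : List A) (S : ℕ) (c c' : OCfg M.Q M.W M.k) : Prop :=
  ∃ n, (M.step x)^[n] c = c' ∧ ∀ i < n, M.out ((M.step x)^[i] c).q = none ∧
    ∀ j, ((M.step x)^[i] c).head j < S

theorem Reach.refl {A : Type} {M : OTM A} {x : List A} {S : ℕ} (c : OCfg M.Q M.W M.k) :
    Reach M x S c c := ⟨0, rfl, fun i hi => absurd hi (Nat.not_lt_zero i)⟩

theorem Reach.trans {A : Type} {M : OTM A} {x : List A} {S : ℕ} {c c' c'' : OCfg M.Q M.W M.k}
    (h : Reach M x S c c') (h' : Reach M x S c' c'') : Reach M x S c c'' := by
  obtain ⟨m, hm, hm'⟩ := h
  obtain ⟨n, hn, hn'⟩ := h'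
  refine ⟨n + m, by rw [Function.iterate_add_apply, hm, hn], fun i hi => ?_⟩
  rcases lt_or_ge i m with h1 | h1
  · exact hm' i h1
  · obtain ⟨d, rfl⟩ := Nat.exists_eq_add_of_le h1
    rw [Nat.add_comm, Function.iterate_add_apply, hm]
    exact hn' d (by omega)

theorem Reach.head {A : Type} {M : OTM A} {x : List A} {S : ℕ} {c c' : OCfg M.Q M.W M.k}
    (h1 : M.out c.q = none) (h2 : ∀ j, c.head j < S) (h : Reach M x S (M.step x c) c') :
    Reach M x S c c' := by
  refine Reach.trans ⟨1, rfl, fun i hi => ?_⟩ h
  obtain rfl : i = 0 := by omega
  exact ⟨h1, h2⟩

/-- The configuration of the Turing machine which belongs to a configuration of the counter machine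
and lists of digits. -/
def ocfg {A Λ : Type} [Fintype Λ] {N : ℕ} (I : Λ → Ins A Λ N) (l₀ : Λ) (l : Λ) (pos : ℕ)
    (ds : Fin N → List Bool) : OCfg (otmOf I l₀).Q (otmOf I l₀).W (otmOf I l₀).k where
  q := some (l, Mic.main)
  pos := pos + 1
  head := fun _ => 0
  tape := fun i => tp (ds i)

end Pool.Agent.BookPL
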