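import Pool.Agent.BookPL.CtrTape

/-!
# Simulation of a decrement
-/

set_option autoImplicit false

namespace Pool.Agent.BookPL

open Pool.Agent.Book19

variable {A Λ : Type} [Fintype Λ] {N : ℕ} (I : Λ → Ins A Λ N) (l₀ : Λ)

private theorem dec_idle (w : Fin N → Option Bool) (r : Fin N) :
    idle w = act w r (w r) Dir.stay := by
  funext i
  unfold idle act
  split_ifs with h
  · rw [h]
  · rfl

/-- one step of a Reach in a phase in which tape `r` is used -/
private theorem dec_head (x : List A) (S : ℕ) (l l' : Λ) (m m' : Mic) (pos : ℕ)
    (hp : pos ≤ x.length) (ds : Fin N → List Bool) (r : Fin N) (h : ℕ) (T : ℕ → Option Bool)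
    (s : Option Bool) (d : Dir) (c : OCfg (otmOf I l₀).Q (otmOf I l₀).W (otmOf I l₀).k)
    (hδ : ∀ (mk : Mark A) (w : Fin N → Option Bool), w r = T h →
      odelta I l₀ (some (l, m)) mk w = (some (l', m'), Dir.stay, act w r s d))
    (hout : (otmOf I l₀).out (some (l, m)) = none) (hS : h < S)
    (hr : Reach (otmOf I l₀) x S
      (mcfg I l₀ l' m' pos ds r (Dir.apply d h) (Function.update T h s)) c) :
    Reach (otmOf I l₀) x S (mcfg I l₀ l m pos ds r h T) c := by
  refine Reach.head hout ?_ ?_
  · intro j
    show (if j = r then h else 0) < S
    split_ifs <;> omega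
  · rw [step_mcfg I l₀ x l l' m m' pos hp ds r h T s d hδ]
    exact hr

private theorem dec_ret (x : List A) (S : ℕ) (l : Λ) (r : Fin N) (l' l'' : Λ)
    (hI : I l = Ins.dec r l' l'') (pos : ℕ) (hp : pos ≤ x.length) (ds : Fin N → List Bool)
    (d : List Bool) : ∀ h, h ≤ d.length → h < S →
    Reach (otmOf I l₀) x S (mcfg I l₀ l Mic.ret pos ds r h (tp d))
      (ocfg I l₀ l'' pos (Function.update ds r d)) := by
  intro h
  induction h with
  | zero =>
    intro _ hS
    refine dec_head I l₀ x S l l'' Mic.ret Mic.main pos hp ds r 0 (tp d) none Dir.stay _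
      ?_ rfl hS ?_
    · intro mk w hw
      have hw' : w r = none := hw
      simp only [odelta, hI, hw']
      rw [dec_idle w r, hw']
    · have e : Function.update (tp d) 0 none = tp d := tp_same d 0
      rw [e]
      show Reach _ _ _ (mcfg I l₀ l'' Mic.main pos ds r 0 (tp d)) _
      rw [mcfg_main]
      exact Reach.refl _
  | succ h ih =>
    intro hh hS
    obtain ⟨b, hb⟩ := tp_some d (h + 1) (Nat.succ_pos h) hh
    refine dec_head I l₀ x S l l Mic.ret Mic.ret pos hp ds r (h + 1) (tp d) (some b) Dir.left _
      ?_ rfl hS ?_
    · intro mk w hw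
      rw [hb] at hw
      simp only [odelta, hI, hw]
    · have e : Function.update (tp d) (h + 1) (some b) = tp d := by
        rw [← hb]
        exact tp_same d (h + 1)
      rw [e]
      exact ih (by omega) (by omega)

private theorem dec_run (x : List A) (S : ℕ) (l : Λ) (r : Fin N) (l' l'' : Λ)
    (hI : I l = Ins.dec r l' l'') (pos : ℕ) (hp : pos ≤ x.length) (ds : Fin N → List Bool) :
    ∀ (t pre : List Bool), dval t ≠ 0 → pre.length + t.length + 1 < S →
    ∃ d : List Bool, d.length = t.length ∧ dval d = dval t - 1 ∧
      Reach (otmOf I l₀) x S (mcfg I l₀ l Mic.decR pos ds r (pre.length + 1) (tp (pre ++ t)))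
        (ocfg I l₀ l'' pos (Function.update ds r (pre ++ d))) := by
  intro t
  induction t with
  | nil => intro pre h; exact absurd rfl h
  | cons b t ih =>
    intro pre hv hS
    rw [List.length_cons] at hS
    have hrd : tp (pre ++ b :: t) (pre.length + 1) = some b := by
      rw [tp_read]; rfl
    cases b with
    | false =>
      have hv' : dval t ≠ 0 := by
        intro h0
        apply hv
        simp [dval, h0]
      obtain ⟨d, hd1, hd2, hd3⟩ := ih (pre ++ [true]) hv' (by simp; omega)
      refine ⟨true :: d, by simp [hd1], ?_, ?_⟩
      · simp only [dval, hd2]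
        simp
        omega
      · refine dec_head I l₀ x S l l Mic.decR Mic.decR pos hp ds r (pre.length + 1)
          (tp (pre ++ false :: t)) (some true) Dir.right _ ?_ rfl (by omega) ?_
        · intro mk w hw
          rw [hrd] at hw
          simp only [odelta, hI, hw]
        · rw [tp_write]
          simp only [List.length_append, List.length_cons, List.length_nil, zero_add,
            List.append_assoc, List.cons_append, List.nil_append] at hd3
          exact hd3
    | true =>
      refine ⟨false :: t, rfl, ?_, ?_⟩
      · simp only [dval]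
        simp
      · refine dec_head I l₀ x S l l Mic.decR Mic.ret pos hp ds r (pre.length + 1)
          (tp (pre ++ true :: t)) (some false) Dir.left _ ?_ rfl (by omega) ?_
        · intro mk w hw
          rw [hrd] at hw
          simp only [odelta, hI, hw]
        · rw [tp_write]
          exact dec_ret I l₀ x S l r l' l'' hI pos hp ds (pre ++ false :: t) pre.length
            (by simp) (by omega)

private theorem dec_start (x : List A) (S : ℕ) (l : Λ) (r : Fin N) (l' l'' : Λ)
    (hI : I l = Ins.dec r l' l'') (pos : ℕ) (hp : pos ≤ x.length) (ds : Fin N → List Bool)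
    (hS : 0 < S) (c : OCfg (otmOf I l₀).Q (otmOf I l₀).W (otmOf I l₀).k)
    (h : Reach (otmOf I l₀) x S (mcfg I l₀ l Mic.decR pos ds r 1 (tp (ds r))) c) :
    Reach (otmOf I l₀) x S (ocfg I l₀ l pos ds) c := by
  have e : ocfg I l₀ l pos ds = mcfg I l₀ l Mic.main pos ds r 0 (tp (ds r)) := by
    rw [mcfg_main, Function.update_eq_self]
  rw [e]
  refine dec_head I l₀ x S l l Mic.main Mic.decR pos hp ds r 0 (tp (ds r)) (tp (ds r) 0)
    Dir.right c ?_ ?_ hS ?_
  · intro mk w hw
    simp only [odelta, hI, hw]
  · simp only [otmOf, hI]
  · rw [tp_same]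
    exact h

/-- Decrement of a positive counter. -/
theorem reach_dec (x : List A) (S : ℕ) (l : Λ) (r : Fin N) (l' l'' : Λ)
    (hI : I l = Ins.dec r l' l'') (pos : ℕ) (hp : pos ≤ x.length) (ds : Fin N → List Bool) (B : ℕ)
    (hB : ∀ i, (ds i).length ≤ B) (hv : dval (ds r) ≠ 0) (hS : B + 1 < S) :
    ∃ d : List Bool, d.length ≤ B ∧ dval d = dval (ds r) - 1 ∧
      Reach (otmOf I l₀) x S (ocfg I l₀ l pos ds)
        (ocfg I l₀ l'' pos (Function.update ds r d)) := by
  have hr := hB r
  obtain ⟨d, h1, h2, h3⟩ := dec_run I l₀ x S l r l' l'' hI pos hp ds (ds r) [] hv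
    (by simp only [List.length_nil]; omega)
  refine ⟨d, by omega, h2, ?_⟩
  exact dec_start I l₀ x S l r l' l'' hI pos hp ds (by omega) _ h3

private theorem dec_fix (x : List A) (S : ℕ) (l : Λ) (r : Fin N) (l' l'' : Λ)
    (hI : I l = Ins.dec r l' l'') (pos : ℕ) (hp : pos ≤ x.length) (ds : Fin N → List Bool)
    (pre : List Bool) : ∀ post : List Bool, pre.length < S →
    Reach (otmOf I l₀) x S (mcfg I l₀ l Mic.fix pos ds r pre.length (tp (pre ++ post)))
      (ocfg I l₀ l' pos (Function.update ds r (List.replicate pre.length false ++ post))) := by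
  induction pre using List.reverseRecOn with
  | nil =>
    intro post hS
    refine dec_head I l₀ x S l l' Mic.fix Mic.main pos hp ds r 0 (tp post) none Dir.stay _
      ?_ rfl hS ?_
    · intro mk w hw
      have hw' : w r = none := hw
      simp only [odelta, hI, hw']
      rw [dec_idle w r, hw']
    · have e : Function.update (tp post) 0 none = tp post := tp_same post 0
      rw [e]
      show Reach _ _ _ (mcfg I l₀ l' Mic.main pos ds r 0 (tp post)) _
      rw [mcfg_main]
      exact Reach.refl _
  | append_singleton pre b ih =>
    intro post hS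
    have hl : (pre ++ [b]).length = pre.length + 1 := by simp
    rw [hl] at hS ⊢
    have e0 : pre ++ [b] ++ post = pre ++ b :: post := by simp
    rw [e0]
    have hrd : tp (pre ++ b :: post) (pre.length + 1) = some b := by
      rw [tp_read]; rfl
    refine dec_head I l₀ x S l l Mic.fix Mic.fix pos hp ds r (pre.length + 1)
      (tp (pre ++ b :: post)) (some false) Dir.left _ ?_ rfl hS ?_
    · intro mk w hw
      rw [hrd] at hw
      simp only [odelta, hI, hw]
    · rw [tp_write]
      have h := ih (false :: post) (by omega)
      have e1 : List.replicate (pre.length + 1) false ++ post =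
          List.replicate pre.length false ++ false :: post := by
        rw [List.replicate_succ', List.append_assoc]
        rfl
      rw [e1]
      exact h

private theorem dec_zero_run (x : List A) (S : ℕ) (l : Λ) (r : Fin N) (l' l'' : Λ)
    (hI : I l = Ins.dec r l' l'') (pos : ℕ) (hp : pos ≤ x.length) (ds : Fin N → List Bool) :
    ∀ (t pre : List Bool), dval t = 0 → pre.length + t.length + 1 < S →
      Reach (otmOf I l₀) x S (mcfg I l₀ l Mic.decR pos ds r (pre.length + 1) (tp (pre ++ t)))
        (ocfg I l₀ l' pos (Function.update ds r
          (List.replicate (pre.length + t.length) false))) := by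
  intro t
  induction t with
  | nil =>
    intro pre _ hS
    have hrd : tp (pre ++ []) (pre.length + 1) = none := by
      rw [tp_read]; rfl
    refine dec_head I l₀ x S l l Mic.decR Mic.fix pos hp ds r (pre.length + 1)
      (tp (pre ++ [])) none Dir.left _ ?_ rfl (by omega) ?_
    · intro mk w hw
      rw [hrd] at hw
      simp only [odelta, hI, hw]
    · have e : Function.update (tp (pre ++ [])) (pre.length + 1) none = tp (pre ++ []) := by
        conv_lhs => rw [← hrd]
        exact tp_same _ _
      rw [e]
      have h := dec_fix I l₀ x S l r l' l'' hI pos hp ds pre [] (by omega)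
      rw [List.append_nil (List.replicate pre.length false)] at h
      exact h
  | cons b t ih =>
    intro pre hv hS
    rw [List.length_cons] at hS
    have hrd : tp (pre ++ b :: t) (pre.length + 1) = some b := by
      rw [tp_read]; rfl
    cases b with
    | false =>
      have hv' : dval t = 0 := by
        simp only [dval] at hv
        simp at hv
        exact hv
      have h := ih (pre ++ [true]) hv' (by simp; omega)
      refine dec_head I l₀ x S l l Mic.decR Mic.decR pos hp ds r (pre.length + 1)
        (tp (pre ++ false :: t)) (some true) Dir.right _ ?_ rfl (by omega) ?_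
      · intro mk w hw
        rw [hrd] at hw
        simp only [odelta, hI, hw]
      · rw [tp_write]
        simp only [List.length_append, List.length_cons, List.length_nil, zero_add,
          List.append_assoc, List.cons_append, List.nil_append] at h
        rw [show pre.length + (false :: t).length = pre.length + 1 + t.length by
          rw [List.length_cons]; omega]
        exact h
    | true =>
      exfalso
      simp only [dval] at hv
      simp at hv

private theorem dec_zero_eq : ∀ t : List Bool, dval t = 0 → List.replicate t.length false = t := by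
  intro t
  induction t with
  | nil => intro _; rfl
  | cons b t ih =>
    intro h
    cases b with
    | false =>
      simp only [dval] at h
      simp at h
      rw [List.length_cons, List.replicate_succ, ih h]
    | true =>
      simp only [dval] at h
      simp at h

/-- Test of a counter with value zero. -/
theorem reach_dec_zero (x : List A) (S : ℕ) (l : Λ) (r : Fin N) (l' l'' : Λ)
    (hI : I l = Ins.dec r l' l'') (pos : ℕ) (hp : pos ≤ x.length) (ds : Fin N → List Bool) (B : ℕ)
    (hB : ∀ i, (ds i).length ≤ B) (hv : dval (ds r) = 0) (hS : B + 1 < S) :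
    Reach (otmOf I l₀) x S (ocfg I l₀ l pos ds) (ocfg I l₀ l' pos ds) := by
  have hr := hB r
  have h := dec_zero_run I l₀ x S l r l' l'' hI pos hp ds (ds r) [] hv
    (by simp only [List.length_nil]; omega)
  have e : Function.update ds r (List.replicate (([] : List Bool).length + (ds r).length) false) =
      ds := by
    rw [List.length_nil, Nat.zero_add, dec_zero_eq _ hv, Function.update_eq_self]
  rw [e] at h
  exact dec_start I l₀ x S l r l' l'' hI pos hp ds (by omega) _ h

end Pool.Agent.BookPL
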