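import Pool.Agent.BookPL.CtrTape

/-!
# Simulation of an increment
-/

set_option autoImplicit false

namespace Pool.Agent.BookPL

open Pool.Agent.Book19

variable {A Λ : Type} [Fintype Λ] {N : ℕ} (I : Λ → Ins A Λ N) (l₀ : Λ)

/-- the digits of the successor -/
private def incr : List Bool → List Bool
  | [] => [true]
  | true :: ds => false :: incr ds
  | false :: ds => true :: ds

private theorem dval_incr (ds : List Bool) : dval (incr ds) = dval ds + 1 := by
  induction ds with
  | nil => rfl
  | cons b ds ih =>
    cases b with
    | true =>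
      simp only [incr, dval, ih]
      norm_num
      ring
    | false =>
      simp only [incr, dval]
      norm_num
      ring

private theorem length_incr (ds : List Bool) (B : ℕ) (h : ds.length ≤ B)
    (hv : dval ds + 1 < 2 ^ B) : (incr ds).length ≤ B := by
  induction ds generalizing B with
  | nil =>
    rcases B with _ | B
    · simp [dval] at hv
    · simp [incr]
  | cons b ds ih =>
    rcases B with _ | B
    · simp at h
    cases b with
    | true =>
      simp only [incr, List.length_cons] at *
      have := ih B (by omega) (by
        rw [dval, pow_succ] at hv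
        simp only [if_true] at hv
        omega)
      omega
    | false =>
      simpa [incr] using h

private theorem idle_eq (w : Fin N → Option Bool) (r : Fin N) :
    idle w = act w r (w r) Dir.stay := by
  funext i
  unfold idle act
  split_ifs with h
  · rw [h]
  · rfl

private theorem out_run (l : Λ) (m : Mic) (hm : m ≠ Mic.main) (pos : ℕ) (ds : Fin N → List Bool)
    (r : Fin N) (h : ℕ) (T : ℕ → Option Bool) :
    (otmOf I l₀).out (mcfg I l₀ l m pos ds r h T).q = none := by
  cases m <;> first | rfl | exact absurd rfl hm

private theorem head_lt (l : Λ) (m : Mic) (pos : ℕ) (ds : Fin N → List Bool)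
    (r : Fin N) (h : ℕ) (T : ℕ → Option Bool) {S : ℕ} (hS : h < S) (j : Fin N) :
    (mcfg I l₀ l m pos ds r h T).head j < S := by
  change (if j = r then h else 0) < S
  split_ifs <;> omega

/-- return -/
private theorem reach_ret (x : List A) (S : ℕ) (l : Λ) (r : Fin N) (l' : Λ)
    (hI : I l = Ins.inc r l') (pos : ℕ) (hp : pos ≤ x.length) (ds : Fin N → List Bool)
    (d : List Bool) (h : ℕ) (hd : h ≤ d.length) (hS : h < S) :
    Reach (otmOf I l₀) x S (mcfg I l₀ l Mic.ret pos ds r h (tp d))
      (mcfg I l₀ l' Mic.main pos ds r 0 (tp d)) := by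
  induction h with
  | zero =>
    refine Reach.head (out_run I l₀ l _ (by decide) _ _ _ _ _) (head_lt I l₀ _ _ _ _ _ _ _ hS) ?_
    rw [step_mcfg I l₀ x l l' Mic.ret Mic.main pos hp ds r 0 (tp d) none Dir.stay]
    · have : Function.update (tp d) 0 none = tp d := tp_same d 0
      rw [this]
      exact Reach.refl _
    · intro mk w hw
      have hw' : w r = none := hw
      simp only [odelta, hI, hw']
      rw [idle_eq w r, hw']
  | succ h ih =>
    refine Reach.head (out_run I l₀ l _ (by decide) _ _ _ _ _) (head_lt I l₀ _ _ _ _ _ _ _ hS) ?_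
    obtain ⟨b, hb⟩ := tp_some d (h + 1) (by omega) hd
    rw [step_mcfg I l₀ x l l Mic.ret Mic.ret pos hp ds r (h + 1) (tp d) (some b) Dir.left]
    · have : Function.update (tp d) (h + 1) (some b) = tp d := by
        rw [← hb]
        exact tp_same d (h + 1)
      rw [this]
      exact ih (by omega) (by omega)
    · intro mk w hw
      rw [hb] at hw
      simp only [odelta, hI, hw]

/-- propagation of the carry -/
private theorem reach_carry (x : List A) (S : ℕ) (l : Λ) (r : Fin N) (l' : Λ)
    (hI : I l = Ins.inc r l') (pos : ℕ) (hp : pos ≤ x.length) (ds : Fin N → List Bool)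
    (suf : List Bool) (pre : List Bool) (hS : pre.length + suf.length + 1 < S) :
    Reach (otmOf I l₀) x S (mcfg I l₀ l Mic.incR pos ds r (pre.length + 1) (tp (pre ++ suf)))
      (mcfg I l₀ l' Mic.main pos ds r 0 (tp (pre ++ incr suf))) := by
  induction suf generalizing pre with
  | nil =>
    refine Reach.head (out_run I l₀ l _ (by decide) _ _ _ _ _)
      (head_lt I l₀ _ _ _ _ _ _ _ (by simpa using hS)) ?_
    rw [step_mcfg I l₀ x l l Mic.incR Mic.ret pos hp ds r (pre.length + 1) (tp (pre ++ []))
      (some true) Dir.left]
    · rw [List.append_nil, tp_write_end]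
      exact reach_ret I l₀ x S l r l' hI pos hp ds (pre ++ [true]) pre.length (by simp)
        (by simp at hS; omega)
    · intro mk w hw
      rw [tp_read] at hw
      simp only [odelta, hI, hw, List.head?_nil]
  | cons b suf ih =>
    rw [List.length_cons] at hS
    cases b with
    | true =>
      refine Reach.head (out_run I l₀ l _ (by decide) _ _ _ _ _)
        (head_lt I l₀ _ _ _ _ _ _ _ (by omega)) ?_
      rw [step_mcfg I l₀ x l l Mic.incR Mic.incR pos hp ds r (pre.length + 1)
        (tp (pre ++ true :: suf)) (some false) Dir.right]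
      · rw [tp_write]
        have h1 := ih (pre ++ [false]) (by simp; omega)
        rw [List.length_append, List.append_assoc, List.append_assoc] at h1
        exact h1
      · intro mk w hw
        rw [tp_read] at hw
        simp only [odelta, hI, hw, List.head?_cons]
    | false =>
      refine Reach.head (out_run I l₀ l _ (by decide) _ _ _ _ _)
        (head_lt I l₀ _ _ _ _ _ _ _ (by omega)) ?_
      rw [step_mcfg I l₀ x l l Mic.incR Mic.ret pos hp ds r (pre.length + 1)
        (tp (pre ++ false :: suf)) (some true) Dir.left]
      · rw [tp_write]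
        exact reach_ret I l₀ x S l r l' hI pos hp ds (pre ++ true :: suf) pre.length (by simp)
          (by omega)
      · intro mk w hw
        rw [tp_read] at hw
        simp only [odelta, hI, hw, List.head?_cons]

/-- Increment. -/
theorem reach_inc (x : List A) (S : ℕ) (l : Λ) (r : Fin N) (l' : Λ) (hI : I l = Ins.inc r l')
    (pos : ℕ) (hp : pos ≤ x.length) (ds : Fin N → List Bool) (B : ℕ)
    (hB : ∀ i, (ds i).length ≤ B) (hv : dval (ds r) + 1 < 2 ^ B) (hS : B + 1 < S) :
    ∃ d : List Bool, d.length ≤ B ∧ dval d = dval (ds r) + 1 ∧
      Reach (otmOf I l₀) x S (ocfg I l₀ l pos ds)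
        (ocfg I l₀ l' pos (Function.update ds r d)) := by
  refine ⟨incr (ds r), length_incr _ B (hB r) hv, dval_incr _, ?_⟩
  have h0 : ocfg I l₀ l pos ds = mcfg I l₀ l Mic.main pos ds r 0 (tp (ds r)) := by
    rw [mcfg_main, Function.update_eq_self]
  rw [h0, ← mcfg_main]
  refine Reach.head ?_ (head_lt I l₀ _ _ _ _ _ _ _ (by omega)) ?_
  · change (match I l with
        | Ins.halt b => some b
        | _ => none) = none
    rw [hI]
  · rw [step_mcfg I l₀ x l l Mic.main Mic.incR pos hp ds r 0 (tp (ds r)) (tp (ds r) 0) Dir.right]
    · rw [tp_same]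
      exact reach_carry I l₀ x S l r l' hI pos hp ds (ds r) [] (by
        have := hB r
        simp
        omega)
    · intro mk w hw
      simp only [odelta, hI, hw]

end Pool.Agent.BookPL
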