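import Pool.Agent.BookPL.CtrInc
import Pool.Agent.BookPL.CtrDec

/-!
# The Turing machine simulates the counter machine
-/

set_option autoImplicit false

namespace Pool.Agent.BookPL

open Pool.Agent.Book19

section

variable {A Λ : Type} [Fintype Λ] {N : ℕ} (I : Λ → Ins A Λ N) (l₀ : Λ)

/-- The configuration in phase `m` with all work heads on cell `0` and the input head at `p`. -/
private def gcfg (l : Λ) (m : Mic) (p : ℕ) (ds : Fin N → List Bool) :
    OCfg (otmOf I l₀).Q (otmOf I l₀).W (otmOf I l₀).k where
  q := some (l, m)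
  pos := p
  head := fun _ => 0
  tape := fun i => tp (ds i)

private theorem ocfg_eq (l : Λ) (pos : ℕ) (ds : Fin N → List Bool) :
    ocfg I l₀ l pos ds = gcfg I l₀ l Mic.main (pos + 1) ds := rfl

private theorem step_gcfg (x : List A) (l l' : Λ) (m m' : Mic) (p p' : ℕ) (ds : Fin N → List Bool)
    (d : Dir)
    (hδ : odelta I l₀ (some (l, m)) (inputAt x p) (fun _ => none) =
      (some (l', m'), d, idle (fun _ => none)))
    (hp : min (Dir.apply d p) (x.length + 1) = p') :
    (otmOf I l₀).step x (gcfg I l₀ l m p ds) = gcfg I l₀ l' m' p' ds := by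
  have e1 : (otmOf I l₀).δ (gcfg I l₀ l m p ds).q (inputAt x (gcfg I l₀ l m p ds).pos)
      (fun i => (gcfg I l₀ l m p ds).tape i ((gcfg I l₀ l m p ds).head i)) =
      (some (l', m'), d, idle (fun _ => none)) := hδ
  unfold OTM.step
  simp only [e1]
  unfold gcfg
  congr 1
  funext i
  exact Function.update_eq_self (0 : ℕ) (tp (ds i))

private theorem reach_one (x : List A) (S : ℕ) (l l' : Λ) (m m' : Mic) (p p' : ℕ)
    (ds : Fin N → List Bool) (d : Dir)
    (hδ : odelta I l₀ (some (l, m)) (inputAt x p) (fun _ => none) =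
      (some (l', m'), d, idle (fun _ => none)))
    (hp : min (Dir.apply d p) (x.length + 1) = p') (hS : 0 < S)
    (ho : (otmOf I l₀).out (some (l, m)) = none) :
    Reach (otmOf I l₀) x S (gcfg I l₀ l m p ds) (gcfg I l₀ l' m' p' ds) := by
  refine Reach.head ho (fun _ => hS) ?_
  rw [step_gcfg I l₀ x l l' m m' p p' ds d hδ hp]
  exact Reach.refl _

private theorem out_main (l : Λ) (h : ∀ b, I l ≠ Ins.halt b) :
    (otmOf I l₀).out (some (l, Mic.main)) = none := by
  change (match I l with
        | Ins.halt b => some b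
        | _ => none) = none
  split
  · next b hb => exact absurd hb (h b)
  · rfl

private theorem reach_init (x : List A) (S : ℕ) (hS : 0 < S) :
    Reach (otmOf I l₀) x S (otmOf I l₀).init (ocfg I l₀ l₀ 0 fun _ => []) := by
  refine Reach.head rfl (fun _ => hS) ?_
  have e : (otmOf I l₀).step x (otmOf I l₀).init = ocfg I l₀ l₀ 0 fun _ => [] := by
    have e1 : (otmOf I l₀).δ (otmOf I l₀).init.q (inputAt x (otmOf I l₀).init.pos)
        (fun i => (otmOf I l₀).init.tape i ((otmOf I l₀).init.head i)) =
        (some (l₀, Mic.main), Dir.right, idle (fun _ => none)) := rfl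
    unfold OTM.step
    simp only [e1]
    unfold OTM.init ocfg
    congr 1
    funext i
    change Function.update (fun _ : ℕ => (none : Option Bool)) 0 none = tp []
    funext j
    rcases j with _ | j
    · simp [tp]
    · simp [tp]
  rw [e]
  exact Reach.refl _

end

/-- **Counter machines are simulated by Turing machines in logarithmic space.** -/
theorem exists_otm {A Λ : Type} [Fintype Λ] {N : ℕ} (I : Λ → Ins A Λ N) (l₀ : Λ) :
    ∃ M : OTM A, ∀ (x : List A) (B n : ℕ) (b : Bool),
      I ((cstep I x)^[n] ⟨l₀, 0, fun _ => 0⟩).l = Ins.halt b →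
      (∀ i < n, ∀ b', I ((cstep I x)^[i] ⟨l₀, 0, fun _ => 0⟩).l ≠ Ins.halt b') →
      (∀ i ≤ n, ∀ r, ((cstep I x)^[i] ⟨l₀, 0, fun _ => 0⟩).cnt r < 2 ^ B) →
      ∃ t, M.Gives x t b ∧ M.Space x t (B + 2) := by
  refine ⟨otmOf I l₀, fun x B n b hb hn hB => ?_⟩
  have key : ∀ i ≤ n, ∃ ds : Fin N → List Bool, (∀ r, (ds r).length ≤ B) ∧
      (∀ r, dval (ds r) = ((cstep I x)^[i] ⟨l₀, 0, fun _ => 0⟩).cnt r) ∧
      ((cstep I x)^[i] ⟨l₀, 0, fun _ => 0⟩).pos ≤ x.length ∧
      Reach (otmOf I l₀) x (B + 2) (otmOf I l₀).init
        (ocfg I l₀ ((cstep I x)^[i] ⟨l₀, 0, fun _ => 0⟩).l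
          ((cstep I x)^[i] ⟨l₀, 0, fun _ => 0⟩).pos ds) := by
    intro i
    induction i with
    | zero =>
      intro _
      refine ⟨fun _ => [], fun _ => Nat.zero_le _, fun _ => rfl, Nat.zero_le _, ?_⟩
      exact reach_init I l₀ x (B + 2) (by omega)
    | succ i ih =>
      intro hi
      obtain ⟨ds, h1, h2, h3, h4⟩ := ih (by omega)
      have hnh := hn i (by omega)
      have hB1 := hB (i + 1) hi
      rw [Function.iterate_succ_apply'] at hB1 ⊢
      generalize (cstep I x)^[i] ⟨l₀, 0, fun _ => 0⟩ = c at h2 h3 h4 hnh hB1 ⊢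
      obtain ⟨l, pos, cnt⟩ := c
      simp only at h2 h3 h4 hnh
      have ho := out_main I l₀ l hnh
      have hS : 0 < B + 2 := by omega
      rcases hI : I l with l' | ⟨r, l'⟩ | ⟨r, l', l''⟩ | ⟨l', f⟩ | ⟨l', f⟩ | l' | b'
      · -- goto
        have e : cstep I x ⟨l, pos, cnt⟩ = ⟨l', pos, cnt⟩ := by simp [cstep, hI]
        rw [e]
        refine ⟨ds, h1, h2, h3, h4.trans ?_⟩
        refine reach_one I l₀ x _ l l' Mic.main Mic.main (pos + 1) (pos + 1) ds Dir.stay ?_ ?_ hS ho
        · simp [odelta, hI]
        · simp only [Dir.apply]; omega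
      · -- inc
        have e : cstep I x ⟨l, pos, cnt⟩ = ⟨l', pos, Function.update cnt r (cnt r + 1)⟩ := by
          simp [cstep, hI]
        rw [e] at hB1 ⊢
        have hv : dval (ds r) + 1 < 2 ^ B := by
          have := hB1 r
          simp only [Function.update_self] at this
          rw [h2]; exact this
        obtain ⟨d, hd1, hd2, hd3⟩ := reach_inc I l₀ x (B + 2) l r l' hI pos h3 ds B h1 hv (by omega)
        refine ⟨Function.update ds r d, ?_, ?_, h3, h4.trans hd3⟩
        · intro s
          by_cases hs : s = r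
          · subst hs; rw [Function.update_self]; exact hd1
          · rw [Function.update_of_ne hs]; exact h1 s
        · intro s
          by_cases hs : s = r
          · subst hs; rw [Function.update_self]; simp only [Function.update_self]; rw [hd2, h2]
          · rw [Function.update_of_ne hs]; simp only [Function.update_of_ne hs]; exact h2 s
      · -- dec
        by_cases hz : cnt r = 0
        · have e : cstep I x ⟨l, pos, cnt⟩ = ⟨l', pos, cnt⟩ := by simp [cstep, hI, hz]
          rw [e]
          refine ⟨ds, h1, h2, h3, h4.trans ?_⟩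
          exact reach_dec_zero I l₀ x (B + 2) l r l' l'' hI pos h3 ds B h1 (by rw [h2]; exact hz)
            (by omega)
        · have e : cstep I x ⟨l, pos, cnt⟩ = ⟨l'', pos, Function.update cnt r (cnt r - 1)⟩ := by
            simp [cstep, hI, hz]
          rw [e]
          obtain ⟨d, hd1, hd2, hd3⟩ := reach_dec I l₀ x (B + 2) l r l' l'' hI pos h3 ds B h1
            (by rw [h2]; exact hz) (by omega)
          refine ⟨Function.update ds r d, ?_, ?_, h3, h4.trans hd3⟩
          · intro s
            by_cases hs : s = r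
            · subst hs; rw [Function.update_self]; exact hd1
            · rw [Function.update_of_ne hs]; exact h1 s
          · intro s
            by_cases hs : s = r
            · subst hs; rw [Function.update_self]; simp only [Function.update_self]; rw [hd2, h2]
            · rw [Function.update_of_ne hs]; simp only [Function.update_of_ne hs]; exact h2 s
      · -- look
        rcases hx : x[pos]? with _ | a
        · have e : cstep I x ⟨l, pos, cnt⟩ = ⟨l', pos, cnt⟩ := by simp [cstep, hI, hx]
          rw [e]
          refine ⟨ds, h1, h2, h3, h4.trans ?_⟩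
          refine reach_one I l₀ x _ l l' Mic.main Mic.main (pos + 1) (pos + 1) ds Dir.stay ?_ ?_
            hS ho
          · simp [odelta, hI, inputAt, hx]
          · simp only [Dir.apply]; omega
        · have e : cstep I x ⟨l, pos, cnt⟩ = ⟨f a, pos, cnt⟩ := by simp [cstep, hI, hx]
          rw [e]
          refine ⟨ds, h1, h2, h3, h4.trans ?_⟩
          refine reach_one I l₀ x _ l (f a) Mic.main Mic.main (pos + 1) (pos + 1) ds Dir.stay ?_ ?_
            hS ho
          · simp [odelta, hI, inputAt, hx]
          · simp only [Dir.apply]; omega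
      · -- back
        have hs1 : Reach (otmOf I l₀) x (B + 2) (gcfg I l₀ l Mic.main (pos + 1) ds)
            (gcfg I l₀ l Mic.bk pos ds) := by
          refine reach_one I l₀ x _ l l Mic.main Mic.bk (pos + 1) pos ds Dir.left ?_ ?_ hS ho
          · simp [odelta, hI]
          · simp only [Dir.apply]; omega
        by_cases hz : pos = 0
        · subst hz
          have e : cstep I x ⟨l, 0, cnt⟩ = ⟨l', 0, cnt⟩ := by simp [cstep, hI]
          rw [e]
          refine ⟨ds, h1, h2, h3, h4.trans (hs1.trans ?_)⟩
          refine reach_one I l₀ x _ l l' Mic.bk Mic.main 0 1 ds Dir.right ?_ ?_ hS rfl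
          · simp [odelta, hI, inputAt]
          · simp only [Dir.apply]; omega
        · obtain ⟨k, rfl⟩ : ∃ k, pos = k + 1 := ⟨pos - 1, by omega⟩
          have hk : k < x.length := by omega
          have hx : x[k]? = some x[k] := List.getElem?_eq_getElem hk
          have e : cstep I x ⟨l, k + 1, cnt⟩ = ⟨f x[k], k, cnt⟩ := by
            simp [cstep, hI, hx]
          rw [e]
          refine ⟨ds, h1, h2, by simp only; omega, h4.trans (hs1.trans ?_)⟩
          refine reach_one I l₀ x _ l (f x[k]) Mic.bk Mic.main (k + 1) (k + 1) ds Dir.stay ?_ ?_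
            hS rfl
          · simp [odelta, hI, inputAt, hx]
          · simp only [Dir.apply]; omega
      · -- adv
        have e : cstep I x ⟨l, pos, cnt⟩ = ⟨l', min (pos + 1) x.length, cnt⟩ := by
          simp [cstep, hI]
        rw [e]
        refine ⟨ds, h1, h2, Nat.min_le_right _ _, h4.trans ?_⟩
        refine reach_one I l₀ x _ l l' Mic.main Mic.main (pos + 1) (min (pos + 1) x.length + 1) ds
          Dir.right ?_ ?_ hS ho
        · simp [odelta, hI]
        · simp only [Dir.apply]; omega
      · exact absurd hI (hnh b')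
  obtain ⟨ds, -, -, -, t, ht, ht'⟩ := key n le_rfl
  refine ⟨t, ⟨?_, fun s hs => (ht' s hs).1⟩, fun s hs i => ?_⟩
  · have e : (otmOf I l₀).conf x t = _ := ht
    rw [e]
    change (match I ((cstep I x)^[n] ⟨l₀, 0, fun _ => 0⟩).l with
        | Ins.halt b => some b
        | _ => none) = some b
    rw [hb]
  · rcases Nat.lt_or_eq_of_le hs with h | h
    · exact (ht' s h).2 i
    · subst h
      have e : (otmOf I l₀).conf x s = _ := ht
      rw [e]
      exact Nat.succ_pos _

end Pool.Agent.BookPL
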