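import Pool.Agent.BookPL.Ctr

/-!
# Tapes holding a list of digits
-/

set_option autoImplicit false

namespace Pool.Agent.BookPL

open Pool.Agent.Book19

/-- Reading the digit at position `1 + |pre|`. -/
theorem tp_read (pre ds : List Bool) : tp (pre ++ ds) (pre.length + 1) = ds.head? := by
  simp only [tp]
  rw [List.getElem?_append_right le_rfl]
  simp [List.head?_eq_getElem?]

/-- Writing the digit at position `1 + |pre|`. -/
theorem tp_write (pre ds : List Bool) (b b' : Bool) :
    Function.update (tp (pre ++ b :: ds)) (pre.length + 1) (some b') = tp (pre ++ b' :: ds) := by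
  funext i
  rcases i with _ | i
  · simp [tp]
  · by_cases h : i = pre.length
    · subst h
      simp [tp]
    · rw [Function.update_of_ne (by omega)]
      simp only [tp]
      rcases lt_or_ge i pre.length with h1 | h1
      · rw [List.getElem?_append_left h1, List.getElem?_append_left h1]
      · rw [List.getElem?_append_right h1, List.getElem?_append_right h1]
        obtain ⟨k, hk⟩ : ∃ k, i - pre.length = k + 1 := ⟨i - pre.length - 1, by omega⟩
        rw [hk]
        rfl

/-- Writing a digit at the first blank cell. -/
theorem tp_write_end (pre : List Bool) (b' : Bool) :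
    Function.update (tp pre) (pre.length + 1) (some b') = tp (pre ++ [b']) := by
  funext i
  rcases i with _ | i
  · simp [tp]
  · by_cases h : i = pre.length
    · subst h
      simp [tp]
    · rw [Function.update_of_ne (by omega)]
      simp only [tp]
      rcases lt_or_ge i pre.length with h1 | h1
      · rw [List.getElem?_append_left h1]
      · rw [List.getElem?_append_right h1, List.getElem?_eq_none h1, List.getElem?_eq_none]
        simp
        omega

/-- Writing the scanned symbol. -/
theorem tp_same (ds : List Bool) (i : ℕ) : Function.update (tp ds) i (tp ds i) = tp ds :=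
  Function.update_eq_self _ _

/-- Cells `1, ..., |ds|` hold digits. -/
theorem tp_some (ds : List Bool) (i : ℕ) (h1 : 0 < i) (h2 : i ≤ ds.length) :
    ∃ b, tp ds i = some b := by
  obtain ⟨k, rfl⟩ : ∃ k, i = k + 1 := ⟨i - 1, by omega⟩
  exact ⟨ds[k]'(by omega), List.getElem?_eq_getElem (by omega)⟩

/-- The number with the digits `ds` is below `2 ^ |ds|`. -/
theorem dval_lt (ds : List Bool) : dval ds < 2 ^ ds.length := by
  induction ds with
  | nil => simp [dval]
  | cons b ds ih =>
    rw [dval, List.length_cons, pow_succ]
    split_ifs <;> omega

section cfg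

variable {A Λ : Type} [Fintype Λ] {N : ℕ} (I : Λ → Ins A Λ N) (l₀ : Λ)

/-- The configuration in phase `m` where the head on tape `r` is on cell `h` and the tape `r` holds
`T`. -/
def mcfg (l : Λ) (m : Mic) (pos : ℕ) (ds : Fin N → List Bool) (r : Fin N) (h : ℕ)
    (T : ℕ → Option Bool) : OCfg (otmOf I l₀).Q (otmOf I l₀).W (otmOf I l₀).k where
  q := some (l, m)
  pos := pos + 1
  head := fun i => if i = r then h else 0
  tape := fun i => if i = r then T else tp (ds i)

theorem mcfg_main (l : Λ) (pos : ℕ) (ds : Fin N → List Bool) (r : Fin N) (d : List Bool) :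
    mcfg I l₀ l Mic.main pos ds r 0 (tp d) = ocfg I l₀ l pos (Function.update ds r d) := by
  have e : ∀ i : Fin N, (if i = r then tp d else tp (ds i)) = tp (Function.update ds r d i) := by
    intro i
    by_cases h : i = r
    · subst h; simp
    · rw [if_neg h, Function.update_of_ne h]
  unfold mcfg ocfg
  congr 1
  · funext i; split_ifs <;> rfl
  · funext i
    exact e i

/-- One step acting on tape `r`. -/
theorem step_mcfg (x : List A) (l l' : Λ) (m m' : Mic) (pos : ℕ) (hp : pos ≤ x.length)
    (ds : Fin N → List Bool) (r : Fin N) (h : ℕ) (T : ℕ → Option Bool) (s : Option Bool) (d : Dir)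
    (hδ : ∀ (mk : Mark A) (w : Fin N → Option Bool), w r = T h →
      odelta I l₀ (some (l, m)) mk w = (some (l', m'), Dir.stay, act w r s d)) :
    (otmOf I l₀).step x (mcfg I l₀ l m pos ds r h T) =
      mcfg I l₀ l' m' pos ds r (Dir.apply d h) (Function.update T h s) := by
  have e1 : (otmOf I l₀).δ (mcfg I l₀ l m pos ds r h T).q
      (inputAt x (mcfg I l₀ l m pos ds r h T).pos)
      (fun i => (mcfg I l₀ l m pos ds r h T).tape i ((mcfg I l₀ l m pos ds r h T).head i)) =
      (some (l', m'), Dir.stay, act (fun i => (mcfg I l₀ l m pos ds r h T).tape i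
        ((mcfg I l₀ l m pos ds r h T).head i)) r s d) :=
    hδ _ _ (by simp [mcfg])
  have e2 : ∀ i : Fin N, Dir.apply (if i = r then (s, d) else
      ((if i = r then T else tp (ds i)) (if i = r then h else 0), Dir.stay)).2
      (if i = r then h else 0) = if i = r then Dir.apply d h else 0 := by
    intro i
    by_cases hi : i = r
    · simp only [if_pos hi]
    · simp only [if_neg hi]; rfl
  have e3 : ∀ i : Fin N, Function.update (if i = r then T else tp (ds i)) (if i = r then h else 0)
      (if i = r then (s, d) else ((if i = r then T else tp (ds i)) (if i = r then h else 0),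
        Dir.stay)).1 = if i = r then Function.update T h s else tp (ds i) := by
    intro i
    by_cases hi : i = r
    · simp only [if_pos hi]
    · simp only [if_neg hi]
      exact Function.update_eq_self _ _
  unfold OTM.step
  simp only [e1]
  unfold mcfg
  congr 1
  · simp only [Dir.apply]; omega
  · funext i
    exact e2 i
  · funext i
    exact e3 i

end cfg

end Pool.Agent.BookPL
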