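import Pool.Agent.Book19.Defs2

/-!
# Deterministic Turing machines with a read-only input tape, and the class POLYLOGSPACE
-/

set_option autoImplicit false

namespace Pool.Agent.BookPL

open Filter Topology Pool.Agent.Book19

/-- The symbols on the input tape: the left and right endmarkers and the letters. -/
inductive Mark (A : Type)
  | left
  | right
  | sym (a : A)

/-- The symbol at position `p` of the input tape holding `x`: the left endmarker at position `0`,
the letters of `x` at the positions `1, ..., |x|`, the right endmarker at position `|x| + 1`. -/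
def inputAt {A : Type} (x : List A) : ℕ → Mark A
  | 0 => Mark.left
  | p + 1 =>
      match x[p]? with
      | some a => Mark.sym a
      | none => Mark.right

/-- A deterministic Turing machine with a two-way read-only input tape and `k` work tapes, infinite
to the right and initially blank. In a state `q` with `out q = none` it reads the symbol on the
input tape and the `k` symbols on the work tapes, and `δ` gives the new state, the move on the input
tape and, for each work tape, the written symbol and the move; it stops in the states with
`out q = some b`, accepting if `b = true` and rejecting if `b = false`. -/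
structure OTM (A : Type) where
  k : ℕ
  W : Type
  [finW : Fintype W]
  blank : W
  Q : Type
  [finQ : Fintype Q]
  start : Q
  out : Q → Option Bool
  δ : Q → Mark A → (Fin k → W) → Q × Dir × (Fin k → W × Dir)

/-- Configurations: the state, the position on the input tape, the positions of the heads on the
work tapes, and the contents of the work tapes. -/
structure OCfg (Q W : Type) (k : ℕ) where
  q : Q
  pos : ℕ
  head : Fin k → ℕ
  tape : Fin k → ℕ → W

/-- Moving a head on a tape whose positions are `0, 1, 2, ...`. -/
def Dir.apply : Dir → ℕ → ℕ
  | Dir.left, p => p - 1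
  | Dir.stay, p => p
  | Dir.right, p => p + 1

/-- One step on the input `x`; the head on the input tape does not move beyond the right
endmarker. -/
def OTM.step {A : Type} (M : OTM A) (x : List A) (c : OCfg M.Q M.W M.k) : OCfg M.Q M.W M.k :=
  let r := M.δ c.q (inputAt x c.pos) (fun i => c.tape i (c.head i))
  { q := r.1
    pos := min (Dir.apply r.2.1 c.pos) (x.length + 1)
    head := fun i => Dir.apply (r.2.2 i).2 (c.head i)
    tape := fun i => Function.update (c.tape i) (c.head i) (r.2.2 i).1 }

/-- The initial configuration. -/
def OTM.init {A : Type} (M : OTM A) : OCfg M.Q M.W M.k :=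
  { q := M.start
    pos := 0
    head := fun _ => 0
    tape := fun _ _ => M.blank }

/-- The configuration after `t` steps on the input `x`. -/
def OTM.conf {A : Type} (M : OTM A) (x : List A) (t : ℕ) : OCfg M.Q M.W M.k :=
  (M.step x)^[t] M.init

/-- The computation of `M` on `x` stops after `t` steps with answer `b`. -/
def OTM.Gives {A : Type} (M : OTM A) (x : List A) (t : ℕ) (b : Bool) : Prop :=
  M.out (M.conf x t).q = some b ∧ ∀ s < t, M.out (M.conf x s).q = none

/-- In the first `t` steps the heads on the work tapes scan only the first `S` cells. -/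
def OTM.Space {A : Type} (M : OTM A) (x : List A) (t S : ℕ) : Prop :=
  ∀ s ≤ t, ∀ i, (M.conf x s).head i < S

/-- The class POLYLOGSPACE: `L` is decided by a deterministic machine which stops on every input
`x` and uses at most `(log n)^c` cells of the work tapes, where `n = |x|` and `log n` is
`⌊log₂ n⌋ + 2`. -/
def InPL (A : Type) (L : Set (List A)) : Prop :=
  ∃ (M : OTM A) (c : ℕ), ∀ x : List A, ∃ (t : ℕ) (b : Bool),
    M.Gives x t b ∧ M.Space x t ((Nat.log 2 x.length + 2) ^ c) ∧ (x ∈ L ↔ b = true)

/-- `f n = n^o(1)`: for every `c`, `f n ≤ n^(1/c)` for all large `n`. -/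
def SubPoly (f : ℕ → ℕ) : Prop :=
  ∀ c : ℕ, ∀ᶠ n in atTop, f n ^ c ≤ n

/-- `L` is in `𝒞/n^o(1)` up to `2^(n^o(1))` errors, for infinitely many lengths `n`
(`io = true`) or for all but finitely many lengths (`io = false`): there are `L' ∈ 𝒞`, advice
words `h n` of length `n^o(1)` and numbers `s n = n^o(1)` such that for these `n` membership in `L`
is given by `L'` with advice `h n` for all but at most `2^(s n)` words of length `n`. -/
def HeurSub (io : Bool) (𝒞 : ∀ A : Type, Set (List A) → Prop) {A : Type} (L : Set (List A)) :
    Prop :=
  ∃ (L' : Set (List (A × Option Bool))) (h : ℕ → List Bool) (s : ℕ → ℕ), 𝒞 _ L' ∧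
    SubPoly (fun n => (h n).length) ∧ SubPoly s ∧
    Often io (fun n => (Err L L' (h n) n).encard ≤ 2 ^ s n)

/-- `L` is in `𝒞/n` up to `2^(n-1)` errors, for infinitely many lengths `n` (`io = true`) or for
all but finitely many lengths (`io = false`): there are `L' ∈ 𝒞` and advice words `h n` (of which
only the first `n` bits are used) such that for these `n` membership in `L` is given by `L'` with
advice `h n` for all but at most `2^(n-1)` words of length `n`. -/
def HeurLin (io : Bool) (𝒞 : ∀ A : Type, Set (List A) → Prop) {A : Type} (L : Set (List A)) :
    Prop :=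
  ∃ (L' : Set (List (A × Option Bool))) (h : ℕ → List Bool), 𝒞 _ L' ∧
    Often io (fun n => (Err L L' (h n) n).encard ≤ 2 ^ (n - 1))

/-- Every language of `𝒟` over a finite alphabet is in `𝒞/n^o(1)` up to `2^(n^o(1))` errors. -/
def SubHeurSub (io : Bool) (𝒟 𝒞 : ∀ A : Type, Set (List A) → Prop) : Prop :=
  ∀ (A : Type) [Fintype A] (L : Set (List A)), 𝒟 A L → HeurSub io 𝒞 L

/-- Every language of `𝒟` over a finite alphabet is in `𝒞/n` up to `2^(n-1)` errors. -/
def SubHeurLin (io : Bool) (𝒟 𝒞 : ∀ A : Type, Set (List A) → Prop) : Prop :=
  ∀ (A : Type) [Fintype A] (L : Set (List A)), 𝒟 A L → HeurLin io 𝒞 L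

end Pool.Agent.BookPL
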