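import Pool.Agent.BookPL.Defs

/-!
# The alphabet of the diagonal language
-/

set_option autoImplicit false

namespace Pool.Agent.BookPL

/-- Letters: a code track (the program of the universal language), a digit of the length of the
padding, a free bit, and the advice tracks `v` (for the language of the time class) and `κ` (for
the universal language). -/
structure Sg where
  cd : Fin 10 → Bool
  d : Bool
  f : Bool
  v : Option Bool
  κ : Option Bool
  deriving DecidableEq, Fintype

/-- `u` padded to length `N`. -/
def padTo (u : List Sg) (N : ℕ) : List (Option Sg) :=
  u.map some ++ List.replicate (N - u.length) none

/-- The word which the program in `u` is run on: the letters of `u` with the advice `v`. -/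
def wv (u : List Sg) : List (Sg × Option Bool) := u.map fun a => (a, a.v)

end Pool.Agent.BookPL
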