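import Pool.Agent.BookPL.Ty

/-!
# Counter machines simulate typed stack programs
-/

set_option autoImplicit false

namespace Pool.Agent.BookPL

open Pool.Agent.PT

variable {A Γ Λ : Type} {N : ℕ}

/-- Register `r ≥ 2` is counter `r - 2`. -/
def creg (r : ℕ) : Fin (N + 1) := Fin.ofNat (N + 1) (r - 2)

/-- The instructions for a program with control points embedded by `ι` and exit label `ex`. -/
def cins (g : Γ → A) (u : A) : (p : Prog A) → (ι : Lab p → Λ) → (ex : Λ) → Lab p →
    Ins Γ Λ (N + 1)
  | .skip, _, ex, _ => Ins.goto ex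
  | .push r _, _, ex, _ =>
    if r = 0 then Ins.goto ex else if r = 1 then Ins.adv ex else Ins.inc (creg r) ex
  | .pop r p₀ p₁, ι, ex, l =>
    match l with
    | Sum.inl _ =>
      if r = 0 then Ins.look (ι (Sum.inr (Sum.inl (entry p₀))))
        (fun a => ι (Sum.inr (Sum.inr ⟨g a, entry (p₁ (g a))⟩)))
      else if r = 1 then Ins.back (ι (Sum.inr (Sum.inl (entry p₀))))
        (fun a => ι (Sum.inr (Sum.inr ⟨g a, entry (p₁ (g a))⟩)))
      else Ins.dec (creg r) (ι (Sum.inr (Sum.inl (entry p₀))))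
        (ι (Sum.inr (Sum.inr ⟨u, entry (p₁ u)⟩)))
    | Sum.inr (Sum.inl l) => cins g u p₀ (fun l => ι (Sum.inr (Sum.inl l))) ex l
    | Sum.inr (Sum.inr ⟨a, l⟩) => cins g u (p₁ a) (fun l => ι (Sum.inr (Sum.inr ⟨a, l⟩))) ex l
  | .seq p q, ι, ex, l =>
    match l with
    | Sum.inl l => cins g u p (fun l => ι (Sum.inl l)) (ι (Sum.inr (entry q))) l
    | Sum.inr l => cins g u q (fun l => ι (Sum.inr l)) ex l
  | .loop r p, ι, ex, l =>
    match l with
    | Sum.inl _ =>
      if r = 0 then Ins.look ex (fun a => ι (Sum.inr ⟨g a, entry (p (g a))⟩))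
      else if r = 1 then Ins.back ex (fun a => ι (Sum.inr ⟨g a, entry (p (g a))⟩))
      else Ins.dec (creg r) ex (ι (Sum.inr ⟨u, entry (p u)⟩))
    | Sum.inr ⟨a, l⟩ => cins g u (p a) (fun l => ι (Sum.inr ⟨a, l⟩)) (ι (Sum.inl ())) l

/-- The store `s` belongs to the head position `pos` on the input `x` and the counters `cnt`;
`hd` is the letter in hand. -/
structure Corr (g : Γ → A) (u : A) (x : List Γ) (hd : Option A) (s : Store A) (pos : ℕ)
    (cnt : Fin (N + 1) → ℕ) : Prop where
  le : pos ≤ x.length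
  s1 : s 1 = ((x.take pos).map g).reverse
  s0 : match hd with
    | none => s 0 = (x.drop pos).map g
    | some b => ∃ a, x[pos]? = some a ∧ b = g a ∧ s 0 = (x.drop (pos + 1)).map g
  cnt : ∀ r : Fin (N + 1), s (r.val + 2) = un u (cnt r)

/-! ### Runs of counter machines -/

private def PRun {Λ Γ : Type} {M : ℕ} (I : Λ → Ins Γ Λ M) (x : List Γ) (K t : ℕ)
    (c c' : CC Λ M) : Prop :=
  (cstep I x)^[t] c = c' ∧ ∀ i < t, (∀ b, I ((cstep I x)^[i] c).l ≠ Ins.halt b) ∧
    ∀ r, ((cstep I x)^[i] c).cnt r ≤ K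

private theorem PRun.trans {Λ Γ : Type} {M : ℕ} {I : Λ → Ins Γ Λ M} {x : List Γ} {K t t' : ℕ}
    {c c' c'' : CC Λ M} (h : PRun I x K t c c') (h' : PRun I x K t' c' c'') :
    PRun I x K (t + t') c c'' := by
  obtain ⟨h1, h2⟩ := h
  obtain ⟨h3, h4⟩ := h'
  refine ⟨by rw [Nat.add_comm, Function.iterate_add_apply, h1, h3], fun i hi => ?_⟩
  rcases lt_or_ge i t with hit | hit
  · exact h2 i hit
  · obtain ⟨d, rfl⟩ := Nat.exists_eq_add_of_le hit
    rw [Nat.add_comm, Function.iterate_add_apply, h1]
    exact h4 d (by omega)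

private theorem PRun.one {Λ Γ : Type} {M : ℕ} {I : Λ → Ins Γ Λ M} {x : List Γ} {K : ℕ}
    {c c' : CC Λ M} (h : cstep I x c = c') (hh : ∀ b, I c.l ≠ Ins.halt b)
    (hK : ∀ r, c.cnt r ≤ K) : PRun I x K 1 c c' := by
  refine ⟨h, fun i hi => ?_⟩
  obtain rfl : i = 0 := by omega
  exact ⟨hh, hK⟩

/-- The instruction popping register `r`. -/
private def pins {M : ℕ} (r : ℕ) (a0 : Λ) (f : Γ → Λ) (a1 : Λ) : Ins Γ Λ (M + 1) :=
  if r = 0 then Ins.look a0 f else if r = 1 then Ins.back a0 f else Ins.dec (creg r) a0 a1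

private theorem pins_ne {M : ℕ} (r : ℕ) (a0 : Λ) (f : Γ → Λ) (a1 : Λ) (b : Bool) :
    (pins r a0 f a1 : Ins Γ Λ (M + 1)) ≠ Ins.halt b := by
  unfold pins
  split_ifs <;> simp

private theorem creg_val {r : ℕ} (h2 : 2 ≤ r) (h : r < N + 3) :
    (creg r : Fin (N + 1)).val + 2 = r := by
  have : r - 2 < N + 1 := by omega
  simp only [creg, Fin.val_ofNat, Nat.mod_eq_of_lt this]
  omega

private theorem pop_nil {g : Γ → A} {u : A} {x : List Γ} {hd : Option A} {s : Store A} {pos : ℕ}
    {cnt : Fin (N + 1) → ℕ} (hc : Corr g u x hd s pos cnt) {r : ℕ} (hr : r < N + 3)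
    (hhd : r < 2 → hd = none) (h : s r = []) {I : Λ → Ins Γ Λ (N + 1)} {l a0 a1 : Λ} {f : Γ → Λ}
    (hI : I l = pins r a0 f a1) : cstep I x ⟨l, pos, cnt⟩ = ⟨a0, pos, cnt⟩ := by
  unfold pins at hI
  by_cases h0 : r = 0
  · subst h0
    obtain rfl := hhd (by omega)
    rw [if_pos rfl] at hI
    have e := hc.s0
    simp only at e
    rw [h] at e
    have e1 : x.drop pos = [] := List.map_eq_nil_iff.1 e.symm
    have e2 : x.length ≤ pos := List.drop_eq_nil_iff.1 e1
    have e3 : x[pos]? = none := List.getElem?_eq_none e2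
    simp only [cstep, hI, e3]
  · rw [if_neg h0] at hI
    by_cases h1 : r = 1
    · subst h1
      rw [if_pos rfl] at hI
      have e := hc.s1
      rw [h] at e
      have e1 : x.take pos = [] := by
        have := e.symm
        simpa using this
      have hp : pos = 0 := by
        rcases List.take_eq_nil_iff.1 e1 with h | h
        · exact h
        · have := hc.le
          subst h
          simpa using this
      simp only [cstep, hI, hp, if_true]
    · rw [if_neg h1] at hI
      have hv := creg_val (N := N) (show 2 ≤ r by omega) hr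
      have e := hc.cnt (creg r)
      rw [hv, h] at e
      have e1 : cnt (creg r) = 0 := by
        have := congrArg List.length e
        simpa [un] using this.symm
      simp only [cstep, hI, e1, if_true]

private theorem pop_cons01 {g : Γ → A} {u : A} {x : List Γ} {s : Store A} {pos : ℕ}
    {cnt : Fin (N + 1) → ℕ} (hc : Corr g u x none s pos cnt) {r : ℕ} (hr : r < 2) {a : A}
    {t : List A} (h : s r = a :: t) {I : Λ → Ins Γ Λ (N + 1)} {l a0 a1 : Λ} {F : A → Λ}
    (hI : I l = pins r a0 (fun c => F (g c)) a1) : ∃ pos', cstep I x ⟨l, pos, cnt⟩ =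
      ⟨F a, pos', cnt⟩ ∧ Corr g u x (some a) (Function.update s r t) pos' cnt := by
  unfold pins at hI
  by_cases h0 : r = 0
  · subst h0
    rw [if_pos rfl] at hI
    have e := hc.s0
    simp only at e
    rw [h] at e
    have hlt : pos < x.length := by
      by_contra hcon
      rw [List.drop_eq_nil_of_le (by omega)] at e
      simp at e
    rw [List.drop_eq_getElem_cons hlt, List.map_cons] at e
    obtain ⟨e1, e2⟩ := List.cons.inj e
    have e3 : x[pos]? = some x[pos] := List.getElem?_eq_getElem hlt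
    refine ⟨pos, ?_, hc.le, ?_, ?_, ?_⟩
    · simp only [cstep, hI, e3, e1]
    · rw [Function.update_of_ne (by decide)]
      exact hc.s1
    · exact ⟨x[pos], e3, e1, by rw [Function.update_self, e2]⟩
    · intro r
      rw [Function.update_of_ne (by omega)]
      exact hc.cnt r
  · obtain rfl : r = 1 := by omega
    rw [if_neg h0, if_pos rfl] at hI
    have e := hc.s1
    rw [h] at e
    have hp : pos ≠ 0 := by
      intro hp
      subst hp
      simp at e
    obtain ⟨q, rfl⟩ := Nat.exists_eq_succ_of_ne_zero hp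
    have hlt : q < x.length := hc.le
    rw [List.take_succ_eq_append_getElem hlt] at e
    simp only [List.map_append, List.map_cons, List.map_nil, List.reverse_append,
      List.reverse_cons, List.reverse_nil, List.nil_append, List.cons_append] at e
    obtain ⟨e1, e2⟩ := List.cons.inj e
    have e3 : x[q]? = some x[q] := List.getElem?_eq_getElem hlt
    refine ⟨q, ?_, by omega, ?_, ?_, ?_⟩
    · simp only [cstep, hI, Nat.succ_eq_add_one, Nat.add_sub_cancel, e3, e1, if_neg hp]
    · rw [Function.update_self, e2]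
    · refine ⟨x[q], e3, e1, ?_⟩
      rw [Function.update_of_ne (by decide)]
      exact hc.s0
    · intro r
      rw [Function.update_of_ne (by omega)]
      exact hc.cnt r

private theorem pop_cons2 {g : Γ → A} {u : A} {x : List Γ} {hd : Option A} {s : Store A} {pos : ℕ}
    {cnt : Fin (N + 1) → ℕ} (hc : Corr g u x hd s pos cnt) {r : ℕ} (h2 : 2 ≤ r)
    (hr : r < N + 3) {a : A} {t : List A} (h : s r = a :: t) {I : Λ → Ins Γ Λ (N + 1)}
    {l a0 a1 : Λ} {f : Γ → Λ} (hI : I l = pins r a0 f a1) :
    a = u ∧ ∃ cnt', (∀ i, cnt' i ≤ cnt i) ∧ cstep I x ⟨l, pos, cnt⟩ = ⟨a1, pos, cnt'⟩ ∧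
      Corr g u x hd (Function.update s r t) pos cnt' := by
  unfold pins at hI
  rw [if_neg (by omega), if_neg (by omega)] at hI
  have hv := creg_val (N := N) h2 hr
  have e := hc.cnt (creg r)
  rw [hv, h] at e
  have hne : cnt (creg r) ≠ 0 := by
    intro h0
    rw [h0] at e
    simp [un] at e
  obtain ⟨m, hm⟩ := Nat.exists_eq_succ_of_ne_zero hne
  rw [hm, un, List.replicate_succ] at e
  obtain ⟨e1, e2⟩ := List.cons.inj e
  refine ⟨e1, Function.update cnt (creg r) m, ?_, ?_, hc.le, ?_, ?_, ?_⟩
  · intro i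
    by_cases hi : i = creg r
    · subst hi
      rw [Function.update_self, hm]
      omega
    · rw [Function.update_of_ne hi]
  · simp only [cstep, hI, hm, if_neg (Nat.succ_ne_zero m), Nat.succ_eq_add_one,
      Nat.add_sub_cancel]
  · rw [Function.update_of_ne (by omega)]
    exact hc.s1
  · cases hd with
    | none =>
      simp only
      rw [Function.update_of_ne (by omega)]
      exact hc.s0
    | some b =>
      obtain ⟨c, hc1, hc2, hc3⟩ := hc.s0
      refine ⟨c, hc1, hc2, ?_⟩
      rw [Function.update_of_ne (by omega)]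
      exact hc3
  · intro i
    by_cases hi : i = creg r
    · subst hi
      rw [hv, Function.update_self, Function.update_self, e2]
      rfl
    · have : i.val + 2 ≠ r := by
        intro hir
        apply hi
        apply Fin.ext
        omega
      rw [Function.update_of_ne this, Function.update_of_ne hi]
      exact hc.cnt i

private theorem ctr_sim_aux (g : Γ → A) (u : A) {p : Prog A} {s s' : Store A} {t : ℕ}
    (h : Exec p s s' t) :
    p.Bdd (N + 3) → ∀ {hd hd' : Option A}, Ty u hd p hd' →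
      ∀ (I : Λ → Ins Γ Λ (N + 1)) (ι : Lab p → Λ) (ex : Λ), (∀ l, I (ι l) = cins g u p ι ex l) →
      ∀ (x : List Γ) (pos : ℕ) (cnt : Fin (N + 1) → ℕ) (K : ℕ), Corr g u x hd s pos cnt →
      (∀ r, cnt r + t ≤ K) →
      ∃ (pos' : ℕ) (cnt' : Fin (N + 1) → ℕ), Corr g u x hd' s' pos' cnt' ∧
        (∀ r, cnt' r ≤ cnt r + t) ∧ PRun I x K t ⟨ι (entry p), pos, cnt⟩ ⟨ex, pos', cnt'⟩ := by
  induction h with
  | skip s =>
    intro _ hd hd' hty I ι ex hM x pos cnt K hc hK
    cases hty
    have hI := hM ()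
    simp only [cins] at hI
    refine ⟨pos, cnt, hc, fun r => by omega, PRun.one ?_ ?_ fun r => ?_⟩
    · simp only [cstep, entry, hI]
    · simp only [entry, hI]
      simp
    · have := hK r
      simp only
      omega
  | push r a s =>
    intro hb hd hd' hty I ι ex hM x pos cnt K hc hK
    have hI := hM ()
    simp only [cins] at hI
    have hb' : r < N + 3 := hb
    cases hty with
    | push0 b =>
      rw [if_pos rfl] at hI
      obtain ⟨c, hc1, hc2, hc3⟩ := hc.s0
      refine ⟨pos, cnt, ⟨hc.le, ?_, ?_, ?_⟩, fun r => by omega, PRun.one ?_ ?_ fun r => ?_⟩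
      · rw [Function.update_of_ne (by decide)]
        exact hc.s1
      · simp only
        obtain ⟨hlt, hget⟩ := List.getElem?_eq_some_iff.1 hc1
        rw [Function.update_self, List.drop_eq_getElem_cons hlt, List.map_cons, hc3, hget, hc2]
      · intro r
        rw [Function.update_of_ne (by omega)]
        exact hc.cnt r
      · simp only [cstep, entry, hI]
      · simp only [entry, hI]
        simp
      · have := hK r
        simp only
        omega
    | push1 b =>
      rw [if_neg (by decide), if_pos rfl] at hI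
      obtain ⟨c, hc1, hc2, hc3⟩ := hc.s0
      obtain ⟨hlt, hget⟩ := List.getElem?_eq_some_iff.1 hc1
      refine ⟨pos + 1, cnt, ⟨hlt, ?_, ?_, ?_⟩, fun r => by omega, PRun.one ?_ ?_ fun r => ?_⟩
      · rw [Function.update_self, List.take_succ_eq_append_getElem hlt, hget, hc.s1]
        simp [hc2]
      · simp only
        rw [Function.update_of_ne (by decide)]
        exact hc3
      · intro r
        rw [Function.update_of_ne (by omega)]
        exact hc.cnt r
      · simp only [cstep, entry, hI]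
        rw [Nat.min_eq_left hlt]
      · simp only [entry, hI]
        simp
      · have := hK r
        simp only
        omega
    | push _ _ hr =>
      rw [if_neg (by omega), if_neg (by omega)] at hI
      have hv := creg_val (N := N) hr hb'
      refine ⟨pos, Function.update cnt (creg r) (cnt (creg r) + 1), ⟨hc.le, ?_, ?_, ?_⟩,
        fun i => ?_, PRun.one ?_ ?_ fun r => ?_⟩
      · rw [Function.update_of_ne (by omega)]
        exact hc.s1
      · cases hd with
        | none =>
          simp only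
          rw [Function.update_of_ne (by omega)]
          exact hc.s0
        | some b =>
          obtain ⟨c, hc1, hc2, hc3⟩ := hc.s0
          refine ⟨c, hc1, hc2, ?_⟩
          rw [Function.update_of_ne (by omega)]
          exact hc3
      · intro i
        by_cases hi : i = creg r
        · subst hi
          have e := hc.cnt (creg r)
          rw [hv] at e
          rw [hv, Function.update_self, Function.update_self, e]
          rfl
        · have : i.val + 2 ≠ r := by
            intro hir
            apply hi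
            apply Fin.ext
            omega
          rw [Function.update_of_ne this, Function.update_of_ne hi]
          exact hc.cnt i
      · by_cases hi : i = creg r
        · subst hi
          rw [Function.update_self]
        · rw [Function.update_of_ne hi]
          omega
      · simp only [cstep, entry, hI]
      · simp only [entry, hI]
        simp
      · have := hK r
        simp only
        omega
  | @popNil r p₀ p₁ s s' t h _ ih =>
    intro hb hd hd' hty I ι ex hM x pos cnt K hc hK
    have hI : I (ι (Sum.inl ())) = pins r (ι (Sum.inr (Sum.inl (entry p₀))))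
        (fun a => ι (Sum.inr (Sum.inr ⟨g a, entry (p₁ (g a))⟩)))
        (ι (Sum.inr (Sum.inr ⟨u, entry (p₁ u)⟩))) := hM (Sum.inl ())
    have key : ∀ hd1, Ty u hd p₀ hd' → (r < 2 → hd = none) → hd1 = hd →
      ∃ (pos' : ℕ) (cnt' : Fin (N + 1) → ℕ), Corr g u x hd' s' pos' cnt' ∧
        (∀ r, cnt' r ≤ cnt r + (t + 1)) ∧
        PRun I x K (t + 1) ⟨ι (entry (Prog.pop r p₀ p₁)), pos, cnt⟩ ⟨ex, pos', cnt'⟩ := by
      intro _ h0 hr2 _
      obtain ⟨pos', cnt', h1, h2, h3⟩ := ih hb.2.1 h0 I (fun l => ι (Sum.inr (Sum.inl l))) ex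
        (fun l => hM (Sum.inr (Sum.inl l))) x pos cnt K hc (fun r => by have := hK r; omega)
      refine ⟨pos', cnt', h1, fun r => by have := h2 r; omega, ?_⟩
      rw [Nat.add_comm t 1]
      refine PRun.trans (PRun.one (pop_nil hc hb.1 hr2 h hI) ?_ ?_) h3
      · intro b
        change I (ι (Sum.inl ())) ≠ _
        rw [hI]
        exact pins_ne _ _ _ _ _
      · intro r
        have := hK r
        simp only
        omega
    cases hty with
    | pop01 _ hr _ _ _ h0 h1 => exact key _ h0 (fun _ => rfl) rfl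
    | pop _ _ _ hr _ _ h0 h1 => exact key _ h0 (fun hr' => absurd hr (by omega)) rfl
  | @popCons r p₀ p₁ s s' t a l h _ ih =>
    intro hb hd hd' hty I ι ex hM x pos cnt K hc hK
    have hI : I (ι (Sum.inl ())) = pins r (ι (Sum.inr (Sum.inl (entry p₀))))
        (fun a => ι (Sum.inr (Sum.inr ⟨g a, entry (p₁ (g a))⟩)))
        (ι (Sum.inr (Sum.inr ⟨u, entry (p₁ u)⟩))) := hM (Sum.inl ())
    have hne : ∀ b, I (ι (entry (Prog.pop r p₀ p₁))) ≠ Ins.halt b := by
      intro b
      change I (ι (Sum.inl ())) ≠ _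
      rw [hI]
      exact pins_ne _ _ _ _ _
    cases hty with
    | pop01 _ hr _ _ _ h0 h1 =>
      obtain ⟨pos1, hs, hc1⟩ := pop_cons01 hc hr h (F := fun a =>
        ι (Sum.inr (Sum.inr ⟨a, entry (p₁ a)⟩))) hI
      obtain ⟨pos', cnt', h1, h2, h3⟩ := ih (hb.2.2 a) (h1 a) I
        (fun l => ι (Sum.inr (Sum.inr ⟨a, l⟩))) ex
        (fun l => hM (Sum.inr (Sum.inr ⟨a, l⟩))) x pos1 cnt K hc1
        (fun r => by have := hK r; omega)
      refine ⟨pos', cnt', h1, fun r => by have := h2 r; omega, ?_⟩
      rw [Nat.add_comm t 1]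
      refine PRun.trans (PRun.one hs hne ?_) h3
      intro r
      have := hK r
      simp only
      omega
    | pop _ _ _ hr _ _ h0 h1 =>
      obtain ⟨rfl, cnt1, hle, hs, hc1⟩ := pop_cons2 hc hr hb.1 h hI
      obtain ⟨pos', cnt', h1, h2, h3⟩ := ih (hb.2.2 a) h1 I
        (fun l => ι (Sum.inr (Sum.inr ⟨a, l⟩))) ex
        (fun l => hM (Sum.inr (Sum.inr ⟨a, l⟩))) x pos cnt1 K hc1
        (fun r => by have := hK r; have := hle r; omega)
      refine ⟨pos', cnt', h1, fun r => by have := h2 r; have := hle r; omega, ?_⟩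
      rw [Nat.add_comm t 1]
      refine PRun.trans (PRun.one hs hne ?_) h3
      intro r
      have := hK r
      simp only
      omega
  | @seq p q s s' s'' t t' _ _ ih1 ih2 =>
    intro hb hd hd' hty I ι ex hM x pos cnt K hc hK
    cases hty with
    | seq _ h' _ _ _ h0 h1 =>
      obtain ⟨pos1, cnt1, hc1, hle, h3⟩ := ih1 hb.1 h0 I (fun l => ι (Sum.inl l))
        (ι (Sum.inr (entry q))) (fun l => hM (Sum.inl l)) x pos cnt K hc
        (fun r => by have := hK r; omega)
      obtain ⟨pos2, cnt2, hc2, hle2, h4⟩ := ih2 hb.2 h1 I (fun l => ι (Sum.inr l)) ex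
        (fun l => hM (Sum.inr l)) x pos1 cnt1 K hc1
        (fun r => by have := hK r; have := hle r; omega)
      exact ⟨pos2, cnt2, hc2, fun r => by have := hle r; have := hle2 r; omega,
        PRun.trans h3 h4⟩
  | @loopNil r p s h =>
    intro hb hd hd' hty I ι ex hM x pos cnt K hc hK
    have hI : I (ι (Sum.inl ())) = pins r ex
        (fun a => ι (Sum.inr ⟨g a, entry (p (g a))⟩))
        (ι (Sum.inr ⟨u, entry (p u)⟩)) := hM (Sum.inl ())
    have hne : ∀ b, I (ι (entry (Prog.loop r p))) ≠ Ins.halt b := by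
      intro b
      change I (ι (Sum.inl ())) ≠ _
      rw [hI]
      exact pins_ne _ _ _ _ _
    have hcK : ∀ r, cnt r ≤ K := fun r => by have := hK r; omega
    cases hty with
    | loop01 _ hr _ h0 =>
      exact ⟨pos, cnt, hc, fun r => by omega,
        PRun.one (pop_nil hc hb.1 (fun _ => rfl) h hI) hne hcK⟩
    | loop _ _ hr _ h0 =>
      exact ⟨pos, cnt, hc, fun r => by omega,
        PRun.one (pop_nil hc hb.1 (fun hr' => absurd hr (by omega)) h hI) hne hcK⟩
  | @loopCons r p s s' s'' t t' a l h _ _ ih1 ih2 =>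
    intro hb hd hd' hty I ι ex hM x pos cnt K hc hK
    have hI : I (ι (Sum.inl ())) = pins r ex
        (fun a => ι (Sum.inr ⟨g a, entry (p (g a))⟩))
        (ι (Sum.inr ⟨u, entry (p u)⟩)) := hM (Sum.inl ())
    have hne : ∀ b, I (ι (entry (Prog.loop r p))) ≠ Ins.halt b := by
      intro b
      change I (ι (Sum.inl ())) ≠ _
      rw [hI]
      exact pins_ne _ _ _ _ _
    have hcK : ∀ r, cnt r ≤ K := fun r => by have := hK r; omega
    have hty' := hty
    have e : t + t' + 1 = 1 + (t + t') := by omega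
    cases hty with
    | loop01 _ hr _ h0 =>
      obtain ⟨pos1, hs, hc1⟩ := pop_cons01 hc hr h (F := fun a =>
        ι (Sum.inr ⟨a, entry (p a)⟩)) hI
      obtain ⟨pos2, cnt2, hc2, hle2, h2⟩ := ih1 (hb.2 a) (h0 a) I
        (fun l => ι (Sum.inr ⟨a, l⟩)) (ι (Sum.inl ()))
        (fun l => hM (Sum.inr ⟨a, l⟩)) x pos1 cnt K hc1
        (fun r => by have := hK r; omega)
      obtain ⟨pos3, cnt3, hc3, hle3, h3⟩ := ih2 hb hty' I ι ex hM x pos2 cnt2 K hc2
        (fun r => by have := hK r; have := hle2 r; omega)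
      refine ⟨pos3, cnt3, hc3, fun r => by have := hle2 r; have := hle3 r; omega, ?_⟩
      rw [e]
      exact PRun.trans (PRun.one hs hne hcK) (PRun.trans h2 h3)
    | loop _ _ hr _ h0 =>
      obtain ⟨rfl, cnt1, hle, hs, hc1⟩ := pop_cons2 hc hr hb.1 h hI
      obtain ⟨pos2, cnt2, hc2, hle2, h2⟩ := ih1 (hb.2 a) h0 I
        (fun l => ι (Sum.inr ⟨a, l⟩)) (ι (Sum.inl ()))
        (fun l => hM (Sum.inr ⟨a, l⟩)) x pos cnt1 K hc1
        (fun r => by have := hK r; have := hle r; omega)
      obtain ⟨pos3, cnt3, hc3, hle3, h3⟩ := ih2 hb hty' I ι ex hM x pos2 cnt2 K hc2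
        (fun r => by have := hK r; have := hle r; have := hle2 r; omega)
      refine ⟨pos3, cnt3, hc3, fun r => by
        have := hle r; have := hle2 r; have := hle3 r; omega, ?_⟩
      rw [e]
      exact PRun.trans (PRun.one hs hne hcK) (PRun.trans h2 h3)

/-- The counter machine simulates the program. -/
theorem ctr_sim (g : Γ → A) (u : A) {p : Prog A} {s s' : Store A} {t : ℕ} (h : Exec p s s' t) :
    p.Bdd (N + 3) → ∀ {hd hd' : Option A}, Ty u hd p hd' →
      ∀ (I : Λ → Ins Γ Λ (N + 1)) (ι : Lab p → Λ) (ex : Λ), (∀ l, I (ι l) = cins g u p ι ex l) →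
      ∀ (x : List Γ) (pos : ℕ) (cnt : Fin (N + 1) → ℕ) (K : ℕ), Corr g u x hd s pos cnt →
      (∀ r, cnt r + t ≤ K) →
      ∃ (pos' : ℕ) (cnt' : Fin (N + 1) → ℕ), Corr g u x hd' s' pos' cnt' ∧
        (∀ r, cnt' r ≤ cnt r + t) ∧
        (cstep I x)^[t] ⟨ι (entry p), pos, cnt⟩ = ⟨ex, pos', cnt'⟩ ∧
        ∀ i < t, (∀ b, I ((cstep I x)^[i] ⟨ι (entry p), pos, cnt⟩).l ≠ Ins.halt b) ∧
          ∀ r, ((cstep I x)^[i] ⟨ι (entry p), pos, cnt⟩).cnt r ≤ K := by
  intro hb hd hd' hty I ι ex hM x pos cnt K hc hK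
  exact ctr_sim_aux g u h hb hty I ι ex hM x pos cnt K hc hK

end Pool.Agent.BookPL
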