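import Pool.Agent.BookPL.QB
import Pool.Agent.BookPL.CtrOTM
import Pool.Agent.BookPL.ProgCtr

/-!
# Languages decided by typed stack programs in quasi-polynomial time are in POLYLOGSPACE
-/

set_option autoImplicit false

namespace Pool.Agent.BookPL

open Pool.Agent.PT

/-- The counter program: after the simulation of `p` counter `ro - 2` is tested. -/
private def ofProgI {A Γ : Type} (g : Γ → A) (u : A) (p : Prog A) (ro N : ℕ) :
    Lab p ⊕ Fin 3 → Ins Γ (Lab p ⊕ Fin 3) (N + 1)
  | Sum.inl l => cins g u p Sum.inl (Sum.inr 0) l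
  | Sum.inr 0 => Ins.dec (creg ro) (Sum.inr 1) (Sum.inr 2)
  | Sum.inr 1 => Ins.halt false
  | Sum.inr 2 => Ins.halt true

theorem inPL_of_prog {A Γ : Type} [Fintype A] (g : Γ → A) (u : A) {L : Set (List Γ)} (p : Prog A)
    (hp : Ty u none p none) (ro : ℕ) (hro : 2 ≤ ro) (bd : ℕ → ℕ) (hbd : QB bd)
    (h : ∀ x : List Γ, ∃ s', Runs p (single 0 (x.map g)) s' (bd x.length) ∧
      (x ∈ L ↔ s' ro ≠ [])) : InPL Γ L := by
  obtain ⟨n0, hn0⟩ := p.exists_bdd
  set N := n0 + ro with hN
  have hb : p.Bdd (N + 3) := hn0.mono (by omega)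
  letI := Lab.fintype p
  obtain ⟨M, hM⟩ := exists_otm (ofProgI (Γ := Γ) g u p ro N) (Sum.inl (entry p))
  obtain ⟨c, hc⟩ := hbd.log 3
  refine ⟨M, c, fun x => ?_⟩
  obtain ⟨s', ⟨t, ht, hex⟩, hxL⟩ := h x
  have hcorr : Corr (N := N) g u x none (single 0 (x.map g)) 0 (fun _ => 0) :=
    { le := Nat.zero_le _
      s1 := by simp [single]
      s0 := by simp [single]
      cnt := fun r => by simp [single] }
  obtain ⟨pos', cnt', hcorr', hle, hit, hrun⟩ := ctr_sim g u hex hb hp
    (ofProgI (Γ := Γ) g u p ro N) Sum.inl (Sum.inr 0) (fun l => rfl) x 0 (fun _ => 0) t hcorr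
    (fun r => by simp)
  have hcr : ((creg ro : Fin (N + 1)).val) + 2 = ro := by
    have h1 : (creg ro : Fin (N + 1)).val = ro - 2 := by
      simp only [creg, Fin.val_ofNat]
      exact Nat.mod_eq_of_lt (by omega)
    omega
  have hso : s' ro = un u (cnt' (creg ro)) := by
    rw [← hcorr'.cnt, hcr]
  have htB : t < 2 ^ (Nat.log 2 (bd x.length) + 1) :=
    lt_of_le_of_lt ht (Nat.lt_pow_succ_log_self (by norm_num) _)
  have hstep : (cstep (ofProgI (Γ := Γ) g u p ro N) x)^[t + 1]
      ⟨Sum.inl (entry p), 0, fun _ => 0⟩ =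
      if cnt' (creg ro) = 0 then ⟨Sum.inr 1, pos', cnt'⟩ else
        ⟨Sum.inr 2, pos', Function.update cnt' (creg ro) (cnt' (creg ro) - 1)⟩ := by
    rw [Function.iterate_succ_apply', hit]
    rfl
  have hcnt' : ∀ r, cnt' r ≤ t := fun r => by simpa using hle r
  obtain ⟨t', hg, hs⟩ := hM x (Nat.log 2 (bd x.length) + 1) (t + 1) (decide (cnt' (creg ro) ≠ 0))
    (by
      rw [hstep]
      by_cases h0 : cnt' (creg ro) = 0
      · rw [if_pos h0]
        simp [ofProgI, h0]
      · rw [if_neg h0]
        simp [ofProgI, h0])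
    (by
      intro i hi b'
      rcases Nat.lt_succ_iff_lt_or_eq.1 hi with h1 | h1
      · exact (hrun i h1).1 b'
      · subst h1
        rw [hit]
        simp [ofProgI])
    (by
      intro i hi r
      rcases Nat.lt_or_ge i t with h1 | h1
      · exact lt_of_le_of_lt ((hrun i h1).2 r) htB
      · have h2 : i = t ∨ i = t + 1 := by omega
        rcases h2 with rfl | rfl
        · rw [hit]
          exact lt_of_le_of_lt (hcnt' r) htB
        · rw [hstep]
          refine lt_of_le_of_lt ?_ htB
          split_ifs with h0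
          · exact hcnt' r
          · by_cases hr : r = creg ro
            · subst hr
              simp only [Function.update_self]
              exact (Nat.sub_le _ _).trans (hcnt' _)
            · simp only [Function.update_of_ne hr]
              exact hcnt' r)
  refine ⟨t', _, hg, fun s hst i => lt_of_lt_of_le (hs s hst i) (hc x.length), ?_⟩
  rw [hxL, hso, decide_eq_true_iff]
  constructor
  · intro h1 h2
    exact h1 (by rw [h2]; rfl)
  · intro h1 h2
    apply h1
    have := congrArg List.length h2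
    simpa using this

end Pool.Agent.BookPL
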