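import Pool.Agent.BookPL.Letters

/-!
# The padded word
-/

set_option autoImplicit false

namespace Pool.Agent.BookPL

open Pool.Agent.Book19

/-- The padding ends at `i`: the digits of `i` are those on the digit track of `u`, or `i` is
large. -/
def StopAt (u : List Sg) (i : ℕ) : Prop :=
  (∀ j < u.length, (u[j]?.map Sg.d = some true ↔ i.testBit j = true)) ∨
    (Nat.log 2 u.length + 2) ^ 2 ≤ Nat.log 2 i

theorem exists_stopAt (u : List Sg) : ∃ i, StopAt u i :=
  ⟨2 ^ ((Nat.log 2 u.length + 2) ^ 2), Or.inr (by rw [Nat.log_pow (by norm_num)])⟩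

open Classical in
/-- The length of the padding. -/
noncomputable def Dn (u : List Sg) : ℕ := Nat.find (exists_stopAt u)

/-- The padded word with the advice `κ` of `u`. -/
noncomputable def Zw (u : List Sg) : List (Option Sg × Option Bool) :=
  u.map (fun a => (some a, a.κ)) ++ List.replicate (Dn u) (none, none)

theorem Dn_le (u : List Sg) : Dn u ≤ 2 ^ ((Nat.log 2 u.length + 2) ^ 2) := by
  classical
  exact Nat.find_min' (exists_stopAt u) (Or.inr (by rw [Nat.log_pow (by norm_num)]))

theorem Dn_eq (u : List Sg) (D : ℕ)
    (hD : ∀ j < u.length, (u[j]?.map Sg.d = some true ↔ D.testBit j = true))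
    (h1 : D < 2 ^ u.length) (h2 : Nat.log 2 D < (Nat.log 2 u.length + 2) ^ 2) : Dn u = D := by
  classical
  refine (Nat.find_eq_iff (exists_stopAt u)).2 ⟨Or.inl hD, fun i hi h => ?_⟩
  rcases h with h | h
  · have h3 : i = D := by
      refine Nat.eq_of_testBit_eq fun j => ?_
      rcases lt_or_ge j u.length with hj | hj
      · rw [Bool.eq_iff_iff, ← h j hj, ← hD j hj]
      · rw [Nat.testBit_lt_two_pow (lt_of_lt_of_le (lt_trans hi h1) (Nat.pow_le_pow_right (by norm_num) hj)),
          Nat.testBit_lt_two_pow (lt_of_lt_of_le h1 (Nat.pow_le_pow_right (by norm_num) hj))]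
    omega
  · have h3 : Nat.log 2 i ≤ Nat.log 2 D := Nat.log_mono_right hi.le
    omega

private theorem pad_trk_rep (m : ℕ) : trk (List.replicate m (none : Option Sg)) [] =
    List.replicate m (none, none) := by
  induction m with
  | zero => rfl
  | succ m ih => rw [List.replicate_succ, List.replicate_succ, trk, ih]

private theorem pad_trk (u : List Sg) (κ : List Bool) (m : ℕ)
    (hκ : ∀ (p : ℕ) (a : Sg), u[p]? = some a → a.κ = κ[p]?) (hl : κ.length ≤ u.length) :
    trk (u.map some ++ List.replicate m none) κ =
      u.map (fun a => (some a, a.κ)) ++ List.replicate m (none, none) := by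
  induction u generalizing κ with
  | nil =>
    have h : κ = [] := List.length_eq_zero_iff.1 (Nat.le_zero.1 hl)
    subst h
    exact pad_trk_rep m
  | cons a u ih =>
    cases κ with
    | nil =>
      have h0 : a.κ = none := by simpa using hκ 0 a (by simp)
      have h1 := ih [] (fun p b hp => by simpa using hκ (p + 1) b (by simpa using hp)) (by simp)
      simp only [List.map_cons, List.cons_append, trk, h0, h1]
    | cons c κ =>
      have h0 : a.κ = some c := by simpa using hκ 0 a (by simp)
      have h1 := ih κ (fun p b hp => by simpa using hκ (p + 1) b (by simpa using hp))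
        (by simpa using hl)
      simp only [List.map_cons, List.cons_append, trk, h0, h1]

theorem trk_padTo (u : List Sg) (κ : List Bool) (N : ℕ)
    (hκ : ∀ (p : ℕ) (a : Sg), u[p]? = some a → a.κ = κ[p]?) (hl : κ.length ≤ u.length) (hN : u.length ≤ N)
    (hD : Dn u = N - u.length) : trk (padTo u N) κ = Zw u := by
  rw [padTo, Zw, hD]
  exact pad_trk u κ _ hκ hl

theorem trk_wv (u : List Sg) (v : List Bool) (hv : ∀ (p : ℕ) (a : Sg), u[p]? = some a → a.v = v[p]?) :
    trk u v = wv u := by
  rw [wv]
  induction u generalizing v with
  | nil => rfl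
  | cons a u ih =>
    cases v with
    | nil =>
      have h0 : a.v = none := by simpa using hv 0 a (by simp)
      have h1 := ih [] (fun p b hp => by simpa using hv (p + 1) b (by simpa using hp))
      simp only [List.map_cons, trk, h0, h1]
    | cons c v =>
      have h0 : a.v = some c := by simpa using hv 0 a (by simp)
      have h1 := ih v (fun p b hp => by simpa using hv (p + 1) b (by simpa using hp))
      simp only [List.map_cons, trk, h0, h1]

end Pool.Agent.BookPL
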