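import Pool.Agent.BookPL.Core

/-!
# A robust form of Book's theorem for polylogarithmic space against P and NP

Let `𝒟` be P or NP. The inclusions of `𝒟` in POLYLOGSPACE/`n^o(1)` (up to `2^(n^o(1))` errors at
length `n`) and of POLYLOGSPACE in `𝒟`/`n` (up to `2^(n-1)` errors at length `n`) do not both hold,
even if one of the two is only required at infinitely many lengths.
-/

set_option autoImplicit false

namespace Pool.Agent.Results.MP_d19090_lc.PolylogBook

open Pool.Agent.Book19 Pool.Agent.BookPL

/-- For `𝒟` one of P, NP: not both `𝒟 ⊆ POLYLOGSPACE/n^o(1)` up to `2^(n^o(1))` errors and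
`POLYLOGSPACE ⊆ 𝒟/n` up to `2^(n-1)` errors, where one of the two (`i = true` or `j = true`) may be
meant for infinitely many lengths only. -/
theorem result (𝒟 : ∀ A : Type, Set (List A) → Prop) (h𝒟 : 𝒟 = InP ∨ 𝒟 = InNPc) (i j : Bool)
    (hij : i = false ∨ j = false) : ¬ (SubHeurSub i 𝒟 InPL ∧ SubHeurLin j InPL 𝒟) :=
  core 𝒟 h𝒟 i j hij

end Pool.Agent.Results.MP_d19090_lc.PolylogBook
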