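import Pool.Agent.BookPL.While

/-!
# Coding configurations of Turing machines by numbers

The configuration is coded by the environment `e`: `e 0` tells whether the machine is running,
`e 1` is the answer, `e 2` the state, `e 3` the position on the input tape, and for the work tape
`i` the numbers `e (4 + 3 i)`, `e (5 + 3 i)`, `e (6 + 3 i)` are the position of the head and the
numbers coding the part of the tape to the left of the head and the rest, with digits to the base
`w`.
-/

set_option autoImplicit false

namespace Pool.Agent.BookPL

open Pool.Agent.PT Pool.Agent.Book19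

section num

variable {W : Type} (wc : W → ℕ) (w : ℕ)

/-- The number coding the cells to the left of position `h`. -/
def Ln (T : ℕ → W) : ℕ → ℕ
  | 0 => 0
  | h + 1 => wc (T h) + w * Ln T h

/-- The number coding `n` cells starting from position `h`. -/
def Rn (T : ℕ → W) : ℕ → ℕ → ℕ
  | _, 0 => 0
  | h, n + 1 => wc (T h) + w * Rn T (h + 1) n

end num

/-- The new number for the rest of the tape after writing `s`. -/
def wr (w R s : ℕ) : ℕ := w * (R / w) + s

/-- The new left part. -/
def nL (w : ℕ) : Dir → (h L R s : ℕ) → ℕ
  | Dir.left, _, L, _, _ => L / w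
  | Dir.stay, _, L, _, _ => L
  | Dir.right, _, L, _, s => s + w * L

/-- The new right part. -/
def nR (w : ℕ) : Dir → (h L R s : ℕ) → ℕ
  | Dir.left, h, L, R, s => if h = 0 then wr w R s else L % w + w * wr w R s
  | Dir.stay, _, _, R, s => wr w R s
  | Dir.right, _, _, R, _ => R / w

section mach

variable {A B : Type} (M : OTM A)

/-- Codes of the states (the start state has code `0`). -/
noncomputable def qc (q : M.Q) : ℕ :=
  letI := M.finQ
  open Classical in if q = M.start then 0 else (Fintype.equivFin M.Q q).val + 1

/-- Codes of the work symbols (the blank symbol has code `0`). -/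
noncomputable def wc (s : M.W) : ℕ :=
  letI := M.finW
  open Classical in if s = M.blank then 0 else (Fintype.equivFin M.W s).val + 1

/-- The base. -/
noncomputable def wb : ℕ := letI := M.finW; Fintype.card M.W + 2

/-- The number of entries of the environment. -/
def nE : ℕ := 4 + 3 * M.k

/-- The environment coding a configuration (`S` bounds the cells in use). -/
noncomputable def encE (S : ℕ) (c : OCfg M.Q M.W M.k) : ℕ → ℕ := fun j =>
  if j = 0 then 1
  else if j = 1 then 0
  else if j = 2 then qc M c.q
  else if j = 3 then c.pos
  else if h : (j - 4) / 3 < M.k then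
    (if (j - 4) % 3 = 0 then c.head ⟨(j - 4) / 3, h⟩
     else if (j - 4) % 3 = 1 then
       Ln (wc M) (wb M) (c.tape ⟨(j - 4) / 3, h⟩) (c.head ⟨(j - 4) / 3, h⟩)
     else Rn (wc M) (wb M) (c.tape ⟨(j - 4) / 3, h⟩) (c.head ⟨(j - 4) / 3, h⟩)
       (S - c.head ⟨(j - 4) / 3, h⟩))
  else 0

noncomputable instance [Fintype A] : Fintype (Mark A) := by
  classical
  exact Fintype.ofSurjective
    (fun o : Option (Option A) => match o with
      | none => Mark.left
      | some none => Mark.right
      | some (some a) => Mark.sym a)
    (fun m => match m with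
      | Mark.left => ⟨none, rfl⟩
      | Mark.right => ⟨some none, rfl⟩
      | Mark.sym a => ⟨some (some a), rfl⟩)

/-- Inputs of the transition function. -/
abbrev Inp : Type := M.Q × Mark A × (Fin M.k → M.W)

/-- The environment `e` (with the virtual input `z`) shows the input `i` of the transition
function. -/
def Match (z : List A) (e : ℕ → ℕ) (i : Inp M) : Prop :=
  e 2 = qc M i.1 ∧ inputAt z (e 3) = i.2.1 ∧ ∀ r : Fin M.k, e (6 + 3 * r) % wb M = wc M (i.2.2 r)

/-- The new position on the input tape. -/
def npos (m : Mark A) (d : Dir) (p : ℕ) : ℕ :=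
  match d, m with
  | Dir.left, _ => p - 1
  | Dir.stay, _ => p
  | Dir.right, Mark.right => p
  | Dir.right, _ => p + 1

/-- The new entry `j` when the input of the transition function is `i`. -/
noncomputable def newE (i : Inp M) (j : ℕ) (e : ℕ → ℕ) : ℕ :=
  match M.out i.1 with
  | some b => if j = 0 then 0 else if j = 1 then (if b then 1 else 0) else e j
  | none =>
    let r := M.δ i.1 i.2.1 i.2.2
    if j = 0 then 1
    else if j = 1 then 0
    else if j = 2 then qc M r.1
    else if j = 3 then npos i.2.1 r.2.1 (e 3)
    else if h : (j - 4) / 3 < M.k then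
      let a := r.2.2 ⟨(j - 4) / 3, h⟩
      let b := 4 + 3 * ((j - 4) / 3)
      (if (j - 4) % 3 = 0 then Dir.apply a.2 (e b)
       else if (j - 4) % 3 = 1 then nL (wb M) a.2 (e b) (e (b + 1)) (e (b + 2)) (wc M a.1)
       else nR (wb M) a.2 (e b) (e (b + 1)) (e (b + 2)) (wc M a.1))
    else 0

open Classical in
/-- The vector of functions simulating the machine on the virtual input `Z u`. -/
noncomputable def simF [Fintype A] (Z : List B → List A) (j : ℕ) (u : List B) (e : ℕ → ℕ) : ℕ :=
  letI := M.finQ
  letI := M.finW
  ∑ i : Inp M, if Match M (Z u) e i then newE M i j e else 0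

end mach

end Pool.Agent.BookPL
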