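import Pool.Agent.BookPL.SimDefs

/-!
# Tapes as numbers
-/

set_option autoImplicit false

namespace Pool.Agent.BookPL

open Pool.Agent.PT Pool.Agent.Book19

variable {W : Type} (wc : W → ℕ) (w : ℕ) (hw : ∀ s, wc s < w)

private theorem SimNum.step_lt {a w x y : ℕ} (ha : a < w) (hx : x < y) : a + w * x < w * y := by
  calc a + w * x < w + w * x := by omega
    _ = w * (x + 1) := by ring
    _ ≤ w * y := Nat.mul_le_mul_left w hx

include hw in
theorem Ln_lt (T : ℕ → W) (h : ℕ) : Ln wc w T h < w ^ h := by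
  induction h with
  | zero => simp [Ln]
  | succ h ih =>
    rw [Ln, pow_succ']
    exact SimNum.step_lt (hw _) ih

include hw in
theorem Rn_lt (T : ℕ → W) (h n : ℕ) : Rn wc w T h n < w ^ n := by
  induction n generalizing h with
  | zero => simp [Rn]
  | succ n ih =>
    rw [Rn, pow_succ']
    exact SimNum.step_lt (hw _) (ih _)

include hw in
theorem Rn_mod (T : ℕ → W) (h S : ℕ) (hS : h < S) : Rn wc w T h (S - h) % w = wc (T h) := by
  obtain ⟨n, hn⟩ : ∃ n, S - h = n + 1 := ⟨S - h - 1, by omega⟩
  rw [hn, Rn, Nat.add_mul_mod_self_left, Nat.mod_eq_of_lt (hw _)]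

private theorem SimNum.Ln_update (T : ℕ → W) (h k : ℕ) (s : W) (hk : k ≤ h) :
    Ln wc w (Function.update T h s) k = Ln wc w T k := by
  induction k with
  | zero => rfl
  | succ k ih =>
    rw [Ln, Ln, ih (by omega), Function.update_of_ne (by omega)]

private theorem SimNum.Rn_update (T : ℕ → W) (h k n : ℕ) (s : W) (hk : h < k) :
    Rn wc w (Function.update T h s) k n = Rn wc w T k n := by
  induction n generalizing k with
  | zero => rfl
  | succ n ih =>
    rw [Rn, Rn, ih (k + 1) (by omega), Function.update_of_ne (by omega)]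

include hw in
private theorem SimNum.div (a : W) (x : ℕ) : (wc a + w * x) / w = x := by
  have h0 : 0 < w := lt_of_le_of_lt (Nat.zero_le _) (hw a)
  rw [Nat.add_mul_div_left _ _ h0, Nat.div_eq_of_lt (hw a), zero_add]

include hw in
private theorem SimNum.wr_eq (T : ℕ → W) (h S : ℕ) (hS : h < S) (s : W) :
    wr w (Rn wc w T h (S - h)) (wc s) = Rn wc w (Function.update T h s) h (S - h) := by
  obtain ⟨n, hn⟩ : ∃ n, S - h = n + 1 := ⟨S - h - 1, by omega⟩
  rw [hn, Rn, Rn, wr, SimNum.div wc w hw, Function.update_self,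
    SimNum.Rn_update wc w T h (h + 1) n s (by omega)]
  ring

include hw in
theorem nL_eq (T : ℕ → W) (h S : ℕ) (hS : h < S) (d : Dir) (s : W) :
    nL w d h (Ln wc w T h) (Rn wc w T h (S - h)) (wc s) =
      Ln wc w (Function.update T h s) (Dir.apply d h) := by
  cases d with
  | left =>
    rw [nL, Dir.apply]
    cases h with
    | zero => simp [Ln]
    | succ h =>
      rw [Ln, SimNum.div wc w hw, Nat.add_sub_cancel,
        SimNum.Ln_update wc w T (h + 1) h s (by omega)]
  | stay =>
    rw [nL, Dir.apply, SimNum.Ln_update wc w T h h s le_rfl]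
  | right =>
    rw [nL, Dir.apply, Ln, Function.update_self, SimNum.Ln_update wc w T h h s le_rfl]

include hw in
theorem nR_eq (T : ℕ → W) (h S : ℕ) (hS : h < S) (d : Dir) (s : W) (hS' : Dir.apply d h < S) :
    nR w d h (Ln wc w T h) (Rn wc w T h (S - h)) (wc s) =
      Rn wc w (Function.update T h s) (Dir.apply d h) (S - Dir.apply d h) := by
  cases d with
  | left =>
    rw [nR, Dir.apply]
    cases h with
    | zero =>
      rw [if_pos rfl]
      exact SimNum.wr_eq wc w hw T 0 S hS s
    | succ h =>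
      rw [if_neg (by omega), SimNum.wr_eq wc w hw T (h + 1) S hS s, Ln,
        Nat.add_mul_mod_self_left, Nat.mod_eq_of_lt (hw _), Nat.add_sub_cancel]
      obtain ⟨n, hn⟩ : ∃ n, S - h = n + 1 := ⟨S - h - 1, by omega⟩
      have hn' : S - (h + 1) = n := by omega
      rw [hn, hn', Rn, Function.update_of_ne (by omega)]
  | stay =>
    rw [nR, Dir.apply]
    exact SimNum.wr_eq wc w hw T h S hS s
  | right =>
    rw [nR, Dir.apply]
    obtain ⟨n, hn⟩ : ∃ n, S - h = n + 1 := ⟨S - h - 1, by omega⟩
    have hn' : S - (h + 1) = n := by omega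
    rw [hn, hn', Rn, SimNum.div wc w hw, SimNum.Rn_update wc w T h (h + 1) n s (by omega)]

end Pool.Agent.BookPL
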