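import Pool.Agent.BookPL.SimNum

/-!
# The vector of functions simulates the machine
-/

set_option autoImplicit false

namespace Pool.Agent.BookPL

open Pool.Agent.PT Pool.Agent.Book19

variable {A B : Type} (M : OTM A)

private theorem ss_qc_inj : Function.Injective (qc M) := by
  let _ := M.finQ
  intro q q' h
  unfold qc at h
  by_cases h1 : q = M.start <;> by_cases h2 : q' = M.start
  · rw [h1, h2]
  · simp [h1, h2] at h
  · simp [h1, h2] at h
  · simp only [h1, h2, if_false, Nat.add_right_cancel_iff] at h
    exact (Fintype.equivFin M.Q).injective (Fin.ext h)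

private theorem ss_wc_inj : Function.Injective (wc M) := by
  let _ := M.finW
  intro q q' h
  unfold wc at h
  by_cases h1 : q = M.blank <;> by_cases h2 : q' = M.blank
  · rw [h1, h2]
  · simp [h1, h2] at h
  · simp [h1, h2] at h
  · simp only [h1, h2, if_false, Nat.add_right_cancel_iff] at h
    exact (Fintype.equivFin M.W).injective (Fin.ext h)

private theorem ss_wc_lt (s : M.W) : wc M s < wb M := by
  let _ := M.finW
  unfold wc wb
  split_ifs
  · omega
  · have := (Fintype.equivFin M.W s).2
    omega

private theorem ss_wc_blank : wc M M.blank = 0 := by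
  unfold wc
  simp

private theorem ss_qc_start : qc M M.start = 0 := by
  unfold qc
  simp

private theorem ss_Rn_blank (h n : ℕ) : Rn (wc M) (wb M) (fun _ => M.blank) h n = 0 := by
  induction n generalizing h with
  | zero => rfl
  | succ n ih => rw [Rn, ih, ss_wc_blank, mul_zero, add_zero]

private theorem ss_enc0 (S : ℕ) (c : OCfg M.Q M.W M.k) : encE M S c 0 = 1 := by
  simp [encE]

private theorem ss_enc1 (S : ℕ) (c : OCfg M.Q M.W M.k) : encE M S c 1 = 0 := by
  simp [encE]

private theorem ss_enc2 (S : ℕ) (c : OCfg M.Q M.W M.k) : encE M S c 2 = qc M c.q := by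
  simp [encE]

private theorem ss_enc3 (S : ℕ) (c : OCfg M.Q M.W M.k) : encE M S c 3 = c.pos := by
  simp [encE]

/-- The entries of the work tapes. -/
private theorem ss_encj (S : ℕ) (c : OCfg M.Q M.W M.k) (r : Fin M.k) (s : ℕ) (hs : s < 3) :
    encE M S c (4 + 3 * r + s) =
      if s = 0 then c.head r
      else if s = 1 then Ln (wc M) (wb M) (c.tape r) (c.head r)
      else Rn (wc M) (wb M) (c.tape r) (c.head r) (S - c.head r) := by
  have h1 : (4 + 3 * (r : ℕ) + s - 4) / 3 = r := by omega
  have h2 : (4 + 3 * (r : ℕ) + s - 4) % 3 = s := by omega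
  have h3 : (4 + 3 * (r : ℕ) + s - 4) / 3 < M.k := by rw [h1]; exact r.2
  have h4 : (⟨(4 + 3 * (r : ℕ) + s - 4) / 3, h3⟩ : Fin M.k) = r := Fin.ext h1
  unfold encE
  rw [if_neg (by omega), if_neg (by omega), if_neg (by omega), if_neg (by omega), dif_pos h3, h4,
    h2]

private theorem ss_enc_big (S : ℕ) (c : OCfg M.Q M.W M.k) (j : ℕ) (hj : nE M ≤ j) :
    encE M S c j = 0 := by
  unfold nE at hj
  unfold encE
  rw [if_neg (by omega), if_neg (by omega), if_neg (by omega), if_neg (by omega),
    dif_neg (by omega)]

/-- Every index is one of the entries. -/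
private theorem ss_cases {P : ℕ → Prop} (h0 : P 0) (h1 : P 1) (h2 : P 2) (h3 : P 3)
    (h4 : ∀ (r : Fin M.k) (s : ℕ), s < 3 → P (4 + 3 * r + s)) (j : ℕ) (hj : j < nE M) : P j := by
  unfold nE at hj
  rcases Nat.lt_or_ge j 4 with h | h
  · interval_cases j
    · exact h0
    · exact h1
    · exact h2
    · exact h3
  · have h5 : (j - 4) / 3 < M.k := by omega
    have h6 := h4 ⟨(j - 4) / 3, h5⟩ ((j - 4) % 3) (Nat.mod_lt _ (by norm_num))
    have h7 : 4 + 3 * ((j - 4) / 3) + (j - 4) % 3 = j := by omega
    simp only [h7] at h6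
    exact h6

theorem encE_init (S : ℕ) : encE M S M.init = e₀ := by
  funext j
  rcases Nat.lt_or_ge j (nE M) with hj | hj
  · refine ss_cases M (P := fun j => encE M S M.init j = e₀ j) ?_ ?_ ?_ ?_ ?_ j hj
    · rw [ss_enc0]
      rfl
    · rw [ss_enc1]
      rfl
    · rw [ss_enc2]
      exact ss_qc_start M
    · rw [ss_enc3]
      rfl
    · intro r s hs
      change encE M S M.init (4 + 3 * (r : ℕ) + s) = e₀ (4 + 3 * (r : ℕ) + s)
      rw [ss_encj M S _ r s hs,
        show e₀ (4 + 3 * (r : ℕ) + s) = 0 from if_neg (by omega)]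
      split_ifs
      · rfl
      · rfl
      · exact ss_Rn_blank M _ _
  · rw [ss_enc_big M S _ j hj]
    unfold nE at hj
    rw [e₀, if_neg (by omega)]

/-- The input of the transition function shown by a configuration. -/
private def ss_inp (z : List A) (c : OCfg M.Q M.W M.k) : Inp M :=
  (c.q, inputAt z c.pos, fun r => c.tape r (c.head r))

private theorem ss_match (z : List A) (S : ℕ) (c : OCfg M.Q M.W M.k) (hS : ∀ i, c.head i < S)
    (i : Inp M) : Match M z (encE M S c) i ↔ i = ss_inp M z c := by
  have hR : ∀ r : Fin M.k, encE M S c (6 + 3 * r) % wb M = wc M (c.tape r (c.head r)) := by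
    intro r
    have h1 : 6 + 3 * (r : ℕ) = 4 + 3 * r + 2 := by ring
    rw [h1, ss_encj M S c r 2 (by norm_num), if_neg (by norm_num), if_neg (by norm_num)]
    exact Rn_mod (wc M) (wb M) (ss_wc_lt M) _ _ _ (hS r)
  unfold Match
  rw [ss_enc2, ss_enc3]
  constructor
  · rintro ⟨h1, h2, h3⟩
    obtain ⟨q, m, s⟩ := i
    have e1 : c.q = q := ss_qc_inj M h1
    have e2 : inputAt z c.pos = m := h2
    have e3 : (fun r => c.tape r (c.head r)) = s := by
      funext r
      have h4 := h3 r
      rw [hR] at h4
      exact ss_wc_inj M h4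
    rw [ss_inp, e1, e2, e3]
  · rintro rfl
    exact ⟨rfl, rfl, fun r => hR r⟩

private theorem ss_simF [Fintype A] (Z : List B → List A) (u : List B) (S : ℕ)
    (c : OCfg M.Q M.W M.k) (hS : ∀ i, c.head i < S) (j : ℕ) :
    simF M Z j u (encE M S c) = newE M (ss_inp M (Z u) c) j (encE M S c) := by
  classical
  unfold simF
  let _ := M.finQ
  let _ := M.finW
  rw [Finset.sum_eq_single (ss_inp M (Z u) c)]
  · rw [if_pos ((ss_match M (Z u) S c hS _).2 rfl)]
  · intro i _ hi
    rw [if_neg fun h => hi ((ss_match M (Z u) S c hS i).1 h)]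
  · intro h
    exact absurd (Finset.mem_univ _) h

private theorem ss_npos (z : List A) (p : ℕ) (hp : p ≤ z.length + 1) (d : Dir) :
    npos (inputAt z p) d p = min (Dir.apply d p) (z.length + 1) := by
  cases d with
  | left =>
    change p - 1 = min (p - 1) _
    omega
  | stay =>
    change p = min p _
    omega
  | right =>
    change npos (inputAt z p) Dir.right p = min (p + 1) _
    cases p with
    | zero =>
      change 0 + 1 = min (0 + 1) _
      omega
    | succ p =>
      cases h : z[p]? with
      | none =>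
        have h1 : inputAt z (p + 1) = Mark.right := by simp only [inputAt, h]
        rw [h1]
        change p + 1 = min (p + 1 + 1) _
        rw [List.getElem?_eq_none_iff] at h
        omega
      | some a =>
        have h1 : inputAt z (p + 1) = Mark.sym a := by simp only [inputAt, h]
        rw [h1]
        change p + 1 + 1 = min (p + 1 + 1) _
        have h2 : p < z.length := by
          by_contra hcon
          rw [List.getElem?_eq_none_iff.2 (by omega)] at h
          exact absurd h (by simp)
        omega

/-- One step of a running machine. -/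
theorem vstep_enc [Fintype A] (Z : List B → List A) (u : List B) (S : ℕ)
    (c : OCfg M.Q M.W M.k) (hS : ∀ i, c.head i < S) (hS' : ∀ i, (M.step (Z u) c).head i < S)
    (hp : c.pos ≤ (Z u).length + 1) (ho : M.out c.q = none) :
    vstep (nE M) (simF M Z) u (encE M S c) = encE M S (M.step (Z u) c) := by
  funext j
  rcases Nat.lt_or_ge j (nE M) with hj | hj
  · rw [vstep, if_pos hj, ss_simF M Z u S c hS]
    have ho' : M.out (ss_inp M (Z u) c).1 = none := ho
    refine ss_cases M (P := fun j => newE M (ss_inp M (Z u) c) j (encE M S c) =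
      encE M S (M.step (Z u) c) j) ?_ ?_ ?_ ?_ ?_ j hj
    · rw [ss_enc0]
      simp only [newE, ho', if_true]
    · rw [ss_enc1]
      simp [newE, ho']
    · rw [ss_enc2]
      simp only [newE, ho']
      rfl
    · rw [ss_enc3]
      simp only [newE, ho']
      change npos (inputAt (Z u) c.pos) _ (encE M S c 3) = _
      rw [ss_enc3, ss_npos (Z u) c.pos hp]
      rfl
    · intro r s hs
      have h1 : (4 + 3 * (r : ℕ) + s - 4) / 3 = r := by omega
      have h2 : (4 + 3 * (r : ℕ) + s - 4) % 3 = s := by omega
      have h3 : (4 + 3 * (r : ℕ) + s - 4) / 3 < M.k := by rw [h1]; exact r.2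
      have h4 : (⟨(4 + 3 * (r : ℕ) + s - 4) / 3, h3⟩ : Fin M.k) = r := Fin.ext h1
      have g0 : encE M S c (4 + 3 * r) = c.head r := by
        have := ss_encj M S c r 0 (by norm_num)
        rwa [if_pos rfl, Nat.add_zero] at this
      have g1 : encE M S c (4 + 3 * r + 1) = Ln (wc M) (wb M) (c.tape r) (c.head r) := by
        have := ss_encj M S c r 1 (by norm_num)
        rwa [if_neg (by norm_num), if_pos rfl] at this
      have g2 : encE M S c (4 + 3 * r + 2) =
          Rn (wc M) (wb M) (c.tape r) (c.head r) (S - c.head r) := by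
        have := ss_encj M S c r 2 (by norm_num)
        rwa [if_neg (by norm_num), if_neg (by norm_num)] at this
      change newE M (ss_inp M (Z u) c) (4 + 3 * (r : ℕ) + s) (encE M S c) =
        encE M S (M.step (Z u) c) (4 + 3 * (r : ℕ) + s)
      rw [ss_encj M S _ r s hs]
      simp only [newE, ho']
      rw [if_neg (by omega), if_neg (by omega), if_neg (by omega), if_neg (by omega),
        dif_pos h3, h4, h2, h1, g0, g1, g2]
      have hS'r := hS' r
      interval_cases s
      · rw [if_pos rfl, if_pos rfl]
        rfl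
      · rw [if_neg (by norm_num), if_pos rfl, if_neg (by norm_num), if_pos rfl]
        exact nL_eq (wc M) (wb M) (ss_wc_lt M) (c.tape r) (c.head r) S (hS r) _ _
      · rw [if_neg (by norm_num), if_neg (by norm_num), if_neg (by norm_num),
          if_neg (by norm_num)]
        exact nR_eq (wc M) (wb M) (ss_wc_lt M) (c.tape r) (c.head r) S (hS r) _ _ hS'r
  · rw [vstep, if_neg (by omega), ss_enc_big M S _ j hj]

/-- The step after the machine has stopped. -/
theorem vstep_out [Fintype A] (Z : List B → List A) (u : List B) (S : ℕ)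
    (c : OCfg M.Q M.W M.k) (hS : ∀ i, c.head i < S) (hp : c.pos ≤ (Z u).length + 1) (b : Bool)
    (ho : M.out c.q = some b) :
    vstep (nE M) (simF M Z) u (encE M S c) 0 = 0 ∧
      vstep (nE M) (simF M Z) u (encE M S c) 1 = (if b then 1 else 0) ∧
      ∀ j, vstep (nE M) (simF M Z) u (encE M S c) j ≤ encE M S c j + 1 := by
  have ho' : M.out (ss_inp M (Z u) c).1 = some b := ho
  have hnE : 4 ≤ nE M := Nat.le_add_right _ _
  refine ⟨?_, ?_, fun j => ?_⟩
  · rw [vstep, if_pos (by omega), ss_simF M Z u S c hS]
    simp only [newE, ho', if_true]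
  · rw [vstep, if_pos (by omega), ss_simF M Z u S c hS]
    simp [newE, ho']
  · rw [vstep]
    split_ifs with hj
    · rw [ss_simF M Z u S c hS]
      simp only [newE, ho']
      split_ifs <;> omega
    · exact Nat.zero_le _

end Pool.Agent.BookPL
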