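import Pool.Agent.BookPL.SimStep

/-!
# A machine which stops does so within exponential time
-/

set_option autoImplicit false

namespace Pool.Agent.BookPL

open Pool.Agent.PT Pool.Agent.Book19

/-- Bound for the entries of the environments. -/
noncomputable def bnd {A : Type} (M : OTM A) (n S : ℕ) : ℕ :=
  (letI := M.finQ; Fintype.card M.Q) + n + S + wb M ^ S + 3

theorem conf_pos_le {A : Type} (M : OTM A) (x : List A) (t : ℕ) :
    (M.conf x t).pos ≤ x.length + 1 := by
  cases t with
  | zero => exact Nat.zero_le _
  | succ t =>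
    rw [OTM.conf, Function.iterate_succ_apply']
    exact min_le_right _ _

private theorem wc_lt_wb {A : Type} (M : OTM A) (s : M.W) : wc M s < wb M := by
  let _ := M.finW
  unfold wc wb
  split_ifs
  · omega
  · have := (Fintype.equivFin M.W s).isLt
    omega

private theorem qc_le {A : Type} (M : OTM A) (q : M.Q) :
    qc M q ≤ (letI := M.finQ; Fintype.card M.Q) := by
  let _ := M.finQ
  unfold qc
  split_ifs
  · exact Nat.zero_le _
  · exact (Fintype.equivFin M.Q q).isLt

private theorem qc_inj {A : Type} (M : OTM A) {q q' : M.Q} (h : qc M q = qc M q') : q = q' := by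
  let _ := M.finQ
  unfold qc at h
  by_cases h1 : q = M.start
  · by_cases h2 : q' = M.start
    · rw [h1, h2]
    · rw [if_pos h1, if_neg h2] at h
      exact absurd h (by omega)
  · by_cases h2 : q' = M.start
    · rw [if_neg h1, if_pos h2] at h
      exact absurd h (by omega)
    · rw [if_neg h1, if_neg h2] at h
      exact (Fintype.equivFin M.Q).injective (Fin.ext (Nat.succ_injective h))

private theorem encE_zero {A : Type} (M : OTM A) (S : ℕ) (c : OCfg M.Q M.W M.k) (j : ℕ)
    (hj : nE M ≤ j) : encE M S c j = 0 := by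
  unfold nE at hj
  unfold encE
  rw [if_neg (by omega), if_neg (by omega), if_neg (by omega), if_neg (by omega),
    dif_neg (by omega)]

private theorem encE_two {A : Type} (M : OTM A) (S : ℕ) (c : OCfg M.Q M.W M.k) :
    encE M S c 2 = qc M c.q := rfl

theorem encE_lt {A : Type} (M : OTM A) (x : List A) (S : ℕ) (c : OCfg M.Q M.W M.k)
    (hS : ∀ i, c.head i < S) (hp : c.pos ≤ x.length + 1) (j : ℕ) :
    encE M S c j < bnd M x.length S := by
  have h1 := qc_le M c.q
  have hwb : 0 < wb M := by
    unfold wb
    omega
  have hpow : ∀ r, r ≤ S → wb M ^ r ≤ wb M ^ S := fun r hr => Nat.pow_le_pow_right hwb hr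
  unfold encE bnd
  split_ifs with h0 h1' h2 h3 h4 h5 h6
  · omega
  · omega
  · omega
  · omega
  · have := hS ⟨(j - 4) / 3, h4⟩
    omega
  · have h7 := Ln_lt (wc M) (wb M) (wc_lt_wb M) (c.tape ⟨(j - 4) / 3, h4⟩)
      (c.head ⟨(j - 4) / 3, h4⟩)
    have h8 := hpow _ (hS ⟨(j - 4) / 3, h4⟩).le
    omega
  · have h7 := Rn_lt (wc M) (wb M) (wc_lt_wb M) (c.tape ⟨(j - 4) / 3, h4⟩)
      (c.head ⟨(j - 4) / 3, h4⟩) (S - c.head ⟨(j - 4) / 3, h4⟩)
    have h8 := hpow (S - c.head ⟨(j - 4) / 3, h4⟩) (Nat.sub_le _ _)
    omega
  · omega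

theorem time_le {A : Type} [Fintype A] (M : OTM A) (x : List A) (t S : ℕ) (b : Bool)
    (hg : M.Gives x t b) (hs : M.Space x t S) : t < bnd M x.length S ^ nE M := by
  have hstep : ∀ s, M.conf x (s + 1) = M.step x (M.conf x s) := fun s => by
    rw [OTM.conf, OTM.conf, Function.iterate_succ_apply']
  have hv : ∀ s, s + 1 ≤ t → vstep (nE M) (simF M fun _ : List Unit => x) []
      (encE M S (M.conf x s)) = encE M S (M.conf x (s + 1)) := by
    intro s hst
    rw [hstep]
    exact vstep_enc M (fun _ : List Unit => x) [] S (M.conf x s) (hs s (by omega))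
      (fun i => by rw [← hstep]; exact hs (s + 1) hst i) (conf_pos_le M x s) (hg.2 s (by omega))
  have key : ∀ s s', s < s' → s' ≤ t → encE M S (M.conf x s) ≠ encE M S (M.conf x s') := by
    intro s s' hss hst h
    have hr : ∀ r, s' + r ≤ t → encE M S (M.conf x (s + r)) = encE M S (M.conf x (s' + r)) := by
      intro r
      induction r with
      | zero => exact fun _ => h
      | succ r ih =>
        intro hr
        rw [← add_assoc, ← add_assoc, ← hv (s + r) (by omega), ← hv (s' + r) (by omega),
          ih (by omega)]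
    have h1 := congrFun (hr (t - s') (by omega)) 2
    rw [encE_two, encE_two, show s' + (t - s') = t by omega] at h1
    have h2 := qc_inj M h1
    have h3 := hg.2 (s + (t - s')) (by omega)
    rw [h2, hg.1] at h3
    exact absurd h3 (by simp)
  let f : Fin (t + 1) → (Fin (nE M) → Fin (bnd M x.length S)) := fun s j =>
    ⟨encE M S (M.conf x s) j, encE_lt M x S _ (hs s (by omega)) (conf_pos_le M x s) j⟩
  have hf : Function.Injective f := by
    have key2 : ∀ s s' : Fin (t + 1), s < s' → f s ≠ f s' := by
      intro s s' hlt hfs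
      refine key s s' hlt (by omega) ?_
      funext j
      by_cases hj : j < nE M
      · have := congrFun hfs ⟨j, hj⟩
        exact congrArg Fin.val this
      · rw [encE_zero M S _ j (by omega), encE_zero M S _ j (by omega)]
    intro s s' h
    rcases lt_trichotomy s s' with h1 | h1 | h1
    · exact absurd h (key2 s s' h1)
    · exact h1
    · exact absurd h.symm (key2 s' s h1)
  have hc := Fintype.card_le_of_injective f hf
  simp only [Fintype.card_fin, Fintype.card_fun] at hc
  omega

end Pool.Agent.BookPL
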