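import Pool.Agent.BookPL.Ctr
import Pool.Agent.PT.ToTM2
import Pool.Agent.PT.Term

/-!
# Stack programs whose registers 0 and 1 form a zipper of the input

`Ty u h p h'`: all registers from 2 on are only used in unary (with the mark `u`), and registers 0
and 1 are only used to walk along the input word: register 1 holds the letters left of the head
(in reverse), register 0 those right of the head; `h` and `h'` tell, before and after `p`, whether
a letter has been popped and is still to be pushed back.
-/

set_option autoImplicit false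

namespace Pool.Agent.BookPL

open Pool.Agent.PT

inductive Ty {A : Type} (u : A) : Option A → Prog A → Option A → Prop
  | skip (h : Option A) : Ty u h Prog.skip h
  | push0 (b : A) : Ty u (some b) (Prog.push 0 b) none
  | push1 (b : A) : Ty u (some b) (Prog.push 1 b) none
  | push (h : Option A) (r : ℕ) (hr : 2 ≤ r) : Ty u h (Prog.push r u) h
  | pop01 (r : ℕ) (hr : r < 2) (p₀ : Prog A) (p₁ : A → Prog A) (h' : Option A)
      (h0 : Ty u none p₀ h') (h1 : ∀ b, Ty u (some b) (p₁ b) h') : Ty u none (Prog.pop r p₀ p₁) h'
  | pop (h h' : Option A) (r : ℕ) (hr : 2 ≤ r) (p₀ : Prog A) (p₁ : A → Prog A)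
      (h0 : Ty u h p₀ h') (h1 : Ty u h (p₁ u) h') : Ty u h (Prog.pop r p₀ p₁) h'
  | seq (h h' h'' : Option A) (p q : Prog A) (h0 : Ty u h p h') (h1 : Ty u h' q h'') :
      Ty u h (Prog.seq p q) h''
  | loop01 (r : ℕ) (hr : r < 2) (p : A → Prog A) (h0 : ∀ b, Ty u (some b) (p b) none) :
      Ty u none (Prog.loop r p) none
  | loop (h : Option A) (r : ℕ) (hr : 2 ≤ r) (p : A → Prog A) (h0 : Ty u h (p u) h) :
      Ty u h (Prog.loop r p) h

end Pool.Agent.BookPL
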