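import Pool.Agent.PT.Coded

/-!
# Polynomial time deciders as coded machines with a halting condition
-/

set_option autoImplicit false
set_option backward.isDefEq.respectTransparency false

namespace Pool.Agent.BookPL

open Turing Computability Pool.Agent.PT

/-- **Polynomial time deciders as coded machines**, with a set `H` of halted controls: as soon as
the control is halted the answer is correct, and after `P` steps the control is halted. -/
theorem exists_cmH {α A : Type} (ea : α → List A) (f : α → Bool)
    (h : TM2ComputableInPolyTime ea encodeBool f) :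
    ∃ (C : CM) (ini ks ko : ℕ) (code : A → ℕ) (acc H : Set ℕ) (P : Polynomial ℕ),
      ini < C.M0 ∧ ks < C.κ ∧ ko < C.κ ∧ (∀ a, code a < C.M0) ∧
      ∀ a : α, ∀ T, (C.step^[T] (initc ini ks C.κ code (ea a)) 0 ∈ H →
          (f a = true ↔ (C.step^[T] (initc ini ks C.κ code (ea a))) (1 + ko) ∈ acc)) ∧
        (P.eval (ea a).length ≤ T → C.step^[T] (initc ini ks C.κ code (ea a)) 0 ∈ H) := by
  classical
  obtain ⟨⟨tm, ein, eout⟩, time, hout⟩ := h
  have hm0 : ∀ c, ctl tm c < m0 tm := fun c => by
    have := ctl_lt tm c
    unfold m0; omega
  refine ⟨cm tm, ctl tm (⟨some (tm.m tm.main), main_mem_FF tm tm.main⟩, tm.initialState),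
    (eK tm tm.k₀).val, (eK tm tm.k₁).val, fun a => inC tm (ein.symm a),
    {b | decS tm tm.k₁ b = some (eout.symm true)},
    {b | ∃ v, b = ctl tm (⟨none, none_mem_FF tm⟩, v)},
    time * Polynomial.C (letI := tm.ΛFin; bigsize tm.m), hm0 _, (eK tm _).isLt, (eK tm _).isLt, ?_,
    ?_⟩
  · intro a
    change inC tm _ < m0 tm
    have := (eG tm (ein.symm a)).isLt
    unfold inC m0
    omega
  · intro a T
    let _ := tm.ΛFin
    obtain ⟨⟨n, hn⟩, hle⟩ := hout a
    obtain ⟨d, hd, hd'⟩ := msteps_run tm.m n _ _ hn
    set y := List.map ein.invFun (ea a) with hy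
    have hinit : initc (ctl tm (⟨some (tm.m tm.main), main_mem_FF tm tm.main⟩, tm.initialState))
        (eK tm tm.k₀).val (cm tm).κ (fun a => inC tm (ein.symm a)) (ea a) =
        initc (ctl tm (⟨some (tm.m tm.main), main_mem_FF tm tm.main⟩, tm.initialState))
        (eK tm tm.k₀).val (nK tm) (inC tm) y := by
      funext pos
      unfold initc
      congr 1
      change (if (pos - 1) % nK tm = _ then _ else _) = _
      congr 1
      rw [hy, List.getElem?_map]
      change (match (ea a)[(pos - 1) / nK tm]? with
        | some a => inC tm (ein.symm a)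
        | none => 0) = _
      cases (ea a)[(pos - 1) / nK tm]? <;> rfl
    rw [hinit]
    have hrel := rel_init tm y
    have hrelT := fun T => rel_iter tm _ (fun p => initc_lt (hm0 _) (fun g => by
      have := (eG tm g).isLt
      unfold inC m0
      omega) y p) _ hrel T
    have hbig : ∀ T', d ≤ T' → (mstep tm.m)^[T'] (toM tm.m (initList tm y)) =
        toM tm.m (haltList tm (List.map eout.invFun (encodeBool (f a)))) := by
      intro T' hTd
      obtain ⟨e, rfl⟩ := Nat.exists_eq_add_of_le hTd
      rw [Nat.add_comm, Function.iterate_add_apply, hd']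
      exact msteps_halted _ _ _ _
    have hs : (toM tm.m (haltList tm (List.map eout.invFun (encodeBool (f a))))).s = none := by
      simp [toM, haltList]
    have h2 : (toM tm.m (haltList tm (List.map eout.invFun (encodeBool (f a))))).S tm.k₁ =
        [eout.symm (f a)] := by
      change (haltList tm (List.map eout.invFun (encodeBool (f a)))).stk tm.k₁ = _
      simp [haltList, encodeBool]
    constructor
    · intro hH
      -- the micro configuration at time T is halted
      obtain ⟨v, hv⟩ := hH
      have hr := hrelT T
      have hc := hr.control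
      set m := (mstep tm.m)^[T] (toM tm.m (initList tm y)) with hm
      have hctl : ctl tm (⟨m.s, hr.mem⟩, m.v) = ctl tm (⟨none, none_mem_FF tm⟩, v) :=
        hc.symm.trans hv
      have hinj : (⟨m.s, hr.mem⟩, m.v) = ((⟨none, none_mem_FF tm⟩, v) : Ct tm) :=
        (Fintype.equivFin (Ct tm)).injective (Fin.ext hctl)
      have hms : m.s = none := congrArg (fun c : Ct tm => c.1.1) hinj
      have hfix : (mstep tm.m)^[d] m = m := by
        have e : m = ⟨none, m.v, m.S⟩ := by
          rw [← hms]
        rw [e]
        exact msteps_halted _ _ _ _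
      have hmfin : m = toM tm.m (haltList tm (List.map eout.invFun (encodeBool (f a)))) := by
        rw [← hbig (d + T) (by omega), Function.iterate_add_apply, ← hm, hfix]
      have h1 := hr.stk_eq tm.k₁ 0
      rw [hmfin, h2] at h1
      simp only [zero_mul, add_zero, List.getElem?_cons_zero] at h1
      change f a = true ↔ decS tm tm.k₁ _ = some (eout.symm true)
      rw [h1]
      simp
    · intro hT
      have hTd : d ≤ T := by
        refine hd.trans (le_trans ?_ hT)
        simp only [Polynomial.eval_mul, Polynomial.eval_C]
        exact Nat.mul_le_mul_right _ hle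
      have hr := hrelT T
      rw [hbig T hTd] at hr
      have hc := hr.control
      exact ⟨(toM tm.m (haltList tm (List.map eout.invFun (encodeBool (f a))))).v,
        hc.trans (ctl_congr tm hs rfl)⟩

end Pool.Agent.BookPL
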