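import Pool.Agent.BookPL.UniTb
import Pool.Agent.BookPL.Letters
import Pool.Agent.B7219d.PTIter

/-!
# The universal verifier: words of cells in one-hot form, with the program on a static track
-/

set_option autoImplicit false

namespace Pool.Agent.BookPL

open Pool.Agent.PT Pool.Agent.Book19

/-- Letters of the encoded pairs (padded word, certificate). -/
abbrev YL : Type := Option Sg ⊕ Bool

/-- Letters of the words of cells: static letter, bit, time mark. -/
abbrev CeL : Type := Option YL × Bool × Bool

/-! ### Tracks of words -/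

/-- A bit on a code track of a letter. -/
def cdOf (j : Fin 10) (o : Option YL) : Prop := ∃ a : Sg, o = some (Sum.inl (some a)) ∧ a.cd j = true

/-- The ten tracks of an encoded pair. -/
def BY (Y : List YL) : Tb := ⟨Y.length, fun j p => cdOf j Y[p]?⟩

/-- The static letter at a position. -/
def st (x : List CeL) (p : ℕ) : Option YL := x[p]?.bind Prod.fst

/-- The bit at a position. -/
def bit (x : List CeL) (p : ℕ) : Prop := ∃ l, x[p]? = some l ∧ l.2.1 = true

/-- The time mark at a position. -/
def mark (x : List CeL) (p : ℕ) : Prop := ∃ l, x[p]? = some l ∧ l.2.2 = true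

/-- The ten tracks of a word of cells. -/
def BG (x : List CeL) : Tb := ⟨x.length, fun j p => cdOf j (st x p)⟩

theorem up_bit {f : List CeL → (ℕ → ℕ) → ℕ} (hf : UF f) : UP (fun x e => bit x (f x e)) :=
  UP.fex (fun l : CeL => (UP.sym l hf).and (UP.const (l.2.1 = true)))

theorem up_mark {f : List CeL → (ℕ → ℕ) → ℕ} (hf : UF f) : UP (fun x e => mark x (f x e)) :=
  UP.fex (fun l : CeL => (UP.sym l hf).and (UP.const (l.2.2 = true)))

theorem up_st (P : Option YL → Prop) {f : List CeL → (ℕ → ℕ) → ℕ} (hf : UF f) :
    UP (fun x e => P (st x (f x e))) := by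
  refine ((UP.fex (fun l : CeL => (UP.sym l hf).and (UP.const (P l.1)))).or
    ((UP.fex (fun l : CeL => UP.sym l hf)).not.and (UP.const (P none)))).congr fun x e => ?_
  unfold st
  cases h : x[f x e]? with
  | none => simp
  | some l => simp

theorem up_get (P : Option YL → Prop) {f : List YL → (ℕ → ℕ) → ℕ} (hf : UF f) :
    UP (fun x e => P (x[f x e]?)) := by
  refine ((UP.fex (fun l : YL => (UP.sym l hf).and (UP.const (P (some l))))).or
    ((UP.fex (fun l : YL => UP.sym l hf)).not.and (UP.const (P none)))).congr fun x e => ?_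
  cases h : x[f x e]? with
  | none => simp
  | some l => simp

theorem uBYL : UF (fun (Y : List YL) _ => (BY Y).L) := UF.len
theorem uBYT (j : Fin 10) : UP (fun (Y : List YL) e => (BY Y).T j (e 0)) :=
  up_get (fun o => cdOf j o) (UF.var 0)
theorem uBGL : UF (fun (x : List CeL) _ => (BG x).L) := UF.len
theorem uBGT (j : Fin 10) : UP (fun (x : List CeL) e => (BG x).T j (e 0)) :=
  up_st (fun o => cdOf j o) (UF.var 0)

/-! ### The initial word -/

/-- Number of a letter. -/
noncomputable def ixL (l : Sg ⊕ Bool) : ℕ := (Fintype.equivFin (Sg ⊕ Bool) l).val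

/-- Number of letter numbers. -/
noncomputable def nLet : ℕ := Fintype.card (Sg ⊕ Bool)

theorem ixL_lt (l : Sg ⊕ Bool) : ixL l < nLet := (Fintype.equivFin (Sg ⊕ Bool) l).isLt

open Classical in
/-- Code of the letter at position `q`. -/
noncomputable def lc (Y : List YL) (q : ℕ) : ℕ :=
  ∑ l : Sg ⊕ Bool, if Y[q]? = some (Sum.map some id l) then (BY Y).code (ixL l) else 0

theorem uf_lc {f : List YL → (ℕ → ℕ) → ℕ} (hf : UF f) : UF (fun Y e => lc Y (f Y e)) := by
  classical
  exact UF.fsum Finset.univ (F := fun (l : Sg ⊕ Bool) Y e =>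
    if Y[f Y e]? = some (Sum.map some id l) then (BY Y).code (ixL l) else 0)
    (fun l _ => UF.ite (inst := fun _ _ => _) (UP.sym _ hf)
      (Tb.ucode uBYL uBYT (UF.const (ixL l))) (UF.const 0))

/-- Number of letters of the first component. -/
def nz (Y : List YL) : ℕ := Y.countP (fun l => l.isLeft)

/-- Number of letters of the first component which are not padding. -/
def nu (Y : List YL) : ℕ := Y.countP (fun l => Sum.elim Option.isSome (fun _ => false) l)

theorem uf_nz : UF (fun Y _ => nz Y) := UF.countP _
theorem uf_nu : UF (fun Y _ => nu Y) := UF.countP _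

/-- Code of the `i`-th letter of the input of the simulated machine. -/
noncomputable def cdv (Y : List YL) (i : ℕ) : ℕ :=
  if i < nu Y then lc Y i else lc Y (nz Y + (i - nu Y))

theorem uf_cdv {f : List YL → (ℕ → ℕ) → ℕ} (hf : UF f) : UF (fun Y e => cdv Y (f Y e)) := by
  unfold cdv
  exact UF.ite (UP.lt hf uf_nu) (uf_lc hf) (uf_lc (uf_nz.add (hf.sub uf_nu)))

/-- The initial content of cell `pos`. -/
noncomputable def initv (Y : List YL) (pos : ℕ) : ℕ :=
  if pos = 0 then (BY Y).ini
  else if (pos - 1) % (BY Y).κ = (BY Y).ks then cdv Y ((pos - 1) / (BY Y).κ)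
  else 0

theorem uf_initv {f : List YL → (ℕ → ℕ) → ℕ} (hf : UF f) : UF (fun Y e => initv Y (f Y e)) := by
  have hk := Tb.uκ uBYL uBYT
  unfold initv
  exact UF.ite (UP.eq hf (UF.const 0)) (Tb.uini uBYL uBYT)
    (UF.ite (UP.eq ((hf.sub (UF.const 1)).mod hk) (Tb.uks uBYL uBYT))
      (uf_cdv ((hf.sub (UF.const 1)).div hk)) (UF.const 0))

/-- Length of the words of cells. -/
def len0 (n : ℕ) : ℕ := (n + 3) ^ 3

open Classical in
/-- Letters of the initial word. -/
noncomputable def G0 (Y : List YL) (p : ℕ) : CeL :=
  (Y[p]?, decide (initv Y (p / (BY Y).M) = p % (BY Y).M), decide (p < Y.length))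

/-- The initial word. -/
noncomputable def F0 (Y : List YL) : List CeL := (List.range (len0 Y.length)).map (G0 Y)

theorem up_G0 (a : CeL) : UP (fun Y e => G0 Y (e 0) = a) := by
  have hM := Tb.uM uBYL uBYT
  have h1 : UP (fun (Y : List YL) e => Y[e 0]? = a.1) := up_get (fun o => o = a.1) (UF.var 0)
  have h2 : UP (fun (Y : List YL) e => initv Y (e 0 / (BY Y).M) = e 0 % (BY Y).M) :=
    UP.eq (uf_initv ((UF.var 0).div hM)) ((UF.var 0).mod hM)
  have h3 : UP (fun (Y : List YL) e => e 0 < Y.length) := UP.lt (UF.var 0) UF.len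
  refine (h1.and ((h2.iff (UP.const (a.2.1 = true))).and
    (h3.iff (UP.const (a.2.2 = true))))).congr fun Y e => ?_
  obtain ⟨o, b, c⟩ := a
  simp only [G0, Prod.mk.injEq]
  refine and_congr_right fun _ => and_congr ?_ ?_
  · cases b <;> simp
  · cases c <;> simp

/-! ### The step -/

/-- The value of a cell. -/
noncomputable def cell (x : List CeL) (pos : ℕ) : ℕ :=
  dnum (bit x) (pos * (BG x).M) (BG x).M

theorem uf_cell {f : List CeL → (ℕ → ℕ) → ℕ} (hf : UF f) : UF (fun x e => cell x (f x e)) :=
  uf_dnum (up_bit (UF.var 0)) (hf.mul (Tb.uM uBGL uBGT)) (Tb.uM uBGL uBGT)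

/-- The new bit at a position. -/
def nb (x : List CeL) (p : ℕ) : Prop :=
  (BG x).V (p / (BG x).M) (cell x 0) (cell x ((BG x).R (p / (BG x).M) (cell x 0))) =
    p % (BG x).M

open Classical in
/-- Letters of the next word. -/
noncomputable def G1 (x : List CeL) (p : ℕ) : CeL :=
  (st x p, decide (nb x p), decide (mark x (p + 1)))

/-- The next word. -/
noncomputable def F1 (x : List CeL) : List CeL := (List.range x.length).map (G1 x)

theorem up_G1 (a : CeL) : UP (fun x e => G1 x (e 0) = a) := by
  have hM := Tb.uM uBGL uBGT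
  have h0 : UF (fun (x : List CeL) (_ : ℕ → ℕ) => cell x 0) := uf_cell (UF.const 0)
  have hp : UF (fun (x : List CeL) e => e 0 / (BG x).M) := (UF.var 0).div hM
  have h1 : UP (fun (x : List CeL) e => st x (e 0) = a.1) := up_st (fun o => o = a.1) (UF.var 0)
  have h2 : UP (fun (x : List CeL) e => nb x (e 0)) :=
    UP.eq (Tb.uV uBGL uBGT hp h0 (uf_cell (Tb.uR uBGL uBGT hp h0))) ((UF.var 0).mod hM)
  have h3 : UP (fun (x : List CeL) e => mark x (e 0 + 1)) := up_mark ((UF.var 0).add (UF.const 1))
  refine (h1.and ((h2.iff (UP.const (a.2.1 = true))).and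
    (h3.iff (UP.const (a.2.2 = true))))).congr fun x e => ?_
  obtain ⟨o, b, c⟩ := a
  simp only [G1, Prod.mk.injEq]
  refine and_congr_right fun _ => and_congr ?_ ?_
  · cases b <;> simp
  · cases c <;> simp

/-- The final condition: the control is halted and the output is accepting. -/
def Racc (x : List CeL) : Prop := (BG x).halt (cell x 0) ∧ (BG x).acc (cell x (1 + (BG x).ko))

theorem up_Racc : UP (fun x _ => Racc x) :=
  (Tb.uhalt uBGL uBGT (uf_cell (UF.const 0))).and
    (Tb.uacc uBGT (uf_cell ((UF.const 1).add (Tb.uko uBGL uBGT))))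

/-! ### Lengths, static letters and time marks -/

theorem F1_length (x : List CeL) : (F1 x).length = x.length := by simp [F1]

theorem F1_get {x : List CeL} {p : ℕ} (hp : p < x.length) : (F1 x)[p]? = some (G1 x p) := by
  simp [F1, hp]

theorem F1_none {x : List CeL} {p : ℕ} (hp : x.length ≤ p) : (F1 x)[p]? = none := by
  rw [List.getElem?_eq_none]
  rw [F1_length]; exact hp

theorem st_none {x : List CeL} {p : ℕ} (hp : x.length ≤ p) : st x p = none := by
  unfold st
  rw [List.getElem?_eq_none hp]
  rfl

theorem st_F1 (x : List CeL) (p : ℕ) : st (F1 x) p = st x p := by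
  by_cases hp : p < x.length
  · unfold st
    rw [F1_get hp]
    rfl
  · rw [st_none (not_lt.1 hp), st_none (by rw [F1_length]; exact not_lt.1 hp)]

theorem BG_F1 (x : List CeL) : BG (F1 x) = BG x := by
  unfold BG
  rw [F1_length]
  simp only [st_F1]

theorem mark_F1 {x : List CeL} {p : ℕ} (hp : p < x.length) : mark (F1 x) p ↔ mark x (p + 1) := by
  classical
  unfold mark
  rw [F1_get hp]
  constructor
  · rintro ⟨l, h1, h2⟩
    obtain rfl := Option.some.inj h1
    simpa [G1, mark] using h2
  · intro h
    exact ⟨_, rfl, by simpa [G1, mark] using h⟩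

theorem bit_F1 {x : List CeL} {p : ℕ} (hp : p < x.length) : bit (F1 x) p ↔ nb x p := by
  classical
  unfold bit
  rw [F1_get hp]
  constructor
  · rintro ⟨l, h1, h2⟩
    obtain rfl := Option.some.inj h1
    simpa [G1] using h2
  · intro h
    exact ⟨_, rfl, by simpa [G1] using h⟩

theorem iter_length (x : List CeL) (t : ℕ) : (F1^[t] x).length = x.length := by
  induction t with
  | zero => rfl
  | succ t ih => rw [Function.iterate_succ_apply', F1_length, ih]

theorem iter_BG (x : List CeL) (t : ℕ) : BG (F1^[t] x) = BG x := by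
  induction t with
  | zero => rfl
  | succ t ih => rw [Function.iterate_succ_apply', BG_F1, ih]

theorem iter_mark {x : List CeL} {T : ℕ} (hT : T ≤ x.length)
    (h : ∀ p < x.length, mark x p ↔ p < T) (t : ℕ) :
    ∀ p < x.length, mark (F1^[t] x) p ↔ p + t < T := by
  induction t with
  | zero => intro p hp; exact h p hp
  | succ t ih =>
    intro p hp
    rw [Function.iterate_succ_apply', mark_F1 (by rw [iter_length]; exact hp)]
    by_cases hp1 : p + 1 < x.length
    · rw [ih _ hp1]
      constructor <;> intro <;> omega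
    · constructor
      · rintro ⟨l, h1, _⟩
        rw [List.getElem?_eq_none (by rw [iter_length]; omega)] at h1
        exact absurd h1 (by simp)
      · intro h
        omega

theorem F0_length (Y : List YL) : (F0 Y).length = len0 Y.length := by simp [F0]

theorem len_le_len0 (n : ℕ) : n ≤ len0 n := by
  unfold len0
  calc n ≤ n + 3 := by omega
    _ = (n + 3) ^ 1 := (pow_one _).symm
    _ ≤ (n + 3) ^ 3 := Nat.pow_le_pow_right (by omega) (by norm_num)

theorem F0_get {Y : List YL} {p : ℕ} (hp : p < len0 Y.length) : (F0 Y)[p]? = some (G0 Y p) := by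
  simp [F0, hp]

theorem st_F0 (Y : List YL) (p : ℕ) : st (F0 Y) p = Y[p]? := by
  by_cases hp : p < len0 Y.length
  · unfold st
    rw [F0_get hp]
    rfl
  · have := len_le_len0 Y.length
    rw [st_none (by rw [F0_length]; exact not_lt.1 hp), List.getElem?_eq_none (by omega)]

theorem BG_F0 (Y : List YL) : BG (F0 Y) = ⟨len0 Y.length, (BY Y).T⟩ := by
  unfold BG BY
  rw [F0_length]
  simp only [st_F0]

theorem mark_F0 {Y : List YL} {p : ℕ} (hp : p < len0 Y.length) :
    mark (F0 Y) p ↔ p < Y.length := by
  classical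
  unfold mark
  rw [F0_get hp]
  constructor
  · rintro ⟨l, h1, h2⟩
    obtain rfl := Option.some.inj h1
    simpa [G0] using h2
  · intro h
    exact ⟨_, rfl, by simpa [G0] using h⟩

theorem bit_F0 {Y : List YL} {p : ℕ} (hp : p < len0 Y.length) :
    bit (F0 Y) p ↔ initv Y (p / (BY Y).M) = p % (BY Y).M := by
  classical
  unfold bit
  rw [F0_get hp]
  constructor
  · rintro ⟨l, h1, h2⟩
    obtain rfl := Option.some.inj h1
    simpa [G0] using h2
  · intro h
    exact ⟨_, rfl, by simpa [G0] using h⟩

/-! ### The universal verifier -/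

/-- The encoded pair. -/
def encY (q : List (Option Sg) × List Bool) : List YL := q.1.map Sum.inl ++ q.2.map Sum.inr

open Classical in
/-- The universal verifier. -/
noncomputable def uver (q : List (Option Sg) × List Bool) : Bool :=
  decide (Racc (F1^[(encY q).length] (F0 (encY q))))

open Turing Computability in
theorem uver_poly : Nonempty (TM2ComputableInPolyTime
    (encodingProd (encodingList (Option Sg)) (encodingList Bool)).encode encodeBool uver) := by
  classical
  have hlen : UF (fun (Y : List YL) (_ : ℕ → ℕ) => len0 Y.length) :=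
    (UF.len.add (UF.const 3)).pow 3
  have hPB : PB len0 := by
    have h1 : PB (fun n => n + 3) := PB.id.add (PB.const 3)
    have h2 : PB (fun n => (n + 3) * (n + 3) * (n + 3)) := (h1.mul h1).mul h1
    have : len0 = fun n => (n + 3) * (n + 3) * (n + 3) := by
      funext n
      unfold len0
      ring
    rw [this]
    exact h2
  refine B7219d.polyTime_iterate _ (M₀ := fun Y => len0 Y.length) (G₀ := G0) hlen up_G0
    (M₁ := fun x => x.length) (G₁ := G1) UF.len up_G1 (Q := fun x => mark x 0) (R := Racc)
    (up_mark (UF.const 0)) up_Racc uver F0 (fun _ => rfl) F1 (fun _ => rfl) (fun n => n) len0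
    PB.id hPB fun q => ?_
  have e1 : (encodingProd (encodingList (Option Sg)) (encodingList Bool)).encode q = encY q := rfl
  rw [e1]
  set Y := encY q with hY
  have hT := len_le_len0 Y.length
  have hpos : 0 < (F0 Y).length := by
    rw [F0_length]; unfold len0; positivity
  have hm := iter_mark (x := F0 Y) (T := Y.length) (by rw [F0_length]; exact hT)
    (fun p hp => mark_F0 (by rw [F0_length] at hp; exact hp))
  refine ⟨Y.length, le_rfl, fun i hi => ?_, ?_, fun i _ => ?_, ?_⟩
  · exact (hm i 0 hpos).2 (by omega)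
  · intro h
    have := (hm _ 0 hpos).1 h
    omega
  · rw [iter_length, F0_length]
  · unfold uver
    rw [decide_eq_true_iff]

end Pool.Agent.BookPL
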