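import Pool.Agent.BookPL.UniIter
import Pool.Agent.BookPL.UniCm

/-!
# Correctness of the universal verifier
-/

set_option autoImplicit false

namespace Pool.Agent.BookPL

open Pool.Agent.PT Pool.Agent.Book19 Turing Computability

section sim

variable {C : CM} {ini ks ko K : ℕ} {code : ℕ → ℕ} {acc H : Set ℕ}

/-- The cells are those of the coded machine, inside a shrinking window. -/
theorem iter_cell {x : List CeL} {W : ℕ} {c : ℕ → ℕ}
    (hT : (BG x).T = tbOf C ini ks ko K code acc H) (hL : tbLen C ini ks ko K ≤ x.length)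
    (hW : W * C.M0 ≤ x.length) (hc : ∀ p, c p < C.M0) (h0 : ∀ pos < W, cell x pos = c pos)
    (t : ℕ) : ∀ pos, pos + t * C.κ < W → cell (F1^[t] x) pos = C.step^[t] c pos := by
  induction t with
  | zero => intro pos hpos; exact h0 pos (by omega)
  | succ t ih =>
    intro pos hpos
    rw [Function.iterate_succ_apply', Function.iterate_succ_apply']
    set y := F1^[t] x with hy
    have hylen : y.length = x.length := iter_length x t
    have hBy : BG y = ⟨x.length, tbOf C ini ks ko K code acc H⟩ := by
      rw [hy, iter_BG, ← hT]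
      rfl
    have hM : (BG y).M = C.M0 := by rw [hBy]; exact tb_M hL
    have hA : (BG y).Agree C := by rw [hBy]; exact tb_agree hL
    have e : (t + 1) * C.κ = t * C.κ + C.κ := by ring
    rw [e] at hpos
    have hlt := C.iter_lt c hc t
    have i0 : cell y 0 = C.step^[t] c 0 := ih 0 (by omega)
    have hR := C.R_le pos (C.step^[t] c 0)
    have iR : cell y (C.R pos (C.step^[t] c 0)) = C.step^[t] c (C.R pos (C.step^[t] c 0)) :=
      ih _ (by omega)
    unfold cell
    rw [BG_F1, hM]
    refine dnum_eq (C.step_lt _ hlt pos) fun j hj => ?_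
    have h1 : pos * C.M0 + j < y.length := by
      rw [hylen]
      calc pos * C.M0 + j < pos * C.M0 + C.M0 := by omega
        _ = (pos + 1) * C.M0 := by ring
        _ ≤ W * C.M0 := Nat.mul_le_mul_right _ (by omega)
        _ ≤ x.length := hW
    have h2 : (pos * C.M0 + j) / C.M0 = pos := by
      rw [Nat.add_comm, Nat.add_mul_div_right _ _ (by omega), Nat.div_eq_of_lt hj]; omega
    have h3 : (pos * C.M0 + j) % C.M0 = j := by
      rw [Nat.add_comm, Nat.add_mul_mod_self_right, Nat.mod_eq_of_lt hj]
    rw [bit_F1 h1]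
    unfold nb
    rw [hM, h2, h3, i0, hA.R_eq _ (hlt 0), iR, hA.V_eq _ (hlt 0) (hlt _)]
    change C.step (C.step^[t] c) pos = j ↔ _
    exact eq_comm

/-- The cells of the initial word. -/
theorem cell_F0 {Y : List YL} {W : ℕ} (hT : (BY Y).T = tbOf C ini ks ko K code acc H)
    (hL : tbLen C ini ks ko K ≤ Y.length) (hW : W * C.M0 ≤ len0 Y.length) {pos : ℕ}
    (hpos : pos < W) (h : initv Y pos < C.M0) : cell (F0 Y) pos = initv Y pos := by
  have hB : BY Y = ⟨Y.length, tbOf C ini ks ko K code acc H⟩ := by rw [← hT]; rfl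
  have hB0 : BG (F0 Y) = ⟨len0 Y.length, tbOf C ini ks ko K code acc H⟩ := by rw [BG_F0, hT]
  have hM : (BY Y).M = C.M0 := by rw [hB]; exact tb_M hL
  have hM0 : (BG (F0 Y)).M = C.M0 := by
    rw [hB0]
    exact tb_M (hL.trans (len_le_len0 _))
  unfold cell
  rw [hM0]
  refine dnum_eq h fun j hj => ?_
  have h1 : pos * C.M0 + j < len0 Y.length := by
    calc pos * C.M0 + j < pos * C.M0 + C.M0 := by omega
      _ = (pos + 1) * C.M0 := by ring
      _ ≤ W * C.M0 := Nat.mul_le_mul_right _ (by omega)
      _ ≤ len0 Y.length := hW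
  have h2 : (pos * C.M0 + j) / C.M0 = pos := by
    rw [Nat.add_comm, Nat.add_mul_div_right _ _ (by omega), Nat.div_eq_of_lt hj]; omega
  have h3 : (pos * C.M0 + j) % C.M0 = j := by
    rw [Nat.add_comm, Nat.add_mul_mod_self_right, Nat.mod_eq_of_lt hj]
  rw [bit_F0 h1, hM, h2, h3]
  exact eq_comm

end sim

/-! ### Encoded padded words -/

theorem padTo_length {u : List Sg} {N : ℕ} (h : u.length ≤ N) : (padTo u N).length = N := by
  simp [padTo]
  omega

theorem encY_length {u : List Sg} {N : ℕ} (h : u.length ≤ N) (w : List Bool) :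
    (encY (padTo u N, w)).length = N + w.length := by
  unfold encY
  rw [List.length_append, List.length_map, List.length_map, padTo_length h]

theorem encY_get_lt {u : List Sg} {N : ℕ} (w : List Bool) {p : ℕ} (hp : p < u.length) :
    (encY (padTo u N, w))[p]? = some (Sum.inl (some u[p])) := by
  simp [encY, padTo, List.getElem?_append, hp]

theorem encY_get_mid {u : List Sg} {N : ℕ} (h : u.length ≤ N) (w : List Bool) {p : ℕ}
    (hp : u.length ≤ p) (hp' : p < N) :
    (encY (padTo u N, w))[p]? = some (Sum.inl none) := by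
  have h1 : p < (padTo u N).length := by rw [padTo_length h]; exact hp'
  unfold encY
  simp only
  rw [List.getElem?_append_left (by rw [List.length_map]; exact h1), List.getElem?_map]
  have h2 : (padTo u N)[p]? = some none := by
    unfold padTo
    rw [List.getElem?_append_right (by rw [List.length_map]; exact hp), List.length_map,
      List.getElem?_replicate]
    rw [if_pos (by omega)]
  rw [h2]
  rfl

theorem encY_get_ge {u : List Sg} {N : ℕ} (h : u.length ≤ N) (w : List Bool) (k : ℕ) :
    (encY (padTo u N, w))[N + k]? = w[k]?.map Sum.inr := by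
  unfold encY
  simp only
  rw [List.getElem?_append_right (by rw [List.length_map, padTo_length h]; omega),
    List.length_map, padTo_length h, Nat.add_sub_cancel_left, List.getElem?_map]

theorem nz_encY {u : List Sg} {N : ℕ} (h : u.length ≤ N) (w : List Bool) :
    nz (encY (padTo u N, w)) = N := by
  unfold nz encY
  rw [List.countP_append]
  have h1 : ((padTo u N).map (Sum.inl : Option Sg → YL)).countP (fun l => l.isLeft) = N := by
    rw [List.countP_map]
    exact (List.countP_eq_length.2 (fun _ _ => rfl)).trans (padTo_length h)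
  have h2 : (w.map (Sum.inr : Bool → YL)).countP (fun l => l.isLeft) = 0 := by
    rw [List.countP_map, List.countP_eq_zero]
    intro a _
    simp
  simp only
  rw [h1, h2, Nat.add_zero]

theorem nu_encY (u : List Sg) (N : ℕ) (w : List Bool) :
    nu (encY (padTo u N, w)) = u.length := by
  unfold nu encY padTo
  simp only
  rw [List.countP_append, List.map_append, List.countP_append, List.countP_map, List.countP_map,
    List.countP_map, List.countP_map]
  have h1 : List.countP (((fun l : YL => Sum.elim Option.isSome (fun _ => false) l) ∘ Sum.inl) ∘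
      some) u = u.length := List.countP_eq_length.2 (fun _ _ => rfl)
  have h2 : List.countP ((fun l : YL => Sum.elim Option.isSome (fun _ => false) l) ∘ Sum.inl)
      (List.replicate (N - u.length) (none : Option Sg)) = 0 := by
    rw [List.countP_eq_zero]
    intro a ha
    obtain rfl := (List.mem_replicate.1 ha).2
    simp
  have h3 : List.countP ((fun l : YL => Sum.elim Option.isSome (fun _ => false) l) ∘ Sum.inr) w
      = 0 := by
    rw [List.countP_eq_zero]
    intro a _
    simp
  rw [h1, h2, h3, Nat.add_zero]

/-- The letters of the simulated machine. -/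
def mpL (l : Sg ⊕ Bool) : (Sg × Option Bool) ⊕ Bool := Sum.map (fun a => (a, a.v)) id l

open Classical in
/-- The codes of the letters, by their numbers. -/
noncomputable def codeN (code : (Sg × Option Bool) ⊕ Bool → ℕ) (i : ℕ) : ℕ :=
  if h : i < nLet then code (mpL ((Fintype.equivFin (Sg ⊕ Bool)).symm ⟨i, h⟩)) else 0

theorem codeN_ixL (code : (Sg × Option Bool) ⊕ Bool → ℕ) (l : Sg ⊕ Bool) :
    codeN code (ixL l) = code (mpL l) := by
  unfold codeN
  rw [dif_pos (ixL_lt l)]
  congr 2
  exact (Equiv.symm_apply_eq _).2 (Fin.ext rfl)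

section main

variable {C : CM} {ini ks ko : ℕ} {code : (Sg × Option Bool) ⊕ Bool → ℕ} {acc H : Set ℕ}

/-- The value of `lc` on a letter. -/
theorem lc_some {Y : List YL} (hT : (BY Y).T = tbOf C ini ks ko nLet (codeN code) acc H)
    (hL : tbLen C ini ks ko nLet ≤ Y.length) (hcode : ∀ a, code a < C.M0) {q : ℕ} {l : Sg ⊕ Bool}
    (h : Y[q]? = some (Sum.map some id l)) : lc Y q = code (mpL l) := by
  classical
  have hB : BY Y = ⟨Y.length, tbOf C ini ks ko nLet (codeN code) acc H⟩ := by rw [← hT]; rfl
  have hinj : ∀ l' : Sg ⊕ Bool, Sum.map some id l = (Sum.map some id l' : YL) ↔ l = l' := by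
    intro l'
    constructor
    · intro h'
      rcases l with a | b <;> rcases l' with a' | b' <;> simp at h' ⊢ <;> exact h'
    · rintro rfl; rfl
  unfold lc
  rw [Finset.sum_congr rfl (g := fun l' => if l = l' then (BY Y).code (ixL l') else 0)
    (fun l' _ => by
      rw [h]
      simp only [Option.some.injEq, hinj])]
  rw [Finset.sum_ite_eq Finset.univ l (fun l' => (BY Y).code (ixL l')), if_pos (Finset.mem_univ _),
    hB, tb_code hL (ixL_lt l) (by rw [codeN_ixL]; exact hcode _), codeN_ixL]

theorem lc_none {Y : List YL} {q : ℕ} (h : Y[q]? = none) : lc Y q = 0 := by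
  classical
  unfold lc
  refine Finset.sum_eq_zero fun l _ => ?_
  rw [h, if_neg (by simp)]

/-- The initial cells are those of the simulated machine. -/
theorem initv_eq {u : List Sg} {N : ℕ} (hN : u.length ≤ N) (w : List Bool)
    (hT : (BY (encY (padTo u N, w))).T = tbOf C ini ks ko nLet (codeN code) acc H)
    (hL : tbLen C ini ks ko nLet ≤ u.length) (hini : ini < C.M0) (hks : ks < C.κ)
    (hcode : ∀ a, code a < C.M0) :
    initv (encY (padTo u N, w)) = initc ini ks C.κ code
      ((encodingProd (encodingList (Sg × Option Bool)) (encodingList Bool)).encode (wv u, w)) := by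
  set Y := encY (padTo u N, w) with hY
  have hYl : Y.length = N + w.length := encY_length hN w
  have hLY : tbLen C ini ks ko nLet ≤ Y.length := by omega
  have hB : BY Y = ⟨Y.length, tbOf C ini ks ko nLet (codeN code) acc H⟩ := by rw [← hT]; rfl
  have e1 : (BY Y).ini = ini := by rw [hB]; exact tb_ini hLY hini
  have e2 : (BY Y).κ = C.κ := by rw [hB]; exact tb_κ hLY
  have e3 : (BY Y).ks = ks := by rw [hB]; exact tb_ks hLY hks
  have enc : (encodingProd (encodingList (Sg × Option Bool)) (encodingList Bool)).encode (wv u, w) =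
      (wv u).map Sum.inl ++ w.map Sum.inr := rfl
  have hcd : ∀ i, cdv Y i = (match ((wv u).map Sum.inl ++ w.map Sum.inr :
      List ((Sg × Option Bool) ⊕ Bool))[i]? with
      | some a => code a
      | none => 0) := by
    intro i
    unfold cdv
    rw [hY, nu_encY, nz_encY hN, ← hY]
    by_cases hi : i < u.length
    · rw [if_pos hi]
      have h1 : Y[i]? = some (Sum.map some id (Sum.inl u[i] : Sg ⊕ Bool)) := encY_get_lt w hi
      rw [lc_some hT hLY hcode h1]
      have h2 : ((wv u).map Sum.inl ++ w.map Sum.inr : List ((Sg × Option Bool) ⊕ Bool))[i]? =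
          some (mpL (Sum.inl u[i])) := by
        rw [List.getElem?_append_left (by simp [wv, hi])]
        simp [wv, hi, mpL]
      rw [h2]
    · rw [if_neg hi]
      have h2 : ((wv u).map Sum.inl ++ w.map Sum.inr : List ((Sg × Option Bool) ⊕ Bool))[i]? =
          w[i - u.length]?.map Sum.inr := by
        rw [List.getElem?_append_right (by simp [wv]; omega)]
        simp [wv]
      rw [h2]
      have h3 : Y[N + (i - u.length)]? = w[i - u.length]?.map Sum.inr := encY_get_ge hN w _
      cases hw : w[i - u.length]? with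
      | none =>
        rw [hw] at h3
        rw [lc_none h3]
        rfl
      | some b =>
        rw [hw] at h3
        rw [lc_some (l := Sum.inr b) hT hLY hcode h3]
        rfl
  funext pos
  unfold initv initc
  rw [e1, e2, e3, hcd, enc]
  cases ((wv u).map Sum.inl ++ w.map Sum.inr :
      List ((Sg × Option Bool) ⊕ Bool))[(pos - 1) / C.κ]? <;> rfl

/-- The tracks of the encoded padded words. -/
theorem BY_T {u : List Sg} {N : ℕ} (hN : u.length ≤ N) (w : List Bool) {tb : ℕ → Fin 10 → Bool}
    {t : Fin 10 → ℕ → Prop} (htb : ∀ p j, tb p j = true ↔ t j p) {n₀ : ℕ}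
    (hn : ∀ p j, t j p → p < n₀) (hu : n₀ ≤ u.length)
    (h : ∀ p a, u[p]? = some a → a.cd = tb p) : (BY (encY (padTo u N, w))).T = t := by
  funext j p
  apply propext
  change cdOf j (encY (padTo u N, w))[p]? ↔ t j p
  unfold cdOf
  by_cases hp : p < u.length
  · rw [encY_get_lt w hp]
    constructor
    · rintro ⟨a, h1, h2⟩
      have h3 : u[p] = a := by simpa using h1
      rw [← htb, ← h p u[p] (by simp [hp]), h3]
      exact h2
    · intro h1
      refine ⟨u[p], rfl, ?_⟩
      rw [h p u[p] (by simp [hp])]
      exact (htb p j).2 h1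
  · constructor
    · rintro ⟨a, h1, _⟩
      by_cases hp' : p < N
      · rw [encY_get_mid hN w (by omega) hp'] at h1
        simp at h1
      · obtain ⟨k, rfl⟩ := Nat.exists_eq_add_of_le (not_lt.1 hp')
        rw [encY_get_ge hN w k] at h1
        cases hw : w[k]? with
        | none => rw [hw] at h1; simp at h1
        | some b => rw [hw] at h1; simp at h1
    · intro h1
      have := hn p j h1
      omega

end main

/-- **The universal verifier** simulates every polynomial time verifier. -/
theorem uver_spec (R : List (Sg × Option Bool) × List Bool → Bool)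
    (hR : Nonempty (TM2ComputableInPolyTime
      (encodingProd (encodingList (Sg × Option Bool)) (encodingList Bool)).encode encodeBool R)) :
    ∃ (tb : ℕ → Fin 10 → Bool) (P : Polynomial ℕ) (n₀ : ℕ), ∀ u : List Sg, n₀ ≤ u.length →
      (∀ p a, u[p]? = some a → a.cd = tb p) → ∀ N, u.length ≤ N → ∀ w : List Bool,
        (uver (padTo u N, w) = true → R (wv u, w) = true) ∧
        (P.eval (u.length + w.length) ≤ N + w.length → R (wv u, w) = true →
          uver (padTo u N, w) = true) := by
  classical
  obtain ⟨hR⟩ := hR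
  obtain ⟨C, ini, ks, ko, code, acc, H, P, hini, hks, hko, hcode, hspec⟩ := exists_cmH _ R hR
  refine ⟨fun p j => decide (tbOf C ini ks ko nLet (codeN code) acc H j p), P,
    tbLen C ini ks ko nLet, fun u hu htb N hN w => ?_⟩
  set Y := encY (padTo u N, w) with hY
  have hT : (BY Y).T = tbOf C ini ks ko nLet (codeN code) acc H :=
    BY_T hN w (tb := fun p j => decide (tbOf C ini ks ko nLet (codeN code) acc H j p))
      (fun p j => by simp) (fun p j h => tbOf_lt h) hu htb
  have hYl : Y.length = N + w.length := encY_length hN w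
  have hLY : tbLen C ini ks ko nLet ≤ Y.length := by omega
  have hM0 : C.M0 ≤ Y.length := by unfold tbLen at hLY; omega
  have hκ : C.κ ≤ Y.length := by unfold tbLen at hLY; omega
  set W := (Y.length + 3) ^ 2 with hWd
  have hW : W * C.M0 ≤ len0 Y.length := by
    unfold len0
    calc W * C.M0 ≤ (Y.length + 3) ^ 2 * (Y.length + 3) := Nat.mul_le_mul le_rfl (by omega)
      _ = (Y.length + 3) ^ 3 := by ring
  set c := initc ini ks C.κ code
    ((encodingProd (encodingList (Sg × Option Bool)) (encodingList Bool)).encode (wv u, w)) with hc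
  have hclt : ∀ p, c p < C.M0 := fun p => initc_lt hini hcode _ p
  have hiv : initv Y = c := initv_eq hN w hT hu hini hks hcode
  have h0 : ∀ pos < W, cell (F0 Y) pos = c pos := fun pos hpos => by
    rw [← hiv]
    exact cell_F0 hT hLY hW hpos (by rw [hiv]; exact hclt pos)
  have hBG : (BG (F0 Y)).T = tbOf C ini ks ko nLet (codeN code) acc H := by rw [BG_F0, hT]
  have hlen0 : (F0 Y).length = len0 Y.length := F0_length Y
  have hL0 : tbLen C ini ks ko nLet ≤ (F0 Y).length := by
    rw [hlen0]; exact hLY.trans (len_le_len0 _)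
  have key := iter_cell hBG hL0 (by rw [hlen0]; exact hW) hclt h0 Y.length
  have hbd : 1 + ko + Y.length * C.κ < W := by
    rw [hWd]
    have h1 : Y.length * C.κ ≤ Y.length * Y.length := Nat.mul_le_mul_left _ hκ
    have h2 : (Y.length + 3) ^ 2 = Y.length * Y.length + 6 * Y.length + 9 := by ring
    omega
  have k0 : cell (F1^[Y.length] (F0 Y)) 0 = C.step^[Y.length] c 0 := key 0 (by omega)
  have k1 : cell (F1^[Y.length] (F0 Y)) (1 + ko) = C.step^[Y.length] c (1 + ko) :=
    key (1 + ko) hbd
  have hlt := C.iter_lt c hclt Y.length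
  have hBt : BG (F1^[Y.length] (F0 Y)) =
      ⟨len0 Y.length, tbOf C ini ks ko nLet (codeN code) acc H⟩ := by
    rw [iter_BG, BG_F0, hT]
  have hL0' : tbLen C ini ks ko nLet ≤ len0 Y.length := hLY.trans (len_le_len0 _)
  have hfin : uver (padTo u N, w) = true ↔
      (C.step^[Y.length] c 0 ∈ H ∧ C.step^[Y.length] c (1 + ko) ∈ acc) := by
    unfold uver
    rw [decide_eq_true_iff, ← hY]
    unfold Racc
    rw [hBt, tb_ko hL0' hko, k0, k1, tb_halt hL0' (hlt 0), tb_acc (hlt _)]
  obtain ⟨s1, s2⟩ := hspec (wv u, w) Y.length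
  have hel : ((encodingProd (encodingList (Sg × Option Bool)) (encodingList Bool)).encode
      (wv u, w)).length = u.length + w.length := by
    change ((wv u).map Sum.inl ++ w.map Sum.inr : List ((Sg × Option Bool) ⊕ Bool)).length = _
    simp [wv]
  rw [hfin]
  constructor
  · rintro ⟨h1, h2⟩
    exact (s1 h1).2 h2
  · intro hP hRt
    rw [hel, hYl] at s2
    rw [← hYl] at s2 hP
    have h1 := s2 hP
    exact ⟨h1, (s1 h1).1 hRt⟩

end Pool.Agent.BookPL
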