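import Pool.Agent.Book19.Letter
import Pool.Agent.PT.Coded

/-!
# Program tables: a coded machine written on ten tracks
-/

set_option autoImplicit false

namespace Pool.Agent.BookPL

open Pool.Agent.PT Pool.Agent.Book19

open Classical in
/-- The number below `K` written in unary one-hot form from position `b` on. -/
noncomputable def dnum (t : ℕ → Prop) (b K : ℕ) : ℕ :=
  ∑ j ∈ Finset.range K, if t (b + j) then j else 0

open Classical in
/-- The number of positions below `L` with the property `t`. -/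
noncomputable def cnt (t : ℕ → Prop) (L : ℕ) : ℕ :=
  ∑ j ∈ Finset.range L, if t j then 1 else 0

theorem dnum_eq {t : ℕ → Prop} {b K v : ℕ} (hv : v < K) (h : ∀ j < K, t (b + j) ↔ j = v) :
    dnum t b K = v := by
  classical
  unfold dnum
  rw [Finset.sum_congr rfl (g := fun j => if j = v then j else 0) (fun j hj => by
    rw [Finset.mem_range] at hj
    simp only [h j hj])]
  rw [Finset.sum_ite_eq' (Finset.range K) v (fun j => j)]
  simp [hv]

theorem dnum_table {t : ℕ → Prop} {f : ℕ → ℕ} {n K a : ℕ}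
    (ht : ∀ p, t p ↔ p < n * K ∧ f (p / K) = p % K) (ha : a < n) (hf : f a < K) :
    dnum t (a * K) K = f a := by
  refine dnum_eq hf fun j hj => ?_
  have h1 : a * K + j < n * K := by
    calc a * K + j < a * K + K := by omega
      _ = (a + 1) * K := by ring
      _ ≤ n * K := Nat.mul_le_mul_right _ ha
  have h2 : (a * K + j) / K = a := by
    rw [Nat.add_comm, Nat.add_mul_div_right _ _ (by omega), Nat.div_eq_of_lt hj]; omega
  have h3 : (a * K + j) % K = j := by
    rw [Nat.add_comm, Nat.add_mul_mod_self_right, Nat.mod_eq_of_lt hj]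
  rw [ht, h2, h3]
  exact ⟨fun h => h.2.symm, fun h => ⟨h1, h.symm⟩⟩

theorem cnt_eq {t : ℕ → Prop} {m L : ℕ} (ht : ∀ p, t p ↔ p < m) (h : m ≤ L) : cnt t L = m := by
  classical
  unfold cnt
  simp only [ht]
  rw [← Finset.sum_filter]
  have : (Finset.range L).filter (fun i => i < m) = Finset.range m := by
    ext i
    simp only [Finset.mem_filter, Finset.mem_range]
    omega
  rw [this]
  simp

section uf

variable {Γ : Type}

theorem uf_dnum {t : List Γ → ℕ → Prop} (ht : UP (fun x e => t x (e 0)))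
    {b K : List Γ → (ℕ → ℕ) → ℕ} (hb : UF b) (hK : UF K) :
    UF (fun x e => dnum (t x) (b x e) (K x e)) := by
  classical
  refine UF.sum (f := fun x e j => if t x (b x e + j) then j else 0) hK ?_
  exact UF.ite (inst := fun _ _ => _) (UP.comp₁ (P := fun x p => t x p) ht
    ((UF.ren (fun i => i + 1) hb).add (UF.var 0))) (UF.var 0) (UF.const 0)

theorem uf_cnt {t : List Γ → ℕ → Prop} (ht : UP (fun x e => t x (e 0)))
    {K : List Γ → (ℕ → ℕ) → ℕ} (hK : UF K) : UF (fun x e => cnt (t x) (K x e)) := by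
  classical
  refine UF.sum (f := fun x e j => if t x j then 1 else 0) hK ?_
  exact UF.ite (inst := fun _ _ => _) (UP.comp₁ (P := fun x p => t x p) ht (UF.var 0))
    (UF.const 1) (UF.const 0)

end uf

/-- Ten tracks of a word of length `L`. -/
structure Tb where
  L : ℕ
  T : Fin 10 → ℕ → Prop

namespace Tb

variable (B : Tb)

/-- number of cell values -/
noncomputable def M : ℕ := cnt (B.T 0) B.L
/-- number of stacks -/
noncomputable def κ : ℕ := cnt (B.T 1) B.L
/-- initial control -/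
noncomputable def ini : ℕ := dnum (B.T 2) 0 B.M
/-- input stack -/
noncomputable def ks : ℕ := dnum (B.T 3) 0 B.κ
/-- output stack -/
noncomputable def ko : ℕ := dnum (B.T 4) 0 B.κ
/-- stack of a control -/
noncomputable def stk (a : ℕ) : ℕ := dnum (B.T 5) (a * B.κ) B.κ
/-- operation of a control -/
noncomputable def op (a : ℕ) : ℕ := dnum (B.T 6) (a * (B.M + 2)) (B.M + 2)
/-- next control -/
noncomputable def nx (a b : ℕ) : ℕ := dnum (B.T 7) ((a * B.M + b) * B.M) B.M
/-- codes of letters -/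
noncomputable def code (i : ℕ) : ℕ := dnum (B.T 8) (i * B.M) B.M
/-- accepting outputs -/
def acc (c : ℕ) : Prop := B.T 9 c
/-- halted controls -/
def halt (c : ℕ) : Prop := B.T 9 (B.M + c)

/-- The cell read in order to determine cell `pos`, when the control is `a`. -/
noncomputable def R (pos a : ℕ) : ℕ :=
  if pos = 0 then 1 + B.stk a
  else if (pos - 1) % B.κ = B.stk a then
    (if B.op a = 0 then pos
     else if B.op a = 1 then pos + B.κ
     else if pos - 1 < B.κ then pos else pos - B.κ)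
  else pos

/-- The new value of cell `pos`, when the control is `a` and the value read is `b`. -/
noncomputable def V (pos a b : ℕ) : ℕ :=
  if pos = 0 then B.nx a b
  else if (pos - 1) % B.κ = B.stk a ∧ 2 ≤ B.op a ∧ pos - 1 < B.κ then B.op a - 2
  else b

/-- The tables describe the coded machine `C`. -/
structure Agree (C : CM) : Prop where
  hM : B.M = C.M0
  hκ : B.κ = C.κ
  stk : ∀ a < C.M0, B.stk a = C.stk a
  op : ∀ a < C.M0, B.op a = C.op a
  nx : ∀ a < C.M0, ∀ b < C.M0, B.nx a b = C.nx a b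

variable {B}

theorem Agree.R_eq {C : CM} (h : B.Agree C) (pos : ℕ) {a : ℕ} (ha : a < C.M0) :
    B.R pos a = C.R pos a := by
  unfold R CM.R
  rw [h.stk a ha, h.op a ha, h.hκ]

theorem Agree.V_eq {C : CM} (h : B.Agree C) (pos : ℕ) {a b : ℕ} (ha : a < C.M0)
    (hb : b < C.M0) : B.V pos a b = C.V pos a b := by
  unfold V CM.V
  rw [h.stk a ha, h.op a ha, h.hκ, h.nx a ha b hb]

section uf

variable {Γ : Type} {Bx : List Γ → Tb}

variable (hL : UF (fun x _ => (Bx x).L)) (hT : ∀ j, UP (fun x e => (Bx x).T j (e 0)))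

include hL hT

theorem uM : UF (fun x _ => (Bx x).M) := uf_cnt (hT 0) hL
theorem uκ : UF (fun x _ => (Bx x).κ) := uf_cnt (hT 1) hL
theorem uini : UF (fun x _ => (Bx x).ini) := uf_dnum (hT 2) (UF.const 0) (uM hL hT)
theorem uks : UF (fun x _ => (Bx x).ks) := uf_dnum (hT 3) (UF.const 0) (uκ hL hT)
theorem uko : UF (fun x _ => (Bx x).ko) := uf_dnum (hT 4) (UF.const 0) (uκ hL hT)

theorem ustk {f : List Γ → (ℕ → ℕ) → ℕ} (hf : UF f) : UF (fun x e => (Bx x).stk (f x e)) :=
  uf_dnum (hT 5) (hf.mul (uκ hL hT)) (uκ hL hT)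

theorem uop {f : List Γ → (ℕ → ℕ) → ℕ} (hf : UF f) : UF (fun x e => (Bx x).op (f x e)) :=
  uf_dnum (hT 6) (hf.mul ((uM hL hT).add (UF.const 2))) ((uM hL hT).add (UF.const 2))

theorem unx {f g : List Γ → (ℕ → ℕ) → ℕ} (hf : UF f) (hg : UF g) :
    UF (fun x e => (Bx x).nx (f x e) (g x e)) :=
  uf_dnum (hT 7) (((hf.mul (uM hL hT)).add hg).mul (uM hL hT)) (uM hL hT)

theorem ucode {f : List Γ → (ℕ → ℕ) → ℕ} (hf : UF f) : UF (fun x e => (Bx x).code (f x e)) :=
  uf_dnum (hT 8) (hf.mul (uM hL hT)) (uM hL hT)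

omit hL in
theorem uacc {f : List Γ → (ℕ → ℕ) → ℕ} (hf : UF f) : UP (fun x e => (Bx x).acc (f x e)) :=
  UP.comp₁ (P := fun x p => (Bx x).T 9 p) (hT 9) hf

theorem uhalt {f : List Γ → (ℕ → ℕ) → ℕ} (hf : UF f) : UP (fun x e => (Bx x).halt (f x e)) :=
  UP.comp₁ (P := fun x p => (Bx x).T 9 p) (hT 9) ((uM hL hT).add hf)

theorem uR {f g : List Γ → (ℕ → ℕ) → ℕ} (hf : UF f) (hg : UF g) :
    UF (fun x e => (Bx x).R (f x e) (g x e)) := by
  have hs := ustk hL hT hg
  have ho := uop hL hT hg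
  have hk := uκ hL hT
  unfold R
  exact UF.ite (UP.eq hf (UF.const 0)) ((UF.const 1).add hs)
    (UF.ite (UP.eq ((hf.sub (UF.const 1)).mod hk) hs)
      (UF.ite (UP.eq ho (UF.const 0)) hf
        (UF.ite (UP.eq ho (UF.const 1)) (hf.add hk)
          (UF.ite (UP.lt (hf.sub (UF.const 1)) hk) hf (hf.sub hk)))) hf)

theorem uV {f g h : List Γ → (ℕ → ℕ) → ℕ} (hf : UF f) (hg : UF g) (hh : UF h) :
    UF (fun x e => (Bx x).V (f x e) (g x e) (h x e)) := by
  have hs := ustk hL hT hg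
  have ho := uop hL hT hg
  have hk := uκ hL hT
  have hn := unx hL hT hg hh
  unfold V
  exact UF.ite (UP.eq hf (UF.const 0)) hn
    (UF.ite ((UP.eq ((hf.sub (UF.const 1)).mod hk) hs).and
      ((UP.le (UF.const 2) ho).and (UP.lt (hf.sub (UF.const 1)) hk)))
      (ho.sub (UF.const 2)) hh)

end uf

end Tb

/-- The tracks of a coded machine. -/
def tbOf (C : CM) (ini ks ko K : ℕ) (code : ℕ → ℕ) (acc H : Set ℕ) (j : Fin 10) (p : ℕ) : Prop :=
  match j with
  | 0 => p < C.M0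
  | 1 => p < C.κ
  | 2 => p = ini
  | 3 => p = ks
  | 4 => p = ko
  | 5 => p < C.M0 * C.κ ∧ C.stk (p / C.κ) = p % C.κ
  | 6 => p < C.M0 * (C.M0 + 2) ∧ C.op (p / (C.M0 + 2)) = p % (C.M0 + 2)
  | 7 => p < C.M0 * C.M0 * C.M0 ∧ C.nx (p / C.M0 / C.M0) (p / C.M0 % C.M0) = p % C.M0
  | 8 => p < K * C.M0 ∧ code (p / C.M0) = p % C.M0
  | 9 => (p < C.M0 ∧ p ∈ acc) ∨ (C.M0 ≤ p ∧ p < 2 * C.M0 ∧ p - C.M0 ∈ H)

section tb

variable {C : CM} {ini ks ko K : ℕ} {code : ℕ → ℕ} {acc H : Set ℕ}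

/-- Length of the program. -/
def tbLen (C : CM) (ini ks ko K : ℕ) : ℕ :=
  C.M0 + C.κ + (ini + 1) + (ks + 1) + (ko + 1) + C.M0 * C.κ + C.M0 * (C.M0 + 2) +
    C.M0 * C.M0 * C.M0 + K * C.M0 + 2 * C.M0

theorem tbOf_lt {j : Fin 10} {p : ℕ} (h : tbOf C ini ks ko K code acc H j p) :
    p < tbLen C ini ks ko K := by
  unfold tbLen
  fin_cases j <;> simp only [tbOf] at h
  all_goals omega

variable {L : ℕ}

theorem tb_M (hL : tbLen C ini ks ko K ≤ L) :
    (Tb.mk L (tbOf C ini ks ko K code acc H)).M = C.M0 :=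
  cnt_eq (fun _ => Iff.rfl) (by unfold tbLen at hL; change C.M0 ≤ L; omega)

theorem tb_κ (hL : tbLen C ini ks ko K ≤ L) :
    (Tb.mk L (tbOf C ini ks ko K code acc H)).κ = C.κ :=
  cnt_eq (fun _ => Iff.rfl) (by unfold tbLen at hL; change C.κ ≤ L; omega)

theorem tb_ini (hL : tbLen C ini ks ko K ≤ L) (h : ini < C.M0) :
    (Tb.mk L (tbOf C ini ks ko K code acc H)).ini = ini := by
  unfold Tb.ini
  rw [tb_M hL]
  refine dnum_eq h fun j _ => ?_
  change 0 + j = ini ↔ _
  rw [zero_add]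

theorem tb_ks (hL : tbLen C ini ks ko K ≤ L) (h : ks < C.κ) :
    (Tb.mk L (tbOf C ini ks ko K code acc H)).ks = ks := by
  unfold Tb.ks
  rw [tb_κ hL]
  refine dnum_eq h fun j _ => ?_
  change 0 + j = ks ↔ _
  rw [zero_add]

theorem tb_ko (hL : tbLen C ini ks ko K ≤ L) (h : ko < C.κ) :
    (Tb.mk L (tbOf C ini ks ko K code acc H)).ko = ko := by
  unfold Tb.ko
  rw [tb_κ hL]
  refine dnum_eq h fun j _ => ?_
  change 0 + j = ko ↔ _
  rw [zero_add]

theorem tb_code (hL : tbLen C ini ks ko K ≤ L) {i : ℕ} (hi : i < K) (h : code i < C.M0) :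
    (Tb.mk L (tbOf C ini ks ko K code acc H)).code i = code i := by
  unfold Tb.code
  rw [tb_M hL]
  exact dnum_table (f := code) (n := K) (fun _ => Iff.rfl) hi h

theorem tb_agree (hL : tbLen C ini ks ko K ≤ L) :
    (Tb.mk L (tbOf C ini ks ko K code acc H)).Agree C := by
  refine ⟨tb_M hL, tb_κ hL, fun a ha => ?_, fun a ha => ?_, fun a ha b hb => ?_⟩
  · unfold Tb.stk
    rw [tb_κ hL]
    exact dnum_table (f := C.stk) (n := C.M0) (fun _ => Iff.rfl) ha (C.stk_lt a)
  · unfold Tb.op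
    rw [tb_M hL]
    exact dnum_table (f := C.op) (n := C.M0) (fun _ => Iff.rfl) ha (C.op_lt a)
  · unfold Tb.nx
    rw [tb_M hL]
    have h1 : a * C.M0 + b < C.M0 * C.M0 := by
      calc a * C.M0 + b < a * C.M0 + C.M0 := by omega
        _ = (a + 1) * C.M0 := by ring
        _ ≤ C.M0 * C.M0 := Nat.mul_le_mul_right _ ha
    have h2 : (a * C.M0 + b) / C.M0 = a := by
      rw [Nat.add_comm, Nat.add_mul_div_right _ _ (by omega), Nat.div_eq_of_lt hb]; omega
    have h3 : (a * C.M0 + b) % C.M0 = b := by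
      rw [Nat.add_comm, Nat.add_mul_mod_self_right, Nat.mod_eq_of_lt hb]
    have h4 := dnum_table (t := tbOf C ini ks ko K code acc H 7)
      (f := fun i => C.nx (i / C.M0) (i % C.M0)) (n := C.M0 * C.M0) (K := C.M0)
      (fun _ => Iff.rfl) h1 (C.nx_lt _ _)
    simp only [h2, h3] at h4
    exact h4

theorem tb_acc {c : ℕ} (hc : c < C.M0) :
    (Tb.mk L (tbOf C ini ks ko K code acc H)).acc c ↔ c ∈ acc := by
  change (c < C.M0 ∧ c ∈ acc) ∨ (C.M0 ≤ c ∧ c < 2 * C.M0 ∧ c - C.M0 ∈ H) ↔ _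
  constructor
  · rintro (h | h)
    · exact h.2
    · omega
  · exact fun h => Or.inl ⟨hc, h⟩

theorem tb_halt (hL : tbLen C ini ks ko K ≤ L) {c : ℕ} (hc : c < C.M0) :
    (Tb.mk L (tbOf C ini ks ko K code acc H)).halt c ↔ c ∈ H := by
  unfold Tb.halt
  rw [tb_M hL]
  change (C.M0 + c < C.M0 ∧ C.M0 + c ∈ acc) ∨
    (C.M0 ≤ C.M0 + c ∧ C.M0 + c < 2 * C.M0 ∧ C.M0 + c - C.M0 ∈ H) ↔ _
  rw [Nat.add_sub_cancel_left]
  constructor
  · rintro (h | h)
    · omega
    · exact h.2.2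
  · exact fun h => Or.inr ⟨by omega, by omega, h⟩

end tb

end Pool.Agent.BookPL
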