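import Pool.Agent.BookPL.UniSim
import Pool.Agent.Book19.ComapGen

/-!
# The universal languages for P and NP
-/

set_option autoImplicit false

namespace Pool.Agent.BookPL

open Pool.Agent.PT Pool.Agent.Book19 Turing Computability

/-- Polynomials are bounded by powers. -/
theorem poly_le_pow (P : Polynomial ℕ) : ∃ c, ∀ n, 2 ≤ n → ∀ d, c ≤ d → P.eval n ≤ n ^ d := by
  obtain ⟨-, c, hc⟩ := PB.ofPoly P
  refine ⟨2 * c, fun n hn d hd => (hc n).trans ?_⟩
  calc (n + 2) ^ c ≤ (n ^ 2) ^ c := Nat.pow_le_pow_left (by nlinarith) c
    _ = n ^ (2 * c) := by rw [← pow_mul]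
    _ ≤ n ^ d := Nat.pow_le_pow_right (by omega) hd

section

variable {A : Type} [Fintype A]

/-- The letters of the first component. -/
def fstL (a₀ : A) (Y : List (A ⊕ Bool)) (i : ℕ) : A :=
  match Y[i]? with
  | some (Sum.inl a) => a
  | _ => a₀

theorem up_fstL (a₀ a : A) : UP (fun Y e => fstL a₀ Y (e 0) = a) := by
  have h1 : UP (fun (Y : List (A ⊕ Bool)) e => Y[e 0]? = some (Sum.inl a)) := UP.sym _ (UF.var 0)
  have h2 : UP (fun (Y : List (A ⊕ Bool)) e => ∃ b, Y[e 0]? = some (Sum.inl b)) :=
    UP.fex (fun b => UP.sym _ (UF.var 0))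
  refine (h1.or (h2.not.and (UP.const (a₀ = a)))).congr fun Y e => ?_
  unfold fstL
  rcases h : Y[e 0]? with _ | (b | b)
  · simp
  · simp
  · simp

omit [Fintype A] in
theorem countL (x : List A) (w : List Bool) :
    (x.map Sum.inl ++ w.map Sum.inr : List (A ⊕ Bool)).countP (fun l => l.isLeft) = x.length := by
  rw [List.countP_append, List.countP_map, List.countP_map]
  have h1 : List.countP ((fun l : A ⊕ Bool => l.isLeft) ∘ Sum.inl) x = x.length :=
    List.countP_eq_length.2 (fun _ _ => rfl)
  have h2 : List.countP ((fun l : A ⊕ Bool => l.isLeft) ∘ Sum.inr) w = 0 := by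
    rw [List.countP_eq_zero]
    intro a _
    simp
  rw [h1, h2, Nat.add_zero]

/-- A decider of words as a verifier. -/
theorem poly_fst (a₀ : A) (f : List A → Bool)
    (hf : Nonempty (TM2ComputableInPolyTime (encodingList A).encode encodeBool f)) :
    Nonempty (TM2ComputableInPolyTime (encodingProd (encodingList A) (encodingList Bool)).encode
      encodeBool (fun q : List A × List Bool => f q.1)) := by
  refine polyTime_comap _ f hf _ (fun q : List A × List Bool => q.1)
    (N := fun Y => Y.countP (fun l => l.isLeft)) (lt := fstL a₀) (UF.countP _) (up_fstL a₀) ?_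
    (V := fun _ => True) UP.true true _ (fun q => by simp)
  rintro ⟨x, w⟩
  change x = (List.range ((x.map Sum.inl ++ w.map Sum.inr : List (A ⊕ Bool)).countP
    (fun l => l.isLeft))).map (fstL a₀ (x.map Sum.inl ++ w.map Sum.inr))
  rw [countL]
  refine List.ext_getElem? fun i => ?_
  by_cases hi : i < x.length
  · rw [List.getElem?_map, List.getElem?_range hi]
    simp [fstL, List.getElem?_append, hi]
  · rw [List.getElem?_eq_none (by omega), List.getElem?_eq_none (by simp; omega)]

/-- A verifier with empty certificates as a decider. -/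
theorem poly_nil (R : List A × List Bool → Bool)
    (hR : Nonempty (TM2ComputableInPolyTime
      (encodingProd (encodingList A) (encodingList Bool)).encode encodeBool R)) :
    Nonempty (TM2ComputableInPolyTime (encodingList A).encode encodeBool
      (fun x : List A => R (x, []))) := by
  refine polyTime_comap _ R hR _ (fun x : List A => (x, ([] : List Bool)))
    (N := fun x => x.length)
    (lt := fun (x : List A) i => match x[i]? with
      | some a => (Sum.inl a : A ⊕ Bool)
      | none => Sum.inr false) UF.len ?_ ?_ (V := fun _ => True) UP.true true _ (fun q => by simp)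
  · rintro (a | b)
    · refine (UP.sym a (UF.var 0)).congr fun x e => ?_
      cases h : x[e 0]? <;> simp
    · refine ((UP.fex (fun a : A => UP.sym a (UF.var 0))).not.and (UP.const (b = false))).congr
        fun x e => ?_
      cases h : x[e 0]? with
      | none => cases b <;> simp
      | some a => simp
  · intro x
    have e : (encodingList A).encode x = x := rfl
    rw [e]
    change (x.map Sum.inl ++ ([] : List Bool).map Sum.inr : List (A ⊕ Bool)) =
      (List.range x.length).map _
    refine List.ext_getElem? fun i => ?_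
    by_cases hi : i < x.length
    · rw [List.getElem?_map, List.getElem?_range hi]
      simp [hi]
    · rw [List.getElem?_eq_none (by simp; omega), List.getElem?_eq_none (by simp; omega)]

/-- Restricting the length of the certificates. -/
theorem poly_restrict (p : Polynomial ℕ) (R : List A × List Bool → Bool)
    (hR : Nonempty (TM2ComputableInPolyTime
      (encodingProd (encodingList A) (encodingList Bool)).encode encodeBool R)) :
    Nonempty (TM2ComputableInPolyTime
      (encodingProd (encodingList A) (encodingList Bool)).encode encodeBool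
      (fun q : List A × List Bool => decide (q.2.length ≤ p.eval q.1.length) && R q)) := by
  have hc : UF (fun (Y : List (A ⊕ Bool)) _ => Y.countP (fun l => l.isLeft)) := UF.countP _
  refine polyTime_comap _ R hR _ (fun q : List A × List Bool => q)
    (N := fun Y => Y.length)
    (lt := fun (Y : List (A ⊕ Bool)) i => match Y[i]? with
      | some l => l
      | none => Sum.inr false) UF.len ?_ ?_
    (V := fun Y => Y.length - Y.countP (fun l => l.isLeft) ≤
      p.eval (Y.countP (fun l => l.isLeft))) (UP.le (UF.len.sub hc) (UF.poly p hc)) true _ ?_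
  · intro a
    refine ((UP.sym a (UF.var 0)).or ((UP.fex (fun l : A ⊕ Bool => UP.sym l (UF.var 0))).not.and
      (UP.const (Sum.inr false = a)))).congr fun x e => ?_
    cases h : x[e 0]? with
    | none => simp
    | some l => simp
  · intro q
    generalize (encodingProd (encodingList A) (encodingList Bool)).encode q = Y
    refine List.ext_getElem? fun i => ?_
    by_cases hi : i < Y.length
    · rw [List.getElem?_map, List.getElem?_range hi]
      simp [hi]
    · rw [List.getElem?_eq_none (by omega), List.getElem?_eq_none (by simp; omega)]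
  · rintro ⟨x, w⟩
    change _ ↔ (x.map Sum.inl ++ w.map Sum.inr : List (A ⊕ Bool)).length -
      (x.map Sum.inl ++ w.map Sum.inr : List (A ⊕ Bool)).countP (fun l => l.isLeft) ≤
        p.eval ((x.map Sum.inl ++ w.map Sum.inr : List (A ⊕ Bool)).countP (fun l => l.isLeft)) ∧
      R (x, w) = true
    rw [countL]
    simp

end

/-- Universal language for P. -/
def UP1 : Set (List (Option Sg)) := {z | uver (z, []) = true}

/-- Universal language for NP. -/
def UNP : Set (List (Option Sg)) := {z | ∃ w : List Bool, w.length ≤ z.length ∧ uver (z, w) = true}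

theorem UP1_mem : InP (Option Sg) UP1 :=
  ⟨fun z => uver (z, []), poly_nil uver uver_poly, fun _ => Iff.rfl⟩

theorem UNP_mem : InNPc (Option Sg) UNP :=
  ⟨Polynomial.X, uver, uver_poly, fun x => by simp [UNP]⟩

theorem UP1_univ (V : Set (List (Sg × Option Bool))) (hV : InP _ V) :
    ∃ (tb : ℕ → Fin 10 → Bool) (c n₀ : ℕ), ∀ u : List Sg, n₀ ≤ u.length →
      (∀ p a, u[p]? = some a → a.cd = tb p) →
      ∀ N, u.length ^ c ≤ N → (padTo u N ∈ UP1 ↔ wv u ∈ V) := by
  obtain ⟨f, hf, hfV⟩ := hV
  let a₀ : Sg × Option Bool := (⟨fun _ => false, false, false, none, none⟩, none)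
  obtain ⟨tb, P, n₀, h⟩ := uver_spec (fun q => f q.1) (poly_fst a₀ f hf)
  obtain ⟨c, hc⟩ := poly_le_pow P
  refine ⟨tb, c + 1, n₀ + 2, fun u hu htb N hN => ?_⟩
  have h1 : u.length ≤ N := by
    refine le_trans ?_ hN
    exact Nat.le_self_pow (by omega) _
  have h2 : P.eval u.length ≤ N := (hc _ (by omega) (c + 1) (by omega)).trans hN
  obtain ⟨g1, g2⟩ := h u (by omega) htb N h1 []
  rw [hfV]
  constructor
  · exact fun hz => g1 hz
  · exact fun hz => g2 (by simpa using h2) hz

theorem UNP_univ (V : Set (List (Sg × Option Bool))) (hV : InNPc _ V) :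
    ∃ (tb : ℕ → Fin 10 → Bool) (c n₀ : ℕ), ∀ u : List Sg, n₀ ≤ u.length →
      (∀ p a, u[p]? = some a → a.cd = tb p) →
      ∀ N, u.length ^ c ≤ N → (padTo u N ∈ UNP ↔ wv u ∈ V) := by
  obtain ⟨p, R, hR, hRV⟩ := hV
  obtain ⟨tb, P, n₀, h⟩ := uver_spec _ (poly_restrict p R hR)
  -- the bound for the time
  obtain ⟨c, hc⟩ := poly_le_pow (P.comp (Polynomial.X + p))
  obtain ⟨c', hc'⟩ := poly_le_pow p
  refine ⟨tb, c + c' + 1, n₀ + 2, fun u hu htb N hN => ?_⟩
  have h1 : u.length ≤ N := by
    refine le_trans ?_ hN
    exact Nat.le_self_pow (by omega) _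
  have h2 : P.eval (u.length + p.eval u.length) ≤ N := by
    have := (hc u.length (by omega) (c + c' + 1) (by omega)).trans hN
    simpa [Polynomial.eval_comp] using this
  have h3 : p.eval u.length ≤ N := (hc' u.length (by omega) (c + c' + 1) (by omega)).trans hN
  have hlen : (wv u).length = u.length := by simp [wv]
  have hzl : (padTo u N).length = N := padTo_length h1
  rw [hRV]
  constructor
  · rintro ⟨w, _, hw2⟩
    have g1 := (h u (by omega) htb N h1 w).1 hw2
    simp only [Bool.and_eq_true, decide_eq_true_eq] at g1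
    exact ⟨w, g1.1, g1.2⟩
  · rintro ⟨w, hw1, hw2⟩
    rw [hlen] at hw1
    have hmono := (PB.ofPoly P).1
    refine ⟨w, by rw [hzl]; exact hw1.trans h3, (h u (by omega) htb N h1 w).2 ?_ ?_⟩
    · exact ((hmono (Nat.add_le_add_left hw1 _)).trans h2).trans (Nat.le_add_right _ _)
    · simp only [Bool.and_eq_true, decide_eq_true_eq]
      exact ⟨by rw [hlen]; exact hw1, hw2⟩

end Pool.Agent.BookPL
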