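import Pool.Agent.BookPL.UniVer

/-!
# Universal languages for P and NP
-/

set_option autoImplicit false

namespace Pool.Agent.BookPL

open Pool.Agent.Book19

/-- A language `U` of `𝒟` which is universal: for each `V ∈ 𝒟` there is a program `tb` such that
for every sufficiently long word `u` with the program `tb` on its code track, `u` padded to
any length `N ≥ |u|^c` is in `U` iff `u` with its advice `v` is in `V`. -/
theorem exists_univ (𝒟 : ∀ A : Type, Set (List A) → Prop) (h𝒟 : 𝒟 = InP ∨ 𝒟 = InNPc) :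
    ∃ U : Set (List (Option Sg)), 𝒟 _ U ∧ ∀ V : Set (List (Sg × Option Bool)), 𝒟 _ V →
      ∃ (tb : ℕ → Fin 10 → Bool) (c n₀ : ℕ), ∀ u : List Sg, n₀ ≤ u.length →
        (∀ p a, u[p]? = some a → a.cd = tb p) →
        ∀ N, u.length ^ c ≤ N → (padTo u N ∈ U ↔ wv u ∈ V) := by
  rcases h𝒟 with rfl | rfl
  · exact ⟨UP1, UP1_mem, UP1_univ⟩
  · exact ⟨UNP, UNP_mem, UNP_univ⟩

end Pool.Agent.BookPL
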